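import Pool.Agent.H38SD.Tab

/-!
# The barriers of the gadgets: explicit coordinates and disjointness
-/

set_option linter.unusedSimpArgs false

namespace Pool.Agent.H38SD

open Pool.Agent.K4H90.SegDraw

theorem cfgX_old {g : Gadget} (lo ro o z : ℕ → ℝ) {r : Ref} (h : r.1 ≠ 3) :
    cfgX g lo ro o z r = cfg g lo ro o r := if_neg h

theorem plain_x0_0 (lo ro o z : ℕ → ℝ) : cfgX plainG lo ro o z (0, 0) = (0, lo 0) :=
  (cfgX_old lo ro o z (by decide)).trans (plain_q0_0 lo ro o)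

theorem plain_x1_0 (lo ro o z : ℕ → ℝ) : cfgX plainG lo ro o z (1, 0) = (12, ro 0) :=
  (cfgX_old lo ro o z (by decide)).trans (plain_q1_0 lo ro o)

theorem plain_x2_0 (lo ro o z : ℕ → ℝ) : cfgX plainG lo ro o z (2, 0) = (3, o 0) :=
  (cfgX_old lo ro o z (by decide)).trans (plain_q2_0 lo ro o)

theorem plain_x2_1 (lo ro o z : ℕ → ℝ) : cfgX plainG lo ro o z (2, 1) = (6, o 1) :=
  (cfgX_old lo ro o z (by decide)).trans (plain_q2_1 lo ro o)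

theorem plain_x2_2 (lo ro o z : ℕ → ℝ) : cfgX plainG lo ro o z (2, 2) = (9, o 2) :=
  (cfgX_old lo ro o z (by decide)).trans (plain_q2_2 lo ro o)

theorem plain_x3_0 (lo ro o z : ℕ → ℝ) : cfgX plainG lo ro o z (3, 0) = (3, z 0) := by
  norm_num [cfgX, xlo, plainG]

theorem yF_0_0 : ((yF 0 0 : ℕ) : ℝ) = 16 := by
  have h : yF 0 0 = 16 := by decide
  rw [h]; norm_num

theorem plain_x3_2 (lo ro o z : ℕ → ℝ) : cfgX plainG lo ro o z (3, 2) = (9, z 2) := by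
  norm_num [cfgX, xlo, plainG]

theorem yF_0_2 : ((yF 0 2 : ℕ) : ℝ) = 0 := by
  have h : yF 0 2 = 0 := by decide
  rw [h]; norm_num

theorem tabV_0 : tabV 0 =
    [(((0, 0), (2, 1)), ((2, 0), (3, 0))),
    (((2, 1), (1, 0)), ((2, 2), (3, 2)))] := by
  decide +kernel

theorem tabW_0 : tabW 0 =
    [] := by
  decide +kernel

theorem plain_v {lo ro o : ℕ → ℝ} (hl : ∀ i < 1, 0 < lo i ∧ lo i < 16)
    (hr : ∀ i < 1, 0 < ro i ∧ ro i < 16) (ho : OffOK plainG o)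
    (hR : ∀ t ∈ trR plainG, 0 < cr (cfg plainG lo ro o t.1) (cfg plainG lo ro o t.2.1)
      (cfg plainG lo ro o t.2.2)) :
    (∀ p ∈ tabV 0, Disj (cfgX plainG lo ro o (fun i => (yF 0 i : ℝ)) p.1.1)
      (cfgX plainG lo ro o (fun i => (yF 0 i : ℝ)) p.1.2)
      (cfgX plainG lo ro o (fun i => (yF 0 i : ℝ)) p.2.1)
      (cfgX plainG lo ro o (fun i => (yF 0 i : ℝ)) p.2.2)) ∧
    (∀ p ∈ tabW 0, Disj (cfgX plainG lo ro o (fun i => (yF 0 i : ℝ)) p.1.1)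
      (cfgX plainG lo ro o (fun i => (yF 0 i : ℝ)) p.1.2)
      (cfgX plainG lo ro o (fun i => (yF 0 i : ℝ)) p.2.1)
      (cfgX plainG lo ro o (fun i => (yF 0 i : ℝ)) p.2.2)) := by
  obtain ⟨l0a, l0b⟩ := hl 0 (by norm_num)
  obtain ⟨r0a, r0b⟩ := hr 0 (by norm_num)
  obtain ⟨o0a, o0b⟩ := (ho 0 _ rfl).1 (by norm_num)
  obtain ⟨o1a, o1b⟩ := (ho 1 _ rfl).1 (by norm_num)
  obtain ⟨o2a, o2b⟩ := (ho 2 _ rfl).1 (by norm_num)
  rw [plain_trR] at hR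
  simp only [List.forall_mem_cons, plain_q0_0 lo ro o, plain_q1_0 lo ro o, plain_q2_0 lo ro o, plain_q2_1 lo ro o, plain_q2_2 lo ro o, cr] at hR
  obtain ⟨c0, c1, -⟩ := hR
  constructor
  · rw [tabV_0]
    simp only [List.forall_mem_cons, plain_x0_0, plain_x1_0, plain_x2_0, plain_x2_1, plain_x2_2, plain_x3_0, plain_x3_2, yF_0_0, yF_0_2]
    refine ⟨?_, ?_, by simp⟩
    all_goals
      refine disj_vert ?_
      dsimp only
      first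
        | exact Or.inl ⟨by linarith, by linarith⟩
        | exact Or.inr ⟨by linarith, by linarith⟩
  · rw [tabW_0]
    simp

theorem neg_x0_0 (lo ro o z : ℕ → ℝ) : cfgX negG lo ro o z (0, 0) = (0, lo 0) :=
  (cfgX_old lo ro o z (by decide)).trans (neg_q0_0 lo ro o)

theorem neg_x1_0 (lo ro o z : ℕ → ℝ) : cfgX negG lo ro o z (1, 0) = (12, ro 0) :=
  (cfgX_old lo ro o z (by decide)).trans (neg_q1_0 lo ro o)

theorem neg_x2_0 (lo ro o z : ℕ → ℝ) : cfgX negG lo ro o z (2, 0) = (6, o 0) :=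
  (cfgX_old lo ro o z (by decide)).trans (neg_q2_0 lo ro o)

theorem neg_x3_0 (lo ro o z : ℕ → ℝ) : cfgX negG lo ro o z (3, 0) = (6, z 0) := by
  norm_num [cfgX, xlo, negG]

theorem yF_1_0 : ((yF 1 0 : ℕ) : ℝ) = 0 := by
  have h : yF 1 0 = 0 := by decide
  rw [h]; norm_num

theorem tabV_1 : tabV 1 =
    [(((0, 0), (1, 0)), ((2, 0), (3, 0)))] := by
  decide +kernel

theorem tabW_1 : tabW 1 =
    [] := by
  decide +kernel

theorem neg_v {lo ro o : ℕ → ℝ} (hl : ∀ i < 1, 0 < lo i ∧ lo i < 16)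
    (hr : ∀ i < 1, 0 < ro i ∧ ro i < 16) (ho : OffOK negG o)
    (hR : ∀ t ∈ trR negG, 0 < cr (cfg negG lo ro o t.1) (cfg negG lo ro o t.2.1)
      (cfg negG lo ro o t.2.2)) :
    (∀ p ∈ tabV 1, Disj (cfgX negG lo ro o (fun i => (yF 1 i : ℝ)) p.1.1)
      (cfgX negG lo ro o (fun i => (yF 1 i : ℝ)) p.1.2)
      (cfgX negG lo ro o (fun i => (yF 1 i : ℝ)) p.2.1)
      (cfgX negG lo ro o (fun i => (yF 1 i : ℝ)) p.2.2)) ∧
    (∀ p ∈ tabW 1, Disj (cfgX negG lo ro o (fun i => (yF 1 i : ℝ)) p.1.1)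
      (cfgX negG lo ro o (fun i => (yF 1 i : ℝ)) p.1.2)
      (cfgX negG lo ro o (fun i => (yF 1 i : ℝ)) p.2.1)
      (cfgX negG lo ro o (fun i => (yF 1 i : ℝ)) p.2.2)) := by
  obtain ⟨l0a, l0b⟩ := hl 0 (by norm_num)
  obtain ⟨r0a, r0b⟩ := hr 0 (by norm_num)
  obtain ⟨o0a, o0b⟩ := (ho 0 _ rfl).1 (by norm_num)
  rw [neg_trR] at hR
  simp only [List.forall_mem_cons, neg_q0_0 lo ro o, neg_q1_0 lo ro o, neg_q2_0 lo ro o, cr] at hR
  obtain ⟨c0, -⟩ := hR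
  constructor
  · rw [tabV_1]
    simp only [List.forall_mem_cons, neg_x0_0, neg_x1_0, neg_x2_0, neg_x3_0, yF_1_0]
    refine ⟨?_, by simp⟩
    all_goals
      refine disj_vert ?_
      dsimp only
      first
        | exact Or.inl ⟨by linarith, by linarith⟩
        | exact Or.inr ⟨by linarith, by linarith⟩
  · rw [tabW_1]
    simp

theorem swap_x0_0 (lo ro o z : ℕ → ℝ) : cfgX swapG lo ro o z (0, 0) = (0, lo 0) :=
  (cfgX_old lo ro o z (by decide)).trans (swap_q0_0 lo ro o)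

theorem swap_x0_1 (lo ro o z : ℕ → ℝ) : cfgX swapG lo ro o z (0, 1) = (0, 192 + lo 1) :=
  (cfgX_old lo ro o z (by decide)).trans (swap_q0_1 lo ro o)

theorem swap_x1_0 (lo ro o z : ℕ → ℝ) : cfgX swapG lo ro o z (1, 0) = (12, ro 0) :=
  (cfgX_old lo ro o z (by decide)).trans (swap_q1_0 lo ro o)

theorem swap_x1_1 (lo ro o z : ℕ → ℝ) : cfgX swapG lo ro o z (1, 1) = (12, 192 + ro 1) :=
  (cfgX_old lo ro o z (by decide)).trans (swap_q1_1 lo ro o)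

theorem swap_x2_0 (lo ro o z : ℕ → ℝ) : cfgX swapG lo ro o z (2, 0) = (1, o 0) :=
  (cfgX_old lo ro o z (by decide)).trans (swap_q2_0 lo ro o)

theorem swap_x2_1 (lo ro o z : ℕ → ℝ) : cfgX swapG lo ro o z (2, 1) = (2, o 1) :=
  (cfgX_old lo ro o z (by decide)).trans (swap_q2_1 lo ro o)

theorem swap_x2_2 (lo ro o z : ℕ → ℝ) : cfgX swapG lo ro o z (2, 2) = (3, o 2) :=
  (cfgX_old lo ro o z (by decide)).trans (swap_q2_2 lo ro o)

theorem swap_x2_3 (lo ro o z : ℕ → ℝ) : cfgX swapG lo ro o z (2, 3) = (4, o 3) :=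
  (cfgX_old lo ro o z (by decide)).trans (swap_q2_3 lo ro o)

theorem swap_x2_4 (lo ro o z : ℕ → ℝ) : cfgX swapG lo ro o z (2, 4) = (5, o 4) :=
  (cfgX_old lo ro o z (by decide)).trans (swap_q2_4 lo ro o)

theorem swap_x2_5 (lo ro o z : ℕ → ℝ) : cfgX swapG lo ro o z (2, 5) = (6, o 5) :=
  (cfgX_old lo ro o z (by decide)).trans (swap_q2_5 lo ro o)

theorem swap_x2_6 (lo ro o z : ℕ → ℝ) : cfgX swapG lo ro o z (2, 6) = (2, 96 + o 6) :=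
  (cfgX_old lo ro o z (by decide)).trans (swap_q2_6 lo ro o)

theorem swap_x2_7 (lo ro o z : ℕ → ℝ) : cfgX swapG lo ro o z (2, 7) = (3, 120 + o 7) :=
  (cfgX_old lo ro o z (by decide)).trans (swap_q2_7 lo ro o)

theorem swap_x2_8 (lo ro o z : ℕ → ℝ) : cfgX swapG lo ro o z (2, 8) = (4, 144 + o 8) :=
  (cfgX_old lo ro o z (by decide)).trans (swap_q2_8 lo ro o)

theorem swap_x2_9 (lo ro o z : ℕ → ℝ) : cfgX swapG lo ro o z (2, 9) = (5, 168 + o 9) :=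
  (cfgX_old lo ro o z (by decide)).trans (swap_q2_9 lo ro o)

theorem swap_x2_10 (lo ro o z : ℕ → ℝ) : cfgX swapG lo ro o z (2, 10) = (6, 192 + o 10) :=
  (cfgX_old lo ro o z (by decide)).trans (swap_q2_10 lo ro o)

theorem swap_x2_11 (lo ro o z : ℕ → ℝ) : cfgX swapG lo ro o z (2, 11) = (5, 48 + o 11) :=
  (cfgX_old lo ro o z (by decide)).trans (swap_q2_11 lo ro o)

theorem swap_x2_12 (lo ro o z : ℕ → ℝ) : cfgX swapG lo ro o z (2, 12) = (8, o 12) :=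
  (cfgX_old lo ro o z (by decide)).trans (swap_q2_12 lo ro o)

theorem swap_x2_13 (lo ro o z : ℕ → ℝ) : cfgX swapG lo ro o z (2, 13) = (10, o 13) :=
  (cfgX_old lo ro o z (by decide)).trans (swap_q2_13 lo ro o)

theorem swap_x2_14 (lo ro o z : ℕ → ℝ) : cfgX swapG lo ro o z (2, 14) = (11, o 14) :=
  (cfgX_old lo ro o z (by decide)).trans (swap_q2_14 lo ro o)

theorem swap_x3_0 (lo ro o z : ℕ → ℝ) : cfgX swapG lo ro o z (3, 0) = (1, z 0) := by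
  norm_num [cfgX, xlo, swapG]

theorem yF_2_0 : ((yF 2 0 : ℕ) : ℝ) = 16 := by
  have h : yF 2 0 = 16 := by decide
  rw [h]; norm_num

theorem swap_x3_2 (lo ro o z : ℕ → ℝ) : cfgX swapG lo ro o z (3, 2) = (3, z 2) := by
  norm_num [cfgX, xlo, swapG]

theorem yF_2_2 : ((yF 2 2 : ℕ) : ℝ) = 0 := by
  have h : yF 2 2 = 0 := by decide
  rw [h]; norm_num

theorem swap_x3_4 (lo ro o z : ℕ → ℝ) : cfgX swapG lo ro o z (3, 4) = (5, z 4) := by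
  norm_num [cfgX, xlo, swapG]

theorem yF_2_4 : ((yF 2 4 : ℕ) : ℝ) = 0 := by
  have h : yF 2 4 = 0 := by decide
  rw [h]; norm_num

theorem swap_x3_7 (lo ro o z : ℕ → ℝ) : cfgX swapG lo ro o z (3, 7) = (3, z 7) := by
  norm_num [cfgX, xlo, swapG]

theorem yF_2_7 : ((yF 2 7 : ℕ) : ℝ) = 136 := by
  have h : yF 2 7 = 136 := by decide
  rw [h]; norm_num

theorem swap_x3_9 (lo ro o z : ℕ → ℝ) : cfgX swapG lo ro o z (3, 9) = (5, z 9) := by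
  norm_num [cfgX, xlo, swapG]

theorem yF_2_9 : ((yF 2 9 : ℕ) : ℝ) = 168 := by
  have h : yF 2 9 = 168 := by decide
  rw [h]; norm_num

theorem swap_x3_11 (lo ro o z : ℕ → ℝ) : cfgX swapG lo ro o z (3, 11) = (5, z 11) := by
  norm_num [cfgX, xlo, swapG]

theorem yF_2_11 : ((yF 2 11 : ℕ) : ℝ) = 64 := by
  have h : yF 2 11 = 64 := by decide
  rw [h]; norm_num

theorem swap_x3_14 (lo ro o z : ℕ → ℝ) : cfgX swapG lo ro o z (3, 14) = (11, z 14) := by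
  norm_num [cfgX, xlo, swapG]

theorem yF_2_14 : ((yF 2 14 : ℕ) : ℝ) = 0 := by
  have h : yF 2 14 = 0 := by decide
  rw [h]; norm_num

theorem tabV_2 : tabV 2 =
    [(((0, 0), (2, 1)), ((2, 0), (3, 0))),
    (((0, 1), (2, 3)), ((2, 0), (3, 0))),
    (((0, 1), (2, 6)), ((2, 0), (3, 0))),
    (((0, 1), (2, 10)), ((2, 0), (3, 0))),
    (((0, 1), (1, 1)), ((2, 0), (3, 0))),
    (((0, 1), (2, 3)), ((2, 2), (3, 2))),
    (((0, 1), (2, 10)), ((2, 2), (3, 2))),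
    (((0, 1), (1, 1)), ((2, 2), (3, 2))),
    (((2, 1), (2, 3)), ((2, 2), (3, 2))),
    (((2, 6), (2, 12)), ((2, 2), (3, 2))),
    (((2, 6), (2, 11)), ((2, 2), (3, 2))),
    (((2, 6), (2, 8)), ((2, 2), (3, 2))),
    (((2, 6), (2, 7)), ((2, 2), (3, 2))),
    (((0, 1), (2, 10)), ((2, 4), (3, 4))),
    (((0, 1), (1, 1)), ((2, 4), (3, 4))),
    (((2, 3), (2, 5)), ((2, 4), (3, 4))),
    (((2, 6), (2, 12)), ((2, 4), (3, 4))),
    (((2, 6), (2, 11)), ((2, 4), (3, 4))),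
    (((2, 8), (2, 9)), ((2, 4), (3, 4))),
    (((2, 8), (2, 10)), ((2, 4), (3, 4))),
    (((0, 1), (2, 3)), ((2, 7), (3, 7))),
    (((0, 1), (2, 10)), ((2, 7), (3, 7))),
    (((0, 1), (1, 1)), ((2, 7), (3, 7))),
    (((2, 1), (2, 2)), ((2, 7), (3, 7))),
    (((2, 1), (2, 3)), ((2, 7), (3, 7))),
    (((2, 6), (2, 12)), ((2, 7), (3, 7))),
    (((2, 6), (2, 11)), ((2, 7), (3, 7))),
    (((2, 6), (2, 8)), ((2, 7), (3, 7))),
    (((0, 1), (2, 10)), ((2, 9), (3, 9))),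
    (((0, 1), (1, 1)), ((2, 9), (3, 9))),
    (((2, 3), (2, 4)), ((2, 9), (3, 9))),
    (((2, 3), (2, 5)), ((2, 9), (3, 9))),
    (((2, 6), (2, 12)), ((2, 9), (3, 9))),
    (((2, 6), (2, 11)), ((2, 9), (3, 9))),
    (((2, 8), (2, 10)), ((2, 9), (3, 9))),
    (((0, 1), (2, 10)), ((2, 11), (3, 11))),
    (((0, 1), (1, 1)), ((2, 11), (3, 11))),
    (((2, 3), (2, 4)), ((2, 11), (3, 11))),
    (((2, 3), (2, 5)), ((2, 11), (3, 11))),
    (((2, 6), (2, 12)), ((2, 11), (3, 11))),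
    (((2, 8), (2, 9)), ((2, 11), (3, 11))),
    (((2, 8), (2, 10)), ((2, 11), (3, 11))),
    (((0, 1), (1, 1)), ((2, 14), (3, 14))),
    (((2, 13), (1, 0)), ((2, 14), (3, 14)))] := by
  decide +kernel

theorem tabW_2 : tabW 2 =
    [(((2, 7), (3, 7)), ((2, 2), (3, 2))),
    (((2, 9), (3, 9)), ((2, 4), (3, 4))),
    (((2, 11), (3, 11)), ((2, 4), (3, 4))),
    (((2, 2), (3, 2)), ((2, 7), (3, 7))),
    (((2, 4), (3, 4)), ((2, 9), (3, 9))),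
    (((2, 11), (3, 11)), ((2, 9), (3, 9))),
    (((2, 4), (3, 4)), ((2, 11), (3, 11))),
    (((2, 9), (3, 9)), ((2, 11), (3, 11)))] := by
  decide +kernel

theorem swap_v {lo ro o : ℕ → ℝ} (hl : ∀ i < 2, 0 < lo i ∧ lo i < 16)
    (hr : ∀ i < 2, 0 < ro i ∧ ro i < 16) (ho : OffOK swapG o)
    (hR : ∀ t ∈ trR swapG, 0 < cr (cfg swapG lo ro o t.1) (cfg swapG lo ro o t.2.1)
      (cfg swapG lo ro o t.2.2)) :
    (∀ p ∈ tabV 2, Disj (cfgX swapG lo ro o (fun i => (yF 2 i : ℝ)) p.1.1)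
      (cfgX swapG lo ro o (fun i => (yF 2 i : ℝ)) p.1.2)
      (cfgX swapG lo ro o (fun i => (yF 2 i : ℝ)) p.2.1)
      (cfgX swapG lo ro o (fun i => (yF 2 i : ℝ)) p.2.2)) ∧
    (∀ p ∈ tabW 2, Disj (cfgX swapG lo ro o (fun i => (yF 2 i : ℝ)) p.1.1)
      (cfgX swapG lo ro o (fun i => (yF 2 i : ℝ)) p.1.2)
      (cfgX swapG lo ro o (fun i => (yF 2 i : ℝ)) p.2.1)
      (cfgX swapG lo ro o (fun i => (yF 2 i : ℝ)) p.2.2)) := by
  obtain ⟨l0a, l0b⟩ := hl 0 (by norm_num)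
  obtain ⟨l1a, l1b⟩ := hl 1 (by norm_num)
  obtain ⟨r0a, r0b⟩ := hr 0 (by norm_num)
  obtain ⟨r1a, r1b⟩ := hr 1 (by norm_num)
  obtain ⟨o0a, o0b⟩ := (ho 0 _ rfl).1 (by norm_num)
  obtain ⟨o1a, o1b⟩ := (ho 1 _ rfl).1 (by norm_num)
  obtain ⟨o2a, o2b⟩ := (ho 2 _ rfl).1 (by norm_num)
  obtain ⟨o3a, o3b⟩ := (ho 3 _ rfl).1 (by norm_num)
  obtain ⟨o4a, o4b⟩ := (ho 4 _ rfl).1 (by norm_num)
  obtain ⟨o5a, o5b⟩ := (ho 5 _ rfl).1 (by norm_num)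
  obtain ⟨o6a, o6b⟩ := (ho 6 _ rfl).1 (by norm_num)
  obtain ⟨o7a, o7b⟩ := (ho 7 _ rfl).1 (by norm_num)
  obtain ⟨o8a, o8b⟩ := (ho 8 _ rfl).1 (by norm_num)
  obtain ⟨o9a, o9b⟩ := (ho 9 _ rfl).1 (by norm_num)
  obtain ⟨o10a, o10b⟩ := (ho 10 _ rfl).1 (by norm_num)
  obtain ⟨o11a, o11b⟩ := (ho 11 _ rfl).1 (by norm_num)
  obtain ⟨o12a, o12b⟩ := (ho 12 _ rfl).1 (by norm_num)
  obtain ⟨o13a, o13b⟩ := (ho 13 _ rfl).1 (by norm_num)
  obtain ⟨o14a, o14b⟩ := (ho 14 _ rfl).1 (by norm_num)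
  rw [swap_trR] at hR
  simp only [List.forall_mem_cons, swap_q0_0 lo ro o, swap_q0_1 lo ro o, swap_q1_0 lo ro o, swap_q1_1 lo ro o, swap_q2_0 lo ro o, swap_q2_1 lo ro o, swap_q2_2 lo ro o, swap_q2_3 lo ro o, swap_q2_4 lo ro o, swap_q2_5 lo ro o, swap_q2_6 lo ro o, swap_q2_7 lo ro o, swap_q2_8 lo ro o, swap_q2_9 lo ro o, swap_q2_10 lo ro o, swap_q2_11 lo ro o, swap_q2_12 lo ro o, swap_q2_13 lo ro o, swap_q2_14 lo ro o, cr] at hR
  obtain ⟨c0, c1, c2, c3, c4, c5, c6, c7, c8, c9, c10, c11, c12, c13, c14, c15, c16, c17, -⟩ := hR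
  constructor
  · rw [tabV_2]
    simp only [List.forall_mem_cons, swap_x0_0, swap_x0_1, swap_x1_0, swap_x1_1, swap_x2_0, swap_x2_1, swap_x2_2, swap_x2_3, swap_x2_4, swap_x2_5, swap_x2_6, swap_x2_7, swap_x2_8, swap_x2_9, swap_x2_10, swap_x2_11, swap_x2_12, swap_x2_13, swap_x2_14, swap_x3_0, swap_x3_2, swap_x3_4, swap_x3_7, swap_x3_9, swap_x3_11, swap_x3_14, yF_2_0, yF_2_2, yF_2_4, yF_2_7, yF_2_9, yF_2_11, yF_2_14]
    refine ⟨?_, ?_, ?_, ?_, ?_, ?_, ?_, ?_, ?_, ?_, ?_, ?_, ?_, ?_, ?_, ?_, ?_, ?_, ?_, ?_, ?_, ?_, ?_, ?_, ?_, ?_, ?_, ?_, ?_, ?_, ?_, ?_, ?_, ?_, ?_, ?_, ?_, ?_, ?_, ?_, ?_, ?_, ?_, ?_, by simp⟩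
    all_goals
      refine disj_vert ?_
      dsimp only
      first
        | exact Or.inl ⟨by linarith, by linarith⟩
        | exact Or.inr ⟨by linarith, by linarith⟩
  · rw [tabW_2]
    simp only [List.forall_mem_cons, swap_x0_0, swap_x0_1, swap_x1_0, swap_x1_1, swap_x2_0, swap_x2_1, swap_x2_2, swap_x2_3, swap_x2_4, swap_x2_5, swap_x2_6, swap_x2_7, swap_x2_8, swap_x2_9, swap_x2_10, swap_x2_11, swap_x2_12, swap_x2_13, swap_x2_14, swap_x3_0, swap_x3_2, swap_x3_4, swap_x3_7, swap_x3_9, swap_x3_11, swap_x3_14, yF_2_0, yF_2_2, yF_2_4, yF_2_7, yF_2_9, yF_2_11, yF_2_14]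
    refine ⟨?_, ?_, ?_, ?_, ?_, ?_, ?_, ?_, by simp⟩
    all_goals
      refine disj_vv ?_
      first
        | exact Or.inl ⟨by linarith, by linarith, by linarith, by linarith⟩
        | exact Or.inr ⟨by linarith, by linarith, by linarith, by linarith⟩

theorem lin_x0_0 (lo ro o z : ℕ → ℝ) : cfgX linG lo ro o z (0, 0) = (0, lo 0) :=
  (cfgX_old lo ro o z (by decide)).trans (lin_q0_0 lo ro o)

theorem lin_x0_1 (lo ro o z : ℕ → ℝ) : cfgX linG lo ro o z (0, 1) = (0, 192 + lo 1) :=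
  (cfgX_old lo ro o z (by decide)).trans (lin_q0_1 lo ro o)

theorem lin_x0_2 (lo ro o z : ℕ → ℝ) : cfgX linG lo ro o z (0, 2) = (0, 384 + lo 2) :=
  (cfgX_old lo ro o z (by decide)).trans (lin_q0_2 lo ro o)

theorem lin_x2_0 (lo ro o z : ℕ → ℝ) : cfgX linG lo ro o z (2, 0) = (1, 384 + o 0) :=
  (cfgX_old lo ro o z (by decide)).trans (lin_q2_0 lo ro o)

theorem lin_x2_1 (lo ro o z : ℕ → ℝ) : cfgX linG lo ro o z (2, 1) = (2, 384 + o 1) :=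
  (cfgX_old lo ro o z (by decide)).trans (lin_q2_1 lo ro o)

theorem lin_x2_2 (lo ro o z : ℕ → ℝ) : cfgX linG lo ro o z (2, 2) = (3, 384 + o 2) :=
  (cfgX_old lo ro o z (by decide)).trans (lin_q2_2 lo ro o)

theorem lin_x2_3 (lo ro o z : ℕ → ℝ) : cfgX linG lo ro o z (2, 3) = (4, 384 + o 3) :=
  (cfgX_old lo ro o z (by decide)).trans (lin_q2_3 lo ro o)

theorem lin_x2_4 (lo ro o z : ℕ → ℝ) : cfgX linG lo ro o z (2, 4) = (1, 192 + o 4) :=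
  (cfgX_old lo ro o z (by decide)).trans (lin_q2_4 lo ro o)

theorem lin_x2_5 (lo ro o z : ℕ → ℝ) : cfgX linG lo ro o z (2, 5) = (2, 192 + o 5) :=
  (cfgX_old lo ro o z (by decide)).trans (lin_q2_5 lo ro o)

theorem lin_x3_0 (lo ro o z : ℕ → ℝ) : cfgX linG lo ro o z (3, 0) = (1, z 0) := by
  norm_num [cfgX, xlo, linG]

theorem yF_3_0 : ((yF 3 0 : ℕ) : ℝ) = 400 := by
  have h : yF 3 0 = 400 := by decide
  rw [h]; norm_num

theorem lin_x3_2 (lo ro o z : ℕ → ℝ) : cfgX linG lo ro o z (3, 2) = (3, z 2) := by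
  norm_num [cfgX, xlo, linG]

theorem yF_3_2 : ((yF 3 2 : ℕ) : ℝ) = 384 := by
  have h : yF 3 2 = 384 := by decide
  rw [h]; norm_num

theorem lin_x3_4 (lo ro o z : ℕ → ℝ) : cfgX linG lo ro o z (3, 4) = (1, z 4) := by
  norm_num [cfgX, xlo, linG]

theorem yF_3_4 : ((yF 3 4 : ℕ) : ℝ) = 208 := by
  have h : yF 3 4 = 208 := by decide
  rw [h]; norm_num

theorem tabV_3 : tabV 3 =
    [(((0, 0), (2, 3)), ((2, 0), (3, 0))),
    (((0, 0), (2, 5)), ((2, 0), (3, 0))),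
    (((0, 1), (2, 5)), ((2, 0), (3, 0))),
    (((0, 1), (2, 4)), ((2, 0), (3, 0))),
    (((0, 2), (2, 1)), ((2, 0), (3, 0))),
    (((0, 0), (2, 3)), ((2, 2), (3, 2))),
    (((2, 1), (2, 3)), ((2, 2), (3, 2))),
    (((0, 0), (2, 3)), ((2, 4), (3, 4))),
    (((0, 0), (2, 5)), ((2, 4), (3, 4))),
    (((0, 1), (2, 5)), ((2, 4), (3, 4))),
    (((0, 2), (2, 1)), ((2, 4), (3, 4))),
    (((0, 2), (2, 0)), ((2, 4), (3, 4)))] := by
  decide +kernel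

theorem tabW_3 : tabW 3 =
    [(((2, 4), (3, 4)), ((2, 0), (3, 0))),
    (((2, 0), (3, 0)), ((2, 4), (3, 4)))] := by
  decide +kernel

theorem lin_v {lo ro o : ℕ → ℝ} (hl : ∀ i < 3, 0 < lo i ∧ lo i < 16)
    (hr : ∀ i < 0, 0 < ro i ∧ ro i < 16) (ho : OffOK linG o)
    (hR : ∀ t ∈ trR linG, 0 < cr (cfg linG lo ro o t.1) (cfg linG lo ro o t.2.1)
      (cfg linG lo ro o t.2.2)) :
    (∀ p ∈ tabV 3, Disj (cfgX linG lo ro o (fun i => (yF 3 i : ℝ)) p.1.1)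
      (cfgX linG lo ro o (fun i => (yF 3 i : ℝ)) p.1.2)
      (cfgX linG lo ro o (fun i => (yF 3 i : ℝ)) p.2.1)
      (cfgX linG lo ro o (fun i => (yF 3 i : ℝ)) p.2.2)) ∧
    (∀ p ∈ tabW 3, Disj (cfgX linG lo ro o (fun i => (yF 3 i : ℝ)) p.1.1)
      (cfgX linG lo ro o (fun i => (yF 3 i : ℝ)) p.1.2)
      (cfgX linG lo ro o (fun i => (yF 3 i : ℝ)) p.2.1)
      (cfgX linG lo ro o (fun i => (yF 3 i : ℝ)) p.2.2)) := by
  obtain ⟨l0a, l0b⟩ := hl 0 (by norm_num)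
  obtain ⟨l1a, l1b⟩ := hl 1 (by norm_num)
  obtain ⟨l2a, l2b⟩ := hl 2 (by norm_num)
  obtain ⟨o0a, o0b⟩ := (ho 0 _ rfl).1 (by norm_num)
  obtain ⟨o1a, o1b⟩ := (ho 1 _ rfl).1 (by norm_num)
  obtain ⟨o2a, o2b⟩ := (ho 2 _ rfl).1 (by norm_num)
  obtain ⟨o3a, o3b⟩ := (ho 3 _ rfl).1 (by norm_num)
  obtain ⟨o4a, o4b⟩ := (ho 4 _ rfl).1 (by norm_num)
  obtain ⟨o5a, o5b⟩ := (ho 5 _ rfl).1 (by norm_num)
  rw [lin_trR] at hR
  simp only [List.forall_mem_cons, lin_q0_0 lo ro o, lin_q0_1 lo ro o, lin_q0_2 lo ro o, lin_q2_0 lo ro o, lin_q2_1 lo ro o, lin_q2_2 lo ro o, lin_q2_3 lo ro o, lin_q2_4 lo ro o, lin_q2_5 lo ro o, cr] at hR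
  obtain ⟨c0, c1, c2, c3, -⟩ := hR
  constructor
  · rw [tabV_3]
    simp only [List.forall_mem_cons, lin_x0_0, lin_x0_1, lin_x0_2, lin_x2_0, lin_x2_1, lin_x2_2, lin_x2_3, lin_x2_4, lin_x2_5, lin_x3_0, lin_x3_2, lin_x3_4, yF_3_0, yF_3_2, yF_3_4]
    refine ⟨?_, ?_, ?_, ?_, ?_, ?_, ?_, ?_, ?_, ?_, ?_, ?_, by simp⟩
    all_goals
      refine disj_vert ?_
      dsimp only
      first
        | exact Or.inl ⟨by linarith, by linarith⟩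
        | exact Or.inr ⟨by linarith, by linarith⟩
  · rw [tabW_3]
    simp only [List.forall_mem_cons, lin_x0_0, lin_x0_1, lin_x0_2, lin_x2_0, lin_x2_1, lin_x2_2, lin_x2_3, lin_x2_4, lin_x2_5, lin_x3_0, lin_x3_2, lin_x3_4, yF_3_0, yF_3_2, yF_3_4]
    refine ⟨?_, ?_, by simp⟩
    all_goals
      refine disj_vv ?_
      first
        | exact Or.inl ⟨by linarith, by linarith, by linarith, by linarith⟩
        | exact Or.inr ⟨by linarith, by linarith, by linarith, by linarith⟩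

theorem prod_x0_0 (lo ro o z : ℕ → ℝ) : cfgX prodG lo ro o z (0, 0) = (0, lo 0) :=
  (cfgX_old lo ro o z (by decide)).trans (prod_q0_0 lo ro o)

theorem prod_x0_1 (lo ro o z : ℕ → ℝ) : cfgX prodG lo ro o z (0, 1) = (0, 192 + lo 1) :=
  (cfgX_old lo ro o z (by decide)).trans (prod_q0_1 lo ro o)

theorem prod_x0_2 (lo ro o z : ℕ → ℝ) : cfgX prodG lo ro o z (0, 2) = (0, 384 + lo 2) :=
  (cfgX_old lo ro o z (by decide)).trans (prod_q0_2 lo ro o)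

theorem prod_x2_0 (lo ro o z : ℕ → ℝ) : cfgX prodG lo ro o z (2, 0) = (1, o 0) :=
  (cfgX_old lo ro o z (by decide)).trans (prod_q2_0 lo ro o)

theorem prod_x2_1 (lo ro o z : ℕ → ℝ) : cfgX prodG lo ro o z (2, 1) = (2, o 1) :=
  (cfgX_old lo ro o z (by decide)).trans (prod_q2_1 lo ro o)

theorem prod_x2_2 (lo ro o z : ℕ → ℝ) : cfgX prodG lo ro o z (2, 2) = (4, o 2) :=
  (cfgX_old lo ro o z (by decide)).trans (prod_q2_2 lo ro o)

theorem prod_x2_3 (lo ro o z : ℕ → ℝ) : cfgX prodG lo ro o z (2, 3) = (6, o 3) :=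
  (cfgX_old lo ro o z (by decide)).trans (prod_q2_3 lo ro o)

theorem prod_x2_4 (lo ro o z : ℕ → ℝ) : cfgX prodG lo ro o z (2, 4) = (1, 148 + o 4) :=
  (cfgX_old lo ro o z (by decide)).trans (prod_q2_4 lo ro o)

theorem prod_x2_5 (lo ro o z : ℕ → ℝ) : cfgX prodG lo ro o z (2, 5) = (2, 104 + o 5) :=
  (cfgX_old lo ro o z (by decide)).trans (prod_q2_5 lo ro o)

theorem prod_x2_6 (lo ro o z : ℕ → ℝ) : cfgX prodG lo ro o z (2, 6) = (3, 60 + o 6) :=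
  (cfgX_old lo ro o z (by decide)).trans (prod_q2_6 lo ro o)

theorem prod_x2_7 (lo ro o z : ℕ → ℝ) : cfgX prodG lo ro o z (2, 7) = (4, 16 + o 7) :=
  (cfgX_old lo ro o z (by decide)).trans (prod_q2_7 lo ro o)

theorem prod_x2_8 (lo ro o z : ℕ → ℝ) : cfgX prodG lo ro o z (2, 8) = (3, 194 + o 8) :=
  (cfgX_old lo ro o z (by decide)).trans (prod_q2_8 lo ro o)

theorem prod_x2_9 (lo ro o z : ℕ → ℝ) : cfgX prodG lo ro o z (2, 9) = (6, 4 + o 9) :=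
  (cfgX_old lo ro o z (by decide)).trans (prod_q2_9 lo ro o)

theorem prod_x2_10 (lo ro o z : ℕ → ℝ) : cfgX prodG lo ro o z (2, 10) = (o 10, 0) :=
  (cfgX_old lo ro o z (by decide)).trans (prod_q2_10 lo ro o)

theorem prod_x2_11 (lo ro o z : ℕ → ℝ) : cfgX prodG lo ro o z (2, 11) = (4, 8 + o 11) :=
  (cfgX_old lo ro o z (by decide)).trans (prod_q2_11 lo ro o)

theorem prod_x2_12 (lo ro o z : ℕ → ℝ) : cfgX prodG lo ro o z (2, 12) = (11, o 12) :=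
  (cfgX_old lo ro o z (by decide)).trans (prod_q2_12 lo ro o)

theorem prod_x3_0 (lo ro o z : ℕ → ℝ) : cfgX prodG lo ro o z (3, 0) = (1, z 0) := by
  norm_num [cfgX, xlo, prodG]

theorem yF_4_0 : ((yF 4 0 : ℕ) : ℝ) = 16 := by
  have h : yF 4 0 = 16 := by decide
  rw [h]; norm_num

theorem prod_x3_2 (lo ro o z : ℕ → ℝ) : cfgX prodG lo ro o z (3, 2) = (4, z 2) := by
  norm_num [cfgX, xlo, prodG]

theorem yF_4_2 : ((yF 4 2 : ℕ) : ℝ) = 0 := by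
  have h : yF 4 2 = 0 := by decide
  rw [h]; norm_num

theorem prod_x3_4 (lo ro o z : ℕ → ℝ) : cfgX prodG lo ro o z (3, 4) = (1, z 4) := by
  norm_num [cfgX, xlo, prodG]

theorem yF_4_4 : ((yF 4 4 : ℕ) : ℝ) = 164 := by
  have h : yF 4 4 = 164 := by decide
  rw [h]; norm_num

theorem prod_x3_6 (lo ro o z : ℕ → ℝ) : cfgX prodG lo ro o z (3, 6) = (3, z 6) := by
  norm_num [cfgX, xlo, prodG]

theorem yF_4_6 : ((yF 4 6 : ℕ) : ℝ) = 60 := by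
  have h : yF 4 6 = 60 := by decide
  rw [h]; norm_num

theorem prod_x3_8 (lo ro o z : ℕ → ℝ) : cfgX prodG lo ro o z (3, 8) = (3, z 8) := by
  norm_num [cfgX, xlo, prodG]

theorem yF_4_8 : ((yF 4 8 : ℕ) : ℝ) = 210 := by
  have h : yF 4 8 = 210 := by decide
  rw [h]; norm_num

theorem tabV_4 : tabV 4 =
    [(((0, 0), (2, 1)), ((2, 0), (3, 0))),
    (((0, 1), (2, 5)), ((2, 0), (3, 0))),
    (((0, 1), (2, 4)), ((2, 0), (3, 0))),
    (((0, 2), (2, 9)), ((2, 0), (3, 0))),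
    (((0, 2), (2, 8)), ((2, 0), (3, 0))),
    (((0, 2), (2, 9)), ((2, 2), (3, 2))),
    (((2, 1), (2, 3)), ((2, 2), (3, 2))),
    (((2, 5), (2, 7)), ((2, 2), (3, 2))),
    (((2, 7), (2, 10)), ((2, 2), (3, 2))),
    (((2, 11), (2, 10)), ((2, 2), (3, 2))),
    (((0, 0), (2, 1)), ((2, 4), (3, 4))),
    (((0, 0), (2, 0)), ((2, 4), (3, 4))),
    (((0, 1), (2, 5)), ((2, 4), (3, 4))),
    (((0, 2), (2, 9)), ((2, 4), (3, 4))),
    (((0, 2), (2, 8)), ((2, 4), (3, 4))),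
    (((0, 2), (2, 9)), ((2, 6), (3, 6))),
    (((0, 2), (2, 8)), ((2, 6), (3, 6))),
    (((2, 1), (2, 2)), ((2, 6), (3, 6))),
    (((2, 1), (2, 3)), ((2, 6), (3, 6))),
    (((2, 5), (2, 7)), ((2, 6), (3, 6))),
    (((0, 2), (2, 9)), ((2, 8), (3, 8))),
    (((2, 1), (2, 2)), ((2, 8), (3, 8))),
    (((2, 1), (2, 3)), ((2, 8), (3, 8))),
    (((2, 5), (2, 6)), ((2, 8), (3, 8))),
    (((2, 5), (2, 7)), ((2, 8), (3, 8))),
    (((0, 2), (2, 9)), ((2, 11), (2, 7))),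
    (((2, 1), (2, 2)), ((2, 11), (2, 7))),
    (((2, 1), (2, 3)), ((2, 11), (2, 7)))] := by
  decide +kernel

theorem tabW_4 : tabW 4 =
    [(((2, 4), (3, 4)), ((2, 0), (3, 0))),
    (((2, 11), (2, 7)), ((2, 2), (3, 2))),
    (((2, 0), (3, 0)), ((2, 4), (3, 4))),
    (((2, 8), (3, 8)), ((2, 6), (3, 6))),
    (((2, 6), (3, 6)), ((2, 8), (3, 8))),
    (((2, 2), (3, 2)), ((2, 11), (2, 7)))] := by
  decide +kernel

theorem prod_v {lo ro o : ℕ → ℝ} (hl : ∀ i < 3, 0 < lo i ∧ lo i < 16)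
    (hr : ∀ i < 0, 0 < ro i ∧ ro i < 16) (ho : OffOK prodG o)
    (hR : ∀ t ∈ trR prodG, 0 < cr (cfg prodG lo ro o t.1) (cfg prodG lo ro o t.2.1)
      (cfg prodG lo ro o t.2.2)) (h11 : o 11 = 8) :
    (∀ p ∈ tabV 4, Disj (cfgX prodG lo ro o (fun i => (yF 4 i : ℝ)) p.1.1)
      (cfgX prodG lo ro o (fun i => (yF 4 i : ℝ)) p.1.2)
      (cfgX prodG lo ro o (fun i => (yF 4 i : ℝ)) p.2.1)
      (cfgX prodG lo ro o (fun i => (yF 4 i : ℝ)) p.2.2)) ∧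
    (∀ p ∈ tabW 4, Disj (cfgX prodG lo ro o (fun i => (yF 4 i : ℝ)) p.1.1)
      (cfgX prodG lo ro o (fun i => (yF 4 i : ℝ)) p.1.2)
      (cfgX prodG lo ro o (fun i => (yF 4 i : ℝ)) p.2.1)
      (cfgX prodG lo ro o (fun i => (yF 4 i : ℝ)) p.2.2)) := by
  obtain ⟨l0a, l0b⟩ := hl 0 (by norm_num)
  obtain ⟨l1a, l1b⟩ := hl 1 (by norm_num)
  obtain ⟨l2a, l2b⟩ := hl 2 (by norm_num)
  obtain ⟨o0a, o0b⟩ := (ho 0 _ rfl).1 (by norm_num)
  obtain ⟨o1a, o1b⟩ := (ho 1 _ rfl).1 (by norm_num)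
  obtain ⟨o2a, o2b⟩ := (ho 2 _ rfl).1 (by norm_num)
  obtain ⟨o3a, o3b⟩ := (ho 3 _ rfl).1 (by norm_num)
  obtain ⟨o4a, o4b⟩ := (ho 4 _ rfl).1 (by norm_num)
  obtain ⟨o5a, o5b⟩ := (ho 5 _ rfl).1 (by norm_num)
  obtain ⟨o6a, o6b⟩ := (ho 6 _ rfl).1 (by norm_num)
  obtain ⟨o7a, o7b⟩ := (ho 7 _ rfl).1 (by norm_num)
  obtain ⟨o8a, o8b⟩ := (ho 8 _ rfl).1 (by norm_num)
  obtain ⟨o9a, o9b⟩ := (ho 9 _ rfl).1 (by norm_num)
  obtain ⟨o10a, o10b⟩ := (ho 10 _ rfl).2 rfl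
  norm_num at o10a o10b
  obtain ⟨o11a, o11b⟩ := (ho 11 _ rfl).1 (by norm_num)
  obtain ⟨o12a, o12b⟩ := (ho 12 _ rfl).1 (by norm_num)
  rw [prod_trR] at hR
  simp only [List.forall_mem_cons, prod_q0_0 lo ro o, prod_q0_1 lo ro o, prod_q0_2 lo ro o, prod_q2_0 lo ro o, prod_q2_1 lo ro o, prod_q2_2 lo ro o, prod_q2_3 lo ro o, prod_q2_4 lo ro o, prod_q2_5 lo ro o, prod_q2_6 lo ro o, prod_q2_7 lo ro o, prod_q2_8 lo ro o, prod_q2_9 lo ro o, prod_q2_10 lo ro o, prod_q2_11 lo ro o, prod_q2_12 lo ro o, cr] at hR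
  obtain ⟨c0, c1, c2, c3, c4, -⟩ := hR
  have v4 : 0 < o 10 - 4 := by linarith
  have w1 : 0 < (16 + o 7 - o 2) * (o 10 - 4) := mul_pos (by linarith) v4
  have w2 : 0 < (16 + o 7) * (o 10 - 4) := mul_pos (by linarith) v4
  have w3 : 0 < (16 - o 2) * (o 10 - 4) := mul_pos (by linarith) v4
  constructor
  · rw [tabV_4]
    simp only [List.forall_mem_cons, prod_x0_0, prod_x0_1, prod_x0_2, prod_x2_0, prod_x2_1, prod_x2_2, prod_x2_3, prod_x2_4, prod_x2_5, prod_x2_6, prod_x2_7, prod_x2_8, prod_x2_9, prod_x2_10, prod_x2_11, prod_x2_12, prod_x3_0, prod_x3_2, prod_x3_4, prod_x3_6, prod_x3_8, h11, yF_4_0, yF_4_2, yF_4_4, yF_4_6, yF_4_8]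
    refine ⟨?_, ?_, ?_, ?_, ?_, ?_, ?_, ?_, ?_, ?_, ?_, ?_, ?_, ?_, ?_, ?_, ?_, ?_, ?_, ?_, ?_, ?_, ?_, ?_, ?_, ?_, ?_, ?_, by simp⟩
    all_goals
      refine disj_vert ?_
      dsimp only
      first
        | exact Or.inl ⟨by linarith, by linarith⟩
        | exact Or.inr ⟨by linarith, by linarith⟩
  · rw [tabW_4]
    simp only [List.forall_mem_cons, prod_x0_0, prod_x0_1, prod_x0_2, prod_x2_0, prod_x2_1, prod_x2_2, prod_x2_3, prod_x2_4, prod_x2_5, prod_x2_6, prod_x2_7, prod_x2_8, prod_x2_9, prod_x2_10, prod_x2_11, prod_x2_12, prod_x3_0, prod_x3_2, prod_x3_4, prod_x3_6, prod_x3_8, h11, yF_4_0, yF_4_2, yF_4_4, yF_4_6, yF_4_8]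
    refine ⟨?_, ?_, ?_, ?_, ?_, ?_, by simp⟩
    all_goals
      refine disj_vv ?_
      first
        | exact Or.inl ⟨by linarith, by linarith, by linarith, by linarith⟩
        | exact Or.inr ⟨by linarith, by linarith, by linarith, by linarith⟩

end Pool.Agent.H38SD
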