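import Pool.Agent.H38SD.Drw

/-!
# Completeness
-/

namespace Pool.Agent.H38SD

open Pool.Agent.K4H90.SegDraw Pool.Agent.K4H90.SegDraw.Dat

variable {d : Dat}

/-- The configuration for given values of the sources. (This is the construction in
`Pool.Agent.K4H90.Seg.Sem2`.) -/
theorem complete_cfg (h : d.OK) {s : ℕ → ℝ} (hs : ∀ k, 0 < s k ∧ s k < 1) (hT : d.Tests s)
    (hmid : ∀ τ < d.T, d.ks τ = true → 2 / 5 < d.lit s (d.tr d.L (3 * τ)) ∧
      d.lit s (d.tr d.L (3 * τ)) < 3 / 5) :
    ∃ (t : ℕ → ℕ → ℝ) (o : ℕ → ℕ → ℕ → ℝ), Dia.Good d.dia t o ∧ (∀ k, t 0 k = 16 * s k) ∧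
      ∀ l < d.L + 2, ∀ b < 3 * d.T, ∀ i w, (gadOf (d.gk l b)).1[i]? = some w →
        (w.2.2.1 = 0 ∧ 0 < o l b i ∧ o l b i < 16) ∨
        (w.2.2.1 = 1 ∧ o l b i = 8) ∨
        (w.2.2.1 = 2 ∧ l ≠ 0 ∧ (w.1 : ℝ) < o l b i ∧ o l b i < (w.1 : ℝ) + 3) := by
  have hlit : ∀ k, 0 < d.lit s k ∧ d.lit s k < 1 := by
    intro k
    unfold lit
    have := hs (d.grp k)
    split_ifs <;> constructor <;> linarith
  -- the margin
  obtain ⟨m1, hm1, hm1'⟩ := exists_min (fun k => min (d.lit s k) (1 - d.lit s k)) (3 * d.T)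
    (fun k _ => lt_min (hlit k).1 (by linarith [(hlit k).2]))
  obtain ⟨m2, hm2, hm2'⟩ := exists_min (fun τ => if d.ks τ = true then
      5 / 4 - ((1 + d.lit s (d.tr d.L (3 * τ + 1))) * d.lit s (d.tr d.L (3 * τ)) +
        d.lit s (d.tr d.L (3 * τ + 2))) else
      2 - (d.lit s (d.tr d.L (3 * τ)) + d.lit s (d.tr d.L (3 * τ + 2)) +
        2 * d.lit s (d.tr d.L (3 * τ + 1)))) d.T (by
    intro τ hτ
    have := hT τ hτ
    unfold shold at this
    split_ifs at this ⊢ <;> linarith)
  obtain ⟨m3, hm3, hm3'⟩ := exists_min (fun k => min (s k) (1 - s k)) (3 * d.T)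
    (fun k _ => lt_min (hs k).1 (by linarith [(hs k).2]))
  set m := min m1 (min m2 m3) with hm
  have hm0 : 0 < m := lt_min hm1 (lt_min hm2 hm3)
  have hml : ∀ k < 3 * d.T, m ≤ d.lit s k ∧ d.lit s k ≤ 1 - m := by
    intro k hk
    have e1 := (min_le_left m1 (min m2 m3)).trans (hm1' k hk)
    have e2 := e1.trans (min_le_left _ _)
    have e3 := e1.trans (min_le_right _ _)
    constructor <;> linarith
  have hms : ∀ k < 3 * d.T, m ≤ s k ∧ s k ≤ 1 - m := by
    intro k hk
    have e0 := (min_le_right m1 (min m2 m3)).trans (min_le_right m2 m3)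
    have e1 := e0.trans (hm3' k hk)
    have e2 := e1.trans (min_le_left _ _)
    have e3 := e1.trans (min_le_right _ _)
    constructor <;> linarith
  have hmt : ∀ τ < d.T, m ≤ if d.ks τ = true then
      5 / 4 - ((1 + d.lit s (d.tr d.L (3 * τ + 1))) * d.lit s (d.tr d.L (3 * τ)) +
        d.lit s (d.tr d.L (3 * τ + 2))) else
      2 - (d.lit s (d.tr d.L (3 * τ)) + d.lit s (d.tr d.L (3 * τ + 2)) +
        2 * d.lit s (d.tr d.L (3 * τ + 1))) := by
    intro τ hτ
    exact ((min_le_right m1 (min m2 m3)).trans (min_le_left m2 m3)).trans (hm2' τ hτ)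
  have hmhalf : m ≤ 1 / 2 := by
    have := hml 0 (by have := h.hT; omega)
    linarith
  set δ : ℝ := m / (100 * ((d.L : ℝ) + 2)) with hδ
  have hL0 : (0 : ℝ) ≤ (d.L : ℝ) := Nat.cast_nonneg _
  have hδ0 : 0 < δ := by positivity
  have hδL : 100 * δ * ((d.L : ℝ) + 2) = m := by
    rw [hδ]; field_simp
  have hδs : 200 * δ ≤ m := by nlinarith
  have hstep : ∀ l : ℕ, l ≤ d.L + 1 → 100 * (δ * (l : ℝ)) + 100 * δ ≤ m := by
    intro l hl
    have : (l : ℝ) ≤ (d.L : ℝ) + 1 := by exact_mod_cast hl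
    nlinarith
  have hstep0 : ∀ l : ℕ, 0 ≤ δ * (l : ℝ) := fun l => by positivity
  set t := d.tV s δ with ht
  have ht0 : ∀ k, t 0 k = 16 * s k := fun k => by rw [ht]; unfold tV; rw [if_pos rfl]
  have htl : ∀ i ≤ d.L, ∀ k < 3 * d.T,
      t (i + 1) k = 16 * (d.lit s (d.tr i k) + 10 * δ * ((i + 1 : ℕ) : ℝ)) := by
    intro i hi k hk
    rw [ht]
    unfold tV
    rw [if_neg (by omega), if_pos ⟨by omega, hk⟩, Nat.add_sub_cancel]
  -- margins of the ports
  have mar : ∀ l ≤ d.L + 1, ∀ k < 3 * d.T, 10 * (16 * δ) < t l k ∧ t l k + 10 * (16 * δ) < 16 := by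
    intro l hl k hk
    rcases Nat.eq_zero_or_pos l with h0 | h0
    · subst h0
      rw [ht0]
      have := hms k hk
      constructor <;> linarith
    · obtain ⟨i, rfl⟩ : ∃ i, l = i + 1 := ⟨l - 1, by omega⟩
      rw [htl i (by omega) k hk]
      have e1 := hml _ (tr_lt h i (by omega) k hk)
      have e2 := hstep (i + 1) hl
      have e3 := hstep0 (i + 1)
      constructor <;> linarith
  have hbnd : ∀ l k, 0 < t l k ∧ t l k < 16 := by
    intro l k
    by_cases h0 : l = 0
    · subst h0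
      rw [ht0]
      have := hs k
      constructor <;> linarith
    · by_cases h4 : l ≤ d.L + 1 ∧ k < 3 * d.T
      · have := mar l h4.1 k h4.2
        constructor <;> linarith
      · rw [ht]
        unfold tV
        rw [if_neg h0, if_neg h4]
        norm_num
  have hN : d.dia.N = 3 * d.T := rfl
  have hC : d.dia.C = d.L + 2 := rfl
  have hhb : ∀ l b, d.dia.hb l b ≤ b := fun l b => Dia.hb_le (dia_ok h) l b
  have hD : (0 : ℝ) < 16 * δ := by positivity
  -- the geometry and the membership of all cells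
  have key : ∀ l < d.L + 2, ∀ b < 3 * d.T,
      GeoOK (gadOf (d.gk l b)) (cfg (gadOf (d.gk l b)) (fun i => t l (d.dia.hb l b + i))
        (fun i => t (l + 1) (b + i)) (d.oV s δ l b)) ∧
      (∀ i w, (gadOf (d.gk l b)).1[i]? = some w →
        (w.2.2.1 = 0 ∧ 0 < d.oV s δ l b i ∧ d.oV s δ l b i < 16) ∨
        (w.2.2.1 = 1 ∧ d.oV s δ l b i = 8) ∨
        (w.2.2.1 = 2 ∧ l ≠ 0 ∧ (w.1 : ℝ) < d.oV s δ l b i ∧ d.oV s δ l b i < (w.1 : ℝ) + 3)) := by
    intro l hl b hb
    have hoV : d.oV s δ l b = oVal (16 * δ) (fun i => t l (d.dia.hb l b + i)) (d.gk l b) := rfl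
    rw [hoV]
    have no2 : ∀ {g : Gadget} {o : ℕ → ℝ}, MemOff g o →
        (∀ (i : ℕ) (w : Row), g.1[i]? = some w → w.2.2.1 ≠ 2) →
        ∀ (i : ℕ) (w : Row), g.1[i]? = some w → (w.2.2.1 = 0 ∧ 0 < o i ∧ o i < 16) ∨
          (w.2.2.1 = 1 ∧ o i = 8) ∨
          (w.2.2.1 = 2 ∧ l ≠ 0 ∧ (w.1 : ℝ) < o i ∧ o i < (w.1 : ℝ) + 3) := by
      intro g o hmo hne i w hw
      rcases hmo i w hw with h5 | h5 | h5
      · exact Or.inl h5
      · exact Or.inr (Or.inl h5)
      · exact (hne i w hw h5.1).elim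
    have nz : ∀ {g : Gadget} {o : ℕ → ℝ}, MemOff g o → l ≠ 0 →
        ∀ (i : ℕ) (w : Row), g.1[i]? = some w → (w.2.2.1 = 0 ∧ 0 < o i ∧ o i < 16) ∨
          (w.2.2.1 = 1 ∧ o i = 8) ∨
          (w.2.2.1 = 2 ∧ l ≠ 0 ∧ (w.1 : ℝ) < o i ∧ o i < (w.1 : ℝ) + 3) := by
      intro g o hmo hne i w hw
      rcases hmo i w hw with h5 | h5 | h5
      · exact Or.inl h5
      · exact Or.inr (Or.inl h5)
      · exact Or.inr (Or.inr ⟨h5.1, hne, h5.2⟩)
    rcases col_cases hl with rfl | ⟨i, hi, rfl⟩ | rfl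
    · have hgb : d.grp b < 3 * d.T := lt_of_le_of_lt (h.g1 b) hb
      have e2 : d.dia.hb 0 b = d.grp b := rfl
      rw [gk_zero, e2]
      have mm := mar 0 (by omega) _ hgb
      have ev : t 1 b = 16 * (d.lit s b + 10 * δ) := by
        have := htl 0 (by omega) b hb
        simpa [tr] using this
      split_ifs with hsg
      · have hl0 : d.lit s b = s (d.grp b) := by unfold lit; rw [if_pos hsg]
        refine ⟨gv0 hD mm ?_, no2 (mo0 hD mm) ?_⟩
        · simp only [add_zero, zero_add]
          rw [ev, hl0, ht0]; ring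
        · intro i w hw h2
          have hw' : plainG.1[i]? = some w := hw
          have hi : i < 3 := (List.getElem?_eq_some_iff.1 hw').1
          interval_cases i <;> (simp [plainG] at hw'; subst hw'; simp at h2)
      · have hl0 : d.lit s b = 1 - s (d.grp b) := by unfold lit; rw [if_neg hsg]
        refine ⟨gv1 hD mm ?_, no2 mo1 ?_⟩
        · simp only [add_zero, zero_add]
          rw [ev, hl0, ht0]; ring
        · intro i w hw h2
          have hw' : negG.1[i]? = some w := hw
          have hi : i < 1 := (List.getElem?_eq_some_iff.1 hw').1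
          interval_cases i <;> (simp [negG] at hw'; subst hw'; simp at h2)
    · have e2 : d.dia.hb (i + 1) b = b := Dia.hb_pos (by omega) b
      have hJ := h.hJ i hi
      rw [gk_layer hi, e2]
      have ev : ∀ k < 3 * d.T, t (i + 1 + 1) k = t (i + 1) (sw (d.J i) k) + 10 * (16 * δ) := by
        intro k hk
        rw [htl (i + 1) (by omega) k hk, htl i (by omega) _ (sw_lt hJ hk)]
        simp only [tr]
        push_cast
        ring
      by_cases hb1 : b = d.J i
      · rw [if_pos hb1]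
        have mm0 := mar (i + 1) (by omega) b hb
        have mm1 := mar (i + 1) (by omega) (b + 1) (by omega)
        refine ⟨gv2 hD mm0 mm1 ?_ ?_, nz (mo2 hD mm0 mm1) (by omega)⟩
        · simp only [add_zero]
          rw [ev b hb]
          unfold sw
          rw [if_pos hb1, hb1]
        · simp only [add_zero]
          rw [ev (b + 1) (by omega)]
          unfold sw
          rw [if_neg (by omega), if_pos (by omega), hb1]
      · rw [if_neg hb1]
        by_cases hb2 : b = d.J i + 1
        · rw [if_pos hb2]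
          refine ⟨empty_geo _, fun i w hw => ?_⟩
          simp [gadOf, emptyG] at hw
        · rw [if_neg hb2]
          have mm0 := mar (i + 1) (by omega) b hb
          refine ⟨gv0 hD mm0 ?_, nz (mo0 hD mm0) (by omega)⟩
          simp only [add_zero]
          rw [ev b hb]
          unfold sw
          rw [if_neg hb1, if_neg hb2]
    · have e2 : d.dia.hb (d.L + 1) b = b := Dia.hb_pos (by omega) b
      rw [gk_last, e2]
      by_cases hb3 : b % 3 = 0
      · rw [if_pos hb3]
        obtain ⟨τ, rfl⟩ : ∃ τ, b = 3 * τ := ⟨b / 3, by omega⟩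
        have hτ : τ < d.T := by omega
        have e3 : 3 * τ / 3 = τ := by omega
        rw [e3]
        have mm0 := mar (d.L + 1) le_rfl (3 * τ) hb
        have mm1 := mar (d.L + 1) le_rfl (3 * τ + 1) (by omega)
        have mm2 := mar (d.L + 1) le_rfl (3 * τ + 2) (by omega)
        have v0 := htl d.L le_rfl (3 * τ) hb
        have v1 := htl d.L le_rfl (3 * τ + 1) (by omega)
        have v2 := htl d.L le_rfl (3 * τ + 2) (by omega)
        have e4 := hstep (d.L + 1) le_rfl
        have e5 := hstep0 (d.L + 1)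
        have hmt' := hmt τ hτ
        split_ifs with hk
        · rw [if_pos hk] at hmt'
          have hmd := hmid τ hτ hk
          set a' := d.lit s (d.tr d.L (3 * τ + 1)) with ha'
          set b' := d.lit s (d.tr d.L (3 * τ)) with hb'
          set c' := d.lit s (d.tr d.L (3 * τ + 2)) with hc'
          set E := δ * ((d.L + 1 : ℕ) : ℝ) with hE
          have la := hlit (d.tr d.L (3 * τ + 1))
          rw [← ha'] at la
          have v0' : t (d.L + 1) (3 * τ) = 16 * b' + 160 * E := by rw [v0, hE]; ring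
          have v1' : t (d.L + 1) (3 * τ + 1) = 16 * a' + 160 * E := by rw [v1, hE]; ring
          have v2' : t (d.L + 1) (3 * τ + 2) = 16 * c' + 160 * E := by rw [v2, hE]; ring
          have hs' : 1 / 3 < (t (d.L + 1) (3 * τ + 0) + 3 * (16 * δ)) / 16 ∧
              (t (d.L + 1) (3 * τ + 0) + 3 * (16 * δ)) / 16 < 2 / 3 := by
            rw [add_zero, v0']
            constructor <;> linarith [hmd.1, hmd.2]
          refine ⟨gv4 hD mm0 mm1 mm2 hs' ?_, nz (mo4 hD mm0 mm1 mm2 hs') (by omega)⟩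
          simp only [add_zero]
          rw [v0', v1', v2']
          have y0 : 0 ≤ 10 * E + 3 * δ := by linarith
          have k1 : (1 + a' + (10 * E + 2 * δ)) * (b' + (10 * E + 3 * δ)) ≤
              (1 + a') * b' + 4 * (10 * E + 3 * δ) := by
            have w1 : (10 * E + 2 * δ) * b' ≤ (10 * E + 3 * δ) * 1 :=
              mul_le_mul (by linarith) (by linarith [hmd.2]) (by linarith [hmd.1]) y0
            have w2 : (10 * E + 2 * δ) * (10 * E + 3 * δ) ≤ 1 * (10 * E + 3 * δ) :=
              mul_le_mul_of_nonneg_right (by linarith) y0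
            have w3 : a' * (10 * E + 3 * δ) ≤ 1 * (10 * E + 3 * δ) :=
              mul_le_mul_of_nonneg_right la.2.le y0
            linarith
          have k2 : (16 + (16 * a' + 160 * E) + 2 * (16 * δ)) *
              ((16 * b' + 160 * E + 3 * (16 * δ)) / 16) =
              16 * ((1 + a' + (10 * E + 2 * δ)) * (b' + (10 * E + 3 * δ))) := by ring
          rw [k2]
          linarith
        · rw [if_neg hk] at hmt'
          refine ⟨gv3 hD mm0 mm1 mm2 ?_, nz (mo3 hD mm1 mm2) (by omega)⟩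
          simp only [add_zero]
          rw [v0, v1, v2]
          linarith
      · rw [if_neg hb3]
        refine ⟨empty_geo _, fun i w hw => ?_⟩
        simp [gadOf, emptyG] at hw
  have hGood : Dia.Good d.dia t (d.oV s δ) :=
    ⟨hbnd, fun l hl b hb => (key l hl b hb).1, fun b _ => sec_all b _ _ _⟩
  exact ⟨t, d.oV s δ, hGood, ht0, fun l hl b hb => (key l hl b hb).2⟩

end Pool.Agent.H38SD
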