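import Pool.Agent.K4H90.Seg.Defs

/-!
# Drawing a planar graph with its vertices on given segments, the embedding not being fixed

Definitions of the decision problem: a graph, a line segment with rational end points for every
vertex, and a list of obstacles.  No embedding of the graph is prescribed.
-/

namespace Pool.Agent.H38SD

open Pool.Agent.NPC Pool.Agent.K4H90.SegDraw

/-- An instance of the problem. -/
structure FInst where
  /-- the vertices: names, and for every vertex its segment -/
  verts : List (ℕ × Seg)
  /-- the edges: pairs of names of vertices -/
  edges : List (ℕ × ℕ)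
  /-- the obstacles -/
  obstacles : List Seg

instance : TEnc FInst := ⟨fun s => toT (s.verts, s.edges, s.obstacles), fun s t h => by
  have h1 := TEnc.inj h
  cases s; cases t
  simp only [Prod.mk.injEq] at h1
  simp [h1]⟩

namespace FInst

/-- The names of the vertices. -/
def names (I : FInst) : List ℕ := I.verts.map (fun e => e.1)

/-- `u` and `v` are the end vertices of an edge. -/
def Adj (I : FInst) (u v : ℕ) : Prop := (u, v) ∈ I.edges ∨ (v, u) ∈ I.edges

/-- The lists describe a finite simple graph: different vertices have different names, and every edge
joins two different vertices of the graph. -/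
structure Graph (I : FInst) : Prop where
  nodup : I.names.Nodup
  mem : ∀ u v, I.Adj u v → u ∈ I.names ∧ v ∈ I.names
  loopless : ∀ u, ¬ I.Adj u u

/-- `D` is a crossing-free straight-line drawing of the graph: the vertices are at different points,
an edge contains no vertex except its end vertices, and two different edges have no point in common
except the position of a common end vertex. -/
structure IsDrawing (I : FInst) (D : ℕ → ℝ × ℝ) : Prop where
  inj : ∀ u ∈ I.names, ∀ v ∈ I.names, D u = D v → u = v
  free : ∀ u v, I.Adj u v → ∀ w ∈ I.names, D w ∈ segment ℝ (D u) (D v) → w = u ∨ w = v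
  plane : ∀ u v u' v', I.Adj u v → I.Adj u' v' → s(u, v) ≠ s(u', v') →
    ∀ p ∈ segment ℝ (D u) (D v), p ∈ segment ℝ (D u') (D v') →
      ∃ w, w ∈ s(u, v) ∧ w ∈ s(u', v') ∧ p = D w

/-- The graph is planar: it has a crossing-free straight-line drawing. -/
def Planar (I : FInst) : Prop := I.Graph ∧ ∃ D, I.IsDrawing D

/-- The graph has a crossing-free straight-line drawing, of any embedding, that has every vertex on
its segment, and in which no edge meets an obstacle. -/
def Solvable (I : FInst) : Prop :=
  ∃ D, I.IsDrawing D ∧ (∀ e ∈ I.verts, D e.1 ∈ e.2.pts) ∧
    ∀ u v, I.Adj u v → ∀ s ∈ I.obstacles, ∀ p ∈ segment ℝ (D u) (D v), p ∉ s.pts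

end FInst

end Pool.Agent.H38SD
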