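import Pool.Agent.H38SD.Inst

/-!
# Drawings of the instances
-/

namespace Pool.Agent.H38SD

open Pool.Agent.K4H90.SegDraw

variable (d : Dat)

/-- The positions of all vertices. -/
noncomputable def posX (t : ℕ → ℕ → ℝ) (o : ℕ → ℕ → ℕ → ℝ) (n : ℕ) : ℝ × ℝ :=
  if 102 ≤ n.unpair.1 then
    d.dia.plc n.unpair.2.unpair.1 n.unpair.2.unpair.2
      ((xlo (gadOf (d.gk n.unpair.2.unpair.1 n.unpair.2.unpair.2)) (2, n.unpair.1 - 102) : ℝ),
        (yF (d.gk n.unpair.2.unpair.1 n.unpair.2.unpair.2) (n.unpair.1 - 102) : ℝ))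
  else d.dia.pos t o n

/-- The local positions. -/
noncomputable def QX (t : ℕ → ℕ → ℝ) (o : ℕ → ℕ → ℕ → ℝ) (l b : ℕ) (r : Ref) : ℝ × ℝ :=
  cfgX (gadOf (d.gk l b)) (fun i => t l (d.dia.hb l b + i)) (fun i => t (l + 1) (b + i)) (o l b)
    (fun i => (yF (d.gk l b) i : ℝ)) r

/-- The conditions on the offsets. -/
structure GoodX (t : ℕ → ℕ → ℝ) (o : ℕ → ℕ → ℕ → ℝ) : Prop where
  good : Dia.Good d.dia t o
  off : ∀ l < d.dia.C, ∀ b < d.dia.N, OffOK (gadOf (d.gk l b)) (o l b)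
  o11 : ∀ l < d.dia.C, ∀ b < d.dia.N, d.gk l b = 4 → o l b 11 = 8

variable {d} {t : ℕ → ℕ → ℝ} {o : ℕ → ℕ → ℕ → ℝ}

theorem posX_far (l b i : ℕ) : posX d t o (nm (102 + i) l b) =
    d.dia.plc l b ((xlo (gadOf (d.gk l b)) (2, i) : ℝ), (yF (d.gk l b) i : ℝ)) := by
  unfold posX nm
  simp

theorem posX_lt {c l b : ℕ} (hc : c < 102) : posX d t o (nm c l b) = d.dia.pos t o (nm c l b) := by
  unfold posX
  rw [if_neg]
  unfold nm
  rw [Nat.unpair_pair]
  simp only
  omega

theorem posX_old {u : ℕ} (hu : u ∈ (d.dia.inst true).names) : posX d t o u = d.dia.pos t o u := by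
  rcases Dia.mem_names.1 hu with rfl | ⟨l, hl, k, hk, h0, rfl⟩ | ⟨l, hl, b, hb, i, hi, rfl⟩
  · exact posX_lt (by norm_num)
  · exact posX_lt (by norm_num)
  · refine posX_lt ?_
    have := len_lt (d.gk l b)
    have hi' : i < (gadOf (d.gk l b)).1.length := hi
    omega

theorem posX_resX (h : d.OK) {l b : ℕ} (hl : l < d.dia.C) (hb : b < d.dia.N) {r : Ref}
    (hr : XR (d.gk l b) r) : posX d t o (resX d l b r) = d.dia.plc l b (QX d t o l b r) := by
  rcases hr with hr | ⟨h3, m, hm, hmr⟩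
  · rw [resX_old (ref_ne3 hr), posX_old (Dia.res_mem_names (Dat.dia_ok h) hl hb hr),
      Dia.pos_res t o hr]
    unfold QX
    rw [cfgX_old _ _ _ _ (ref_ne3 hr)]
    rfl
  · obtain ⟨a, i⟩ := r
    simp only at h3 hmr
    subst h3 hmr
    rw [resX_new, posX_far]
    unfold QX cfgX
    rw [if_pos rfl]

theorem ht_bar {k : ℕ} {m : ℕ × Bool} (hm : m ∈ bars k) : 1 ≤ ht (gadOf k) := by
  have := (bars_ok k m hm).2.2.2.2.2.1
  omega

theorem gk0_le (b : ℕ) : d.gk 0 b ≤ 1 := by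
  rw [Dat.gk_zero]
  split_ifs <;> omega

/-- The new vertices are in the regions of the cells. -/
theorem hull_far (h : d.OK) (hG : GoodX d t o) {l b : ℕ} (hl : l < d.dia.C) (hb : b < d.dia.N)
    {m : ℕ × Bool} (hm : m ∈ bars (d.gk l b)) :
    Dia.Hull d.dia t l b (posX d t o (nm (102 + m.1) l b)) := by
  have hok := Dat.dia_ok h
  rw [posX_far]
  obtain ⟨-, -, b3, -, b5, b6, b7⟩ := bars_ok _ m hm
  have b3' : (0 : ℝ) < xlo (gadOf (d.gk l b)) (2, m.1) := by exact_mod_cast b3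
  have b5' : (xlo (gadOf (d.gk l b)) (2, m.1) : ℝ) < 12 := by exact_mod_cast b5
  have b6' : (yF (d.gk l b) m.1 : ℝ) + 176 ≤ 192 * (ht (gadOf (d.gk l b)) : ℝ) := by
    exact_mod_cast b6
  have b0 : (0 : ℝ) ≤ (yF (d.gk l b) m.1 : ℝ) := Nat.cast_nonneg _
  have hhb : (d.dia.hb l b : ℝ) ≤ (b : ℝ) := by exact_mod_cast Dia.hb_le hok l b
  have hgad : d.dia.gad l b = gadOf (d.gk l b) := rfl
  set X : ℝ := (xlo (gadOf (d.gk l b)) (2, m.1) : ℝ) with hX
  set Y : ℝ := (yF (d.gk l b) m.1 : ℝ) with hY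
  by_cases hl0 : l = 0
  · subst hl0
    have hc0 := hok.c0 b hb
    have hht : ht (d.dia.gad 0 b) = 1 := by unfold ht; rw [hc0.1, hc0.2]; rfl
    have hht' : (ht (d.dia.gad 0 b) : ℝ) = 1 := by rw [hht]; norm_num
    rw [← hgad, hht'] at b6'
    have b7' : (3 : ℝ) ≤ X := by rw [hX]; exact_mod_cast b7 (gk0_le b)
    have ht0 := hG.good.ht 0 (d.dia.hb 0 b)
    have hs1 : 0 ≤ ((b : ℝ) - (d.dia.hb 0 b : ℝ)) * X := mul_nonneg (by linarith) (by linarith)
    have hs2 : ((b : ℝ) - (d.dia.hb 0 b : ℝ)) * X ≤ ((b : ℝ) - (d.dia.hb 0 b : ℝ)) * 12 :=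
      mul_le_mul_of_nonneg_left b5'.le (by linarith)
    unfold Dia.Hull Dia.plc pl
    simp only
    rw [hht']
    push_cast
    refine ⟨by linarith, by linarith, by linarith, by linarith, fun _ => by linarith,
      fun _ => by linarith⟩
  · have e0 : d.dia.hb l b = b := Dia.hb_pos hl0 b
    unfold Dia.Hull Dia.plc pl
    simp only
    rw [e0, sub_self, hgad]
    refine ⟨by linarith, by linarith, by linarith, by linarith, fun h0 => (hl0 h0).elim,
      fun h0 => (hl0 h0).elim⟩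

theorem hullX (h : d.OK) (hG : GoodX d t o) {l b : ℕ} (hl : l < d.dia.C) (hb : b < d.dia.N)
    {r : Ref} (hr : XR (d.gk l b) r) : Dia.Hull d.dia t l b (posX d t o (resX d l b r)) := by
  rcases hr with hr | ⟨h3, m, hm, hmr⟩
  · rw [resX_old (ref_ne3 hr), posX_old (Dia.res_mem_names (Dat.dia_ok h) hl hb hr)]
    exact Dia.hull_res (Dat.dia_ok h) hG.good hl hb hr
  · obtain ⟨a, i⟩ := r
    simp only at h3 hmr
    subst h3 hmr
    rw [resX_new]
    exact hull_far h hG hl hb hm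

theorem XR_ne {k : ℕ} {r : Ref} (hr : XR k r) : gadOf k ≠ emptyG := by
  rcases hr with hr | ⟨-, m, hm, -⟩
  · exact Dia.ne_empty_of_ref hr
  · exact Dia.ne_empty_of_ref (ref2 (bars_ok k m hm).1)

/-- A point strictly inside a column is in the region of at most one cell. -/
theorem cell_unique (h : d.OK) {l b l' b' : ℕ} (hl : l < d.dia.C)
    (hb : b < d.dia.N) (hb' : b' < d.dia.N) {p : ℝ × ℝ}
    (hp : Dia.Hull d.dia t l b p) (hp' : Dia.Hull d.dia t l' b' p) (h1 : 12 * (l : ℝ) < p.1)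
    (h2 : p.1 < 12 * (l : ℝ) + 12) (hne : gadOf (d.gk l b) ≠ emptyG)
    (hne' : gadOf (d.gk l' b') ≠ emptyG) : l = l' ∧ b = b' := by
  have hok := Dat.dia_ok h
  have hll : l = l' := by
    rcases lt_trichotomy l l' with h3 | h3 | h3
    · have : (l : ℝ) + 1 ≤ (l' : ℝ) := by exact_mod_cast h3
      linarith [hp'.1]
    · exact h3
    · have : (l' : ℝ) + 1 ≤ (l : ℝ) := by exact_mod_cast h3
      linarith [hp'.2.1]
  subst hll
  refine ⟨rfl, ?_⟩
  have hpos : (0 : ℝ) ≤ (l : ℝ) := Nat.cast_nonneg _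
  rcases lt_trichotomy b b' with h3 | h3 | h3
  · obtain ⟨-, -, h4⟩ := Dia.hull_sep hok hl h3 hb' hne' hp hp'
    linarith
  · exact h3
  · obtain ⟨-, -, h4⟩ := Dia.hull_sep hok hl h3 hb hne hp' hp
    linarith

theorem vert_x (h : d.OK) {l b : ℕ} (hl : l < d.dia.C) (hb : b < d.dia.N)
    {a : Ref × Ref} (ha : a ∈ vT (d.gk l b)) :
    (posX d t o (resX d l b a.1)).1 = (posX d t o (resX d l b a.2)).1 ∧
    12 * (l : ℝ) < (posX d t o (resX d l b a.1)).1 ∧
    (posX d t o (resX d l b a.1)).1 < 12 * (l : ℝ) + 12 := by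
  rw [posX_resX h hl hb (vT_XR ha).1, posX_resX h hl hb (vT_XR ha).2]
  obtain ⟨x1, x2, x3, x4, -⟩ := vT_x (lo := fun i => t l (d.dia.hb l b + i))
    (ro := fun i => t (l + 1) (b + i)) (o := o l b) (z := fun i => (yF (d.gk l b) i : ℝ)) ha
  have x3' : (0 : ℝ) < xlo (gadOf (d.gk l b)) a.1 := by exact_mod_cast x3
  have x4' : (xlo (gadOf (d.gk l b)) a.1 : ℝ) < 12 := by exact_mod_cast x4
  unfold Dia.plc pl QX
  simp only
  rw [x1, x2]
  refine ⟨rfl, by linarith, by linarith⟩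

/-- The points of a vertical edge. -/
theorem vert_pt (h : d.OK) (hG : GoodX d t o) {l b : ℕ} (hl : l < d.dia.C) (hb : b < d.dia.N)
    {a : Ref × Ref} (ha : a ∈ vT (d.gk l b)) {p : ℝ × ℝ}
    (hp : p ∈ segment ℝ (posX d t o (resX d l b a.1)) (posX d t o (resX d l b a.2))) :
    Dia.Hull d.dia t l b p ∧ 12 * (l : ℝ) < p.1 ∧ p.1 < 12 * (l : ℝ) + 12 := by
  obtain ⟨h1, h2, h3⟩ := vert_x (t := t) (o := o) h hl hb ha
  have k := seg_x h1.le hp
  refine ⟨Dia.hull_seg (hullX h hG hl hb (vT_XR ha).1) (hullX h hG hl hb (vT_XR ha).2) hp, ?_, ?_⟩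
  · linarith [k.1]
  · linarith [k.2]

/-- A vertical edge and an old edge have only common end points. -/
theorem nc_VE (h : d.OK) (hG : GoodX d t o) {l b : ℕ} (hl : l < d.dia.C) (hb : b < d.dia.N)
    {a : Ref × Ref} (ha : a ∈ vT (d.gk l b)) {u v : ℕ} (he : d.dia.E u v) :
    NC (posX d t o (resX d l b a.1)) (posX d t o (resX d l b a.2)) (posX d t o u)
      (posX d t o v) := by
  have hok := Dat.dia_ok h
  have hn := Dia.E_mem_names hok (cl := true) he
  have hlt := Dia.E_lt hok hG.good he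
  rw [← posX_old (t := t) (o := o) hn.1, ← posX_old (t := t) (o := o) hn.2] at hlt
  rcases he with ⟨rfl, k, hk, hg, rfl⟩ | ⟨l', hl', b', hb', s, r, hs, hr, rfl, rfl⟩
  · intro p hp hp'
    exfalso
    have h1 := (vert_pt h hG hl hb ha hp).2.1
    have h2 := (seg_x hlt.le hp').2
    rw [posX_old hn.2, Dia.pos_T] at h2
    simp only [Nat.cast_zero, mul_zero] at h2
    have : (0 : ℝ) ≤ (l : ℝ) := Nat.cast_nonneg _
    linarith
  · have hs' : s ∈ refs (gadOf (d.gk l' b')) := hs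
    have hr' : r ∈ rl (gadOf (d.gk l' b')) s := hr
    have hr0 : r ∈ refs (gadOf (d.gk l' b')) := ((gadOf_ok _).1 _ hs' _ hr').1
    have e1 : d.dia.res l' b' s = resX d l' b' s := (resX_old (ref_ne3 hs')).symm
    have e2 : d.dia.res l' b' r = resX d l' b' r := (resX_old (ref_ne3 hr0)).symm
    rw [e1, e2]
    by_cases hc : l = l' ∧ b = b'
    · obtain ⟨rfl, rfl⟩ := hc
      rw [posX_resX h hl hb (vT_XR ha).1, posX_resX h hl hb (vT_XR ha).2,
        posX_resX h hl hb (Or.inl hs'), posX_resX h hl hb (Or.inl hr0)]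
      exact (loc_nc (hG.good.geo l hl b hb) (hG.off l hl b hb) (hG.o11 l hl b hb) ha
        (mem_edgesOf.2 ⟨hs', hr'⟩ : (s, r) ∈ edgesOf (gadOf (d.gk l b)))).pl
    · intro p hp hp'
      exfalso
      obtain ⟨k1, k2, k3⟩ := vert_pt h hG hl hb ha hp
      have k4 := Dia.hull_seg (hullX h hG hl' hb' (Or.inl hs')) (hullX h hG hl' hb' (Or.inl hr0)) hp'
      exact hc (cell_unique h hl hb hb' k1 k4 k2 k3 (XR_ne (vT_XR ha).1)
        (Dia.ne_empty_of_ref hs'))

theorem nc_VV (h : d.OK) (hG : GoodX d t o) {l b : ℕ} (hl : l < d.dia.C) (hb : b < d.dia.N)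
    {a : Ref × Ref} (ha : a ∈ vT (d.gk l b)) {l' b' : ℕ} (hl' : l' < d.dia.C) (hb' : b' < d.dia.N)
    {a' : Ref × Ref} (ha' : a' ∈ vT (d.gk l' b')) :
    (l = l' ∧ b = b' ∧ a = a') ∨
    NC (posX d t o (resX d l b a.1)) (posX d t o (resX d l b a.2))
      (posX d t o (resX d l' b' a'.1)) (posX d t o (resX d l' b' a'.2)) := by
  by_cases hc : l = l' ∧ b = b'
  · obtain ⟨rfl, rfl⟩ := hc
    rw [posX_resX h hl hb (vT_XR ha).1, posX_resX h hl hb (vT_XR ha).2,
      posX_resX h hl hb (vT_XR ha').1, posX_resX h hl hb (vT_XR ha').2]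
    rcases loc_nc2 (hG.good.geo l hl b hb) (hG.off l hl b hb) (hG.o11 l hl b hb) ha ha' with h1 | h1
    · exact Or.inl ⟨rfl, rfl, h1⟩
    · exact Or.inr h1.pl
  · right
    intro p hp hp'
    exfalso
    obtain ⟨k1, k2, k3⟩ := vert_pt h hG hl hb ha hp
    obtain ⟨k4, -, -⟩ := vert_pt h hG hl' hb' ha' hp'
    exact hc (cell_unique h hl hb hb' k1 k4 k2 k3 (XR_ne (vT_XR ha).1) (XR_ne (vT_XR ha').1))

theorem EX_nc (h : d.OK) (hG : GoodX d t o) {u v u' v' : ℕ} (he : EX d u v) (hf : EX d u' v') :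
    (u = u' ∧ v = v') ∨ NC (posX d t o u) (posX d t o v) (posX d t o u') (posX d t o v') := by
  have hok := Dat.dia_ok h
  rcases he with he | ⟨l, hl, b, hb, a, ha, rfl, rfl⟩
  · rcases hf with hf | ⟨l', hl', b', hb', a', ha', rfl, rfl⟩
    · have h1 := Dia.E_mem_names hok (cl := true) he
      have h2 := Dia.E_mem_names hok (cl := true) hf
      rw [posX_old h1.1, posX_old h1.2, posX_old h2.1, posX_old h2.2]
      exact Dia.E_nc hok hG.good he hf
    · exact Or.inr (nc_VE h hG hl' hb' ha' he).symm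
  · rcases hf with hf | ⟨l', hl', b', hb', a', ha', rfl, rfl⟩
    · exact Or.inr (nc_VE h hG hl hb ha hf)
    · rcases nc_VV h hG hl hb ha hl' hb' ha' with ⟨rfl, rfl, rfl⟩ | h1
      · exact Or.inl ⟨rfl, rfl⟩
      · exact Or.inr h1

theorem far_x {l b : ℕ} {m : ℕ × Bool} (hm : m ∈ bars (d.gk l b)) :
    12 * (l : ℝ) < (posX d t o (nm (102 + m.1) l b)).1 ∧
    (posX d t o (nm (102 + m.1) l b)).1 < 12 * (l : ℝ) + 12 := by
  rw [posX_far]
  obtain ⟨-, -, b3, -, b5, -, -⟩ := bars_ok _ m hm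
  have b3' : (0 : ℝ) < xlo (gadOf (d.gk l b)) (2, m.1) := by exact_mod_cast b3
  have b5' : (xlo (gadOf (d.gk l b)) (2, m.1) : ℝ) < 12 := by exact_mod_cast b5
  unfold Dia.plc pl
  simp only
  constructor <;> linarith

theorem inj_far (h : d.OK) (hG : GoodX d t o) {u v : ℕ} (hu : FN d u)
    (hv : v ∈ (d.dia.inst true).names) : posX d t o u ≠ posX d t o v := by
  intro he
  obtain ⟨l, hl, b, hb, m, hm, rfl⟩ := hu
  obtain ⟨x1, x2⟩ := far_x (t := t) (o := o) hm
  have hH := hull_far h hG hl hb hm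
  have hpos : (0 : ℝ) ≤ (l : ℝ) := Nat.cast_nonneg _
  rcases Dia.mem_names.1 hv with rfl | ⟨l', hl', k, hk, h0, rfl⟩ | ⟨l', hl', b', hb', i, hi, rfl⟩
  · rw [he, posX_old hv, Dia.pos_root] at x1
    simp only at x1
    linarith
  · rw [he, posX_old hv, Dia.pos_T] at x1 x2
    simp only at x1 x2
    rcases Nat.lt_or_ge l l' with h1 | h1
    · have : (l : ℝ) + 1 ≤ (l' : ℝ) := by exact_mod_cast h1
      linarith
    · have : (l' : ℝ) ≤ (l : ℝ) := by exact_mod_cast h1
      linarith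
  · have hi' : i < (gadOf (d.gk l' b')).1.length := hi
    have hr : XR (d.gk l' b') (2, i) := Or.inl (ref2 hi')
    have e1 : nm (2 + i) l' b' = resX d l' b' (2, i) := by
      rw [resX_old (by simp), Dia.res_in]
    rw [e1] at he
    have hH' := hullX h hG hl' hb' hr
    rw [← he] at hH'
    obtain ⟨rfl, rfl⟩ := cell_unique h hl hb hb' hH hH' x1 x2
      (XR_ne (Or.inr ⟨rfl, m, hm, rfl⟩ : XR (d.gk l b) (3, m.1))) (XR_ne hr)
    rw [← resX_new, posX_resX h hl hb (Or.inr ⟨rfl, m, hm, rfl⟩ : XR (d.gk l b) (3, m.1)),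
      posX_resX h hl hb hr] at he
    exact loc_inj (hG.off l hl b hb) hm hi' (pl_inj he)

theorem injX (h : d.OK) (hG : GoodX d t o) {lb : ℕ → ℕ} : ∀ u ∈ (finst d lb).names,
    ∀ v ∈ (finst d lb).names, posX d t o u = posX d t o v → u = v := by
  intro u hu v hv he
  rcases mem_namesX.1 hu with hu | hu
  · rcases mem_namesX.1 hv with hv | hv
    · rw [posX_old hu, posX_old hv] at he
      exact Dia.pos_inj (Dat.dia_ok h) hG.good u hu v hv he
    · exact (inj_far h hG hv hu he.symm).elim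
  · rcases mem_namesX.1 hv with hv | hv
    · exact (inj_far h hG hu hv he).elim
    · obtain ⟨l, hl, b, hb, m, hm, rfl⟩ := hu
      obtain ⟨l', hl', b', hb', m', hm', rfl⟩ := hv
      obtain ⟨x1, x2⟩ := far_x (t := t) (o := o) hm
      have hH := hull_far h hG hl hb hm
      have hH' := hull_far h hG hl' hb' hm'
      rw [← he] at hH'
      obtain ⟨rfl, rfl⟩ := cell_unique h hl hb hb' hH hH' x1 x2
        (XR_ne (Or.inr ⟨rfl, m, hm, rfl⟩ : XR (d.gk l b) (3, m.1)))
        (XR_ne (Or.inr ⟨rfl, m', hm', rfl⟩ : XR (d.gk l' b') (3, m'.1)))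
      rw [← resX_new, ← resX_new,
        posX_resX h hl hb (Or.inr ⟨rfl, m, hm, rfl⟩ : XR (d.gk l b) (3, m.1)),
        posX_resX h hl hb (Or.inr ⟨rfl, m', hm', rfl⟩ : XR (d.gk l b) (3, m'.1))] at he
      rw [loc_inj2 hm hm' (pl_inj he)]

/-- **The drawing of a good configuration.** -/
theorem isDrawingX (h : d.OK) (hG : GoodX d t o) (lb : ℕ → ℕ) :
    (finst d lb).IsDrawing (posX d t o) := by
  have hinj := injX h hG (lb := lb)
  have hplane : ∀ u v u' v', (finst d lb).Adj u v → (finst d lb).Adj u' v' →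
      s(u, v) ≠ s(u', v') → ∀ p ∈ segment ℝ (posX d t o u) (posX d t o v),
      p ∈ segment ℝ (posX d t o u') (posX d t o v') →
      ∃ w, w ∈ s(u, v) ∧ w ∈ s(u', v') ∧ p = posX d t o w := by
    intro u v u' v' huv huv' hne p hp hp'
    have main : ∀ u v u' v', EX d u v → EX d u' v' → s(u, v) ≠ s(u', v') →
        p ∈ segment ℝ (posX d t o u) (posX d t o v) →
        p ∈ segment ℝ (posX d t o u') (posX d t o v') →
        ∃ w, w ∈ s(u, v) ∧ w ∈ s(u', v') ∧ p = posX d t o w := by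
      intro u v u' v' he hf hne hp hp'
      rcases EX_nc h hG he hf with ⟨rfl, rfl⟩ | hnc
      · exact (hne rfl).elim
      · obtain ⟨h1, h2⟩ := hnc p hp hp'
        obtain ⟨n1, n2⟩ := EX_names h (lb := lb) he
        obtain ⟨n3, n4⟩ := EX_names h (lb := lb) hf
        rcases h1 with h1 | h1
        · refine ⟨u, by simp, ?_, h1⟩
          rcases h2 with h2 | h2
          · rw [hinj u n1 u' n3 (h1.symm.trans h2)]; simp
          · rw [hinj u n1 v' n4 (h1.symm.trans h2)]; simp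
        · refine ⟨v, by simp, ?_, h1⟩
          rcases h2 with h2 | h2
          · rw [hinj v n2 u' n3 (h1.symm.trans h2)]; simp
          · rw [hinj v n2 v' n4 (h1.symm.trans h2)]; simp
    rw [adj_iff h] at huv huv'
    rcases huv with h1 | h1
    · rcases huv' with h2 | h2
      · exact main u v u' v' h1 h2 hne hp hp'
      · rw [segment_symm] at hp'
        rw [Sym2.eq_swap (a := u')] at hne ⊢
        exact main u v v' u' h1 h2 hne hp hp'
    · rw [segment_symm] at hp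
      rw [Sym2.eq_swap (a := u)] at hne ⊢
      rcases huv' with h2 | h2
      · exact main v u u' v' h1 h2 hne hp hp'
      · rw [segment_symm] at hp'
        rw [Sym2.eq_swap (a := u')] at hne ⊢
        exact main v u v' u' h1 h2 hne hp hp'
  refine ⟨hinj, ?_, hplane⟩
  intro u v huv w hw hm
  by_contra hc
  rw [not_or] at hc
  obtain ⟨x, hx⟩ := exists_edge h hw
  have hx' : (finst d lb).Adj w x := (adj_iff h).2 hx
  have hne : s(u, v) ≠ s(w, x) := by
    intro he
    have : w ∈ s(u, v) := by rw [he]; simp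
    rw [Sym2.mem_iff] at this
    exact this.elim hc.1 hc.2
  obtain ⟨y, hy1, hy2, hy3⟩ := hplane u v w x huv hx' hne _ hm (left_mem_segment ℝ _ _)
  have hyn : y ∈ (finst d lb).names := by
    rw [adj_iff h] at huv
    rw [Sym2.mem_iff] at hy1
    rcases huv with huv | huv
    · have := EX_names h (lb := lb) huv
      rcases hy1 with rfl | rfl
      · exact this.1
      · exact this.2
    · have := EX_names h (lb := lb) huv
      rcases hy1 with rfl | rfl
      · exact this.2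
      · exact this.1
  have := hinj w hw y hyn hy3
  subst this
  rw [Sym2.mem_iff] at hy1
  exact hy1.elim hc.1 hc.2

/-- The reference configuration. -/
theorem goodX_ref : GoodX d (fun _ _ => 8) (fun l b => Dat.oRef (d.gk l b)) where
  good := Dat.good_ref
  off := by
    intro l _ b _
    generalize d.gk l b = k
    unfold gadOf Dat.oRef
    split_ifs with h0 h1 h2 h3 h4
    · exact Dat.off_plain (Dat.forall_lt_list [9, 8, 7] (by simp only [List.forall_mem_cons]; norm_num))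
    · exact Dat.off_neg (Dat.forall_lt_list [7] (by simp only [List.forall_mem_cons]; norm_num))
    · exact Dat.off_swap (Dat.forall_lt_list [9, 8, 7, 8, 7, 8, 9, 9, 8, 7, 7, 10, 9, 8, 7]
        (by simp only [List.forall_mem_cons]; norm_num))
    · exact Dat.off_lin (Dat.forall_lt_list [9, 8, 7, 8, 9, 9]
        (by simp only [List.forall_mem_cons]; norm_num))
    · refine Dat.off_prod ?_ ?_
      · intro i hi _
        exact Dat.forall_lt_list [9, 8, 5, 4, 9, 8, 5, 4, 9, 8, 8, 8, 8]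
          (by simp only [List.forall_mem_cons]; norm_num) i hi
      · norm_num [Dat.oL]
    · intro i w hw
      simp [emptyG] at hw
  o11 := by
    intro l _ b _ h4
    rw [h4]
    norm_num [Dat.oRef, Dat.oL]

theorem graphX (h : d.OK) (lb : ℕ → ℕ) : (finst d lb).Graph where
  nodup := names_nodupX
  mem := by
    intro u v huv
    rw [adj_iff h] at huv
    rcases huv with h1 | h1
    · exact EX_names h h1
    · exact (EX_names h h1).symm
  loopless := by
    intro u hu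
    rw [adj_iff h] at hu
    have key : ∀ u, ¬ EX d u u := by
      rintro u (hu | ⟨l, hl, b, hb, a, ha, h1, h2⟩)
      · exact lt_irrefl _ (Dia.E_lt (Dat.dia_ok h) (Dat.good_ref (d := d)) hu)
      · rw [h1] at h2
        rcases mem_vT.1 ha with ⟨m, hm, rfl⟩ | ⟨h4, rfl⟩
        · simp only at h2
          rw [resX_new, resX_old (by simp), Dia.res_in, nm_inj] at h2
          omega
        · simp only at h2
          rw [resX_old (by simp), resX_old (by simp), Dia.res_in, Dia.res_in, nm_inj] at h2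
          omega
    rcases hu with hu | hu <;> exact key u hu

theorem planarX (h : d.OK) (lb : ℕ → ℕ) : (finst d lb).Planar :=
  ⟨graphX h lb, _, isDrawingX h goodX_ref lb⟩

end Pool.Agent.H38SD
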