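import Pool.Agent.K4H90.Seg.Plane

/-!
# Vertical segments, guards and crossings
-/

namespace Pool.Agent.H38SD

open Pool.Agent.K4H90.SegDraw

/-- An edge and a vertical segment have no common point. -/
theorem disj_vert {A B : ℝ × ℝ} {x p p' : ℝ}
    (h : (B.2 * (x - A.1) + A.2 * (B.1 - x) < p * (B.1 - A.1) ∧
        B.2 * (x - A.1) + A.2 * (B.1 - x) < p' * (B.1 - A.1)) ∨
      (p * (B.1 - A.1) < B.2 * (x - A.1) + A.2 * (B.1 - x) ∧
        p' * (B.1 - A.1) < B.2 * (x - A.1) + A.2 * (B.1 - x))) :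
    Disj A B (x, p) (x, p') := by
  intro r hr hr'
  have e1 := seg_lin (α := 1) (β := 0) (γ := x) hr' (by simp) (by simp)
  have e2 := seg_lin (α := -1) (β := 0) (γ := -x) hr' (by simp) (by simp)
  have e3 : r.1 = x := by linarith
  have l1 := seg_line hr
  rw [e3] at l1
  have l2 : r.2 * (B.1 - A.1) = B.2 * (x - A.1) + A.2 * (B.1 - x) := by linarith
  rcases h with ⟨h1, h2⟩ | ⟨h1, h2⟩
  · have k := seg_lin (α := 0) (β := - (B.1 - A.1))
      (γ := - min (p * (B.1 - A.1)) (p' * (B.1 - A.1))) hr'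
      (by have := min_le_left (p * (B.1 - A.1)) (p' * (B.1 - A.1)); simp only; linarith)
      (by have := min_le_right (p * (B.1 - A.1)) (p' * (B.1 - A.1)); simp only; linarith)
    have k2 := lt_min h1 h2
    linarith
  · have k := seg_lin (α := 0) (β := (B.1 - A.1))
      (γ := max (p * (B.1 - A.1)) (p' * (B.1 - A.1))) hr'
      (by have := le_max_left (p * (B.1 - A.1)) (p' * (B.1 - A.1)); simp only; linarith)
      (by have := le_max_right (p * (B.1 - A.1)) (p' * (B.1 - A.1)); simp only; linarith)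
    have k2 := max_lt h1 h2
    linarith

/-- Two vertical segments with the same abscissa have no common point. -/
theorem disj_vv {x a a' b b' : ℝ} (h : (a < b ∧ a < b' ∧ a' < b ∧ a' < b') ∨
    (b < a ∧ b < a' ∧ b' < a ∧ b' < a')) : Disj (x, a) (x, a') (x, b) (x, b') := by
  intro r hr hr'
  rcases h with ⟨h1, h2, h3, h4⟩ | ⟨h1, h2, h3, h4⟩
  · have k1 := seg_lin (α := 0) (β := 1) (γ := max a a') hr
      (by have := le_max_left a a'; simp only; linarith)
      (by have := le_max_right a a'; simp only; linarith)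
    have k2 := seg_lin (α := 0) (β := -1) (γ := - min b b') hr'
      (by have := min_le_left b b'; simp only; linarith)
      (by have := min_le_right b b'; simp only; linarith)
    have k3 : max a a' < min b b' := max_lt (lt_min h1 h2) (lt_min h3 h4)
    linarith
  · have k1 := seg_lin (α := 0) (β := 1) (γ := max b b') hr'
      (by have := le_max_left b b'; simp only; linarith)
      (by have := le_max_right b b'; simp only; linarith)
    have k2 := seg_lin (α := 0) (β := -1) (γ := - min a a') hr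
      (by have := min_le_left a a'; simp only; linarith)
      (by have := min_le_right a a'; simp only; linarith)
    have k3 : max b b' < min a a' := max_lt (lt_min h1 h2) (lt_min h3 h4)
    linarith

/-- A vertical segment and an edge that starts or ends at one of its end points. -/
theorem nc_vert {A B P Q : ℝ × ℝ} (h : A.1 < B.1) (hv : P.1 = Q.1)
    (he : A = P ∨ A = Q ∨ B = P ∨ B = Q) : NC P Q A B := by
  intro r hr hr'
  have e1 := seg_lin (α := 1) (β := 0) (γ := P.1) hr (by simp) (by simp [hv])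
  have e2 := seg_lin (α := -1) (β := 0) (γ := - P.1) hr (by simp) (by simp [hv])
  have e3 : r.1 = P.1 := by linarith
  rcases he with rfl | rfl | rfl | rfl
  · have := seg_left h hr' e3
    exact ⟨Or.inl this, Or.inl this⟩
  · have := seg_left h hr' (by rw [e3, hv])
    exact ⟨Or.inr this, Or.inl this⟩
  · have := seg_right h hr' e3
    exact ⟨Or.inl this, Or.inr this⟩
  · have := seg_right h hr' (by rw [e3, hv])
    exact ⟨Or.inr this, Or.inr this⟩

theorem disj_x {P Q P' Q' : ℝ × ℝ} {x : ℝ} (h1 : P.1 ≤ x) (h2 : Q.1 ≤ x) (h3 : x < P'.1)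
    (h4 : x < Q'.1) : Disj P Q P' Q' := by
  intro p hp hp'
  have k1 := seg_lin (α := 1) (β := 0) (γ := x) hp (by linarith) (by linarith)
  have k2 := seg_lin (α := -1) (β := 0) (γ := - min P'.1 Q'.1) hp'
    (by have := min_le_left P'.1 Q'.1; linarith) (by have := min_le_right P'.1 Q'.1; linarith)
  have k3 : x < min P'.1 Q'.1 := lt_min h3 h4
  linarith

/-- A guard: a vertical segment through whose abscissa an edge passes at its midpoint. -/
theorem guard {P Q : ℝ × ℝ} {x p p' : ℝ} (hd : Disj P Q (x, p) (x, p')) (hx : P.1 + Q.1 = 2 * x)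
    (h1 : 2 * p ≤ P.2 + Q.2 ∨ 2 * p' ≤ P.2 + Q.2) (h2 : P.2 + Q.2 ≤ 2 * p ∨ P.2 + Q.2 ≤ 2 * p') :
    False := by
  have hm : ((x, (P.2 + Q.2) / 2) : ℝ × ℝ) ∈ segment ℝ P Q := by
    refine ⟨1 / 2, 1 / 2, by norm_num, by norm_num, by norm_num, ?_⟩
    ext
    · simp only [Prod.fst_add, Prod.smul_fst, smul_eq_mul]
      linarith
    · simp only [Prod.snd_add, Prod.smul_snd, smul_eq_mul]
      linarith
  refine hd _ hm ?_
  have key : ∀ {a b h : ℝ}, a ≤ h → h ≤ b → ((x, h) : ℝ × ℝ) ∈ segment ℝ (x, a) (x, b) := by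
    intro a b h ha hb
    rcases (ha.trans hb).eq_or_lt with hab | hab
    · have : h = a := by linarith
      subst this
      exact left_mem_segment ℝ _ _
    · refine ⟨(b - h) / (b - a), (h - a) / (b - a), div_nonneg (by linarith) (by linarith),
        div_nonneg (by linarith) (by linarith), ?_, ?_⟩
      · rw [← add_div, div_eq_one_iff_eq (by linarith)]
        ring
      · have hne : b - a ≠ 0 := by linarith
        ext
        · simp only [Prod.fst_add, Prod.smul_fst, smul_eq_mul]
          field_simp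
          ring
        · simp only [Prod.snd_add, Prod.smul_snd, smul_eq_mul]
          field_simp
          ring
  rcases le_total p p' with hpp | hpp
  · refine key ?_ ?_
    · rcases h1 with h1 | h1 <;> linarith
    · rcases h2 with h2 | h2 <;> linarith
  · rw [segment_symm]
    refine key ?_ ?_
    · rcases h1 with h1 | h1 <;> linarith
    · rcases h2 with h2 | h2 <;> linarith

theorem mem_of_line {P Q p : ℝ × ℝ} (h : P.1 < Q.1) (h1 : P.1 ≤ p.1) (h2 : p.1 ≤ Q.1)
    (hl : (p.2 - P.2) * (Q.1 - P.1) = (Q.2 - P.2) * (p.1 - P.1)) : p ∈ segment ℝ P Q := by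
  have hne : Q.1 - P.1 ≠ 0 := by linarith
  refine ⟨(Q.1 - p.1) / (Q.1 - P.1), (p.1 - P.1) / (Q.1 - P.1), div_nonneg (by linarith)
    (by linarith), div_nonneg (by linarith) (by linarith), ?_, ?_⟩
  · rw [← add_div, div_eq_one_iff_eq hne]
    ring
  · ext
    · simp only [Prod.fst_add, Prod.smul_fst, smul_eq_mul]
      field_simp
      ring
    · simp only [Prod.snd_add, Prod.smul_snd, smul_eq_mul]
      field_simp
      linarith

/-- A crossing: if two edges do not meet and one of them is below the other at the abscissa `a`, it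
is also below the other at the abscissa `b`. -/
theorem cross {P Q P' Q' : ℝ × ℝ} (hd : Disj P Q P' Q') (h : P.1 < Q.1) (h' : P'.1 < Q'.1)
    {a b : ℝ} (a1 : P.1 ≤ a) (a2 : a ≤ Q.1) (a3 : P'.1 ≤ a) (a4 : a ≤ Q'.1)
    (b1 : P.1 ≤ b) (b2 : b ≤ Q.1) (b3 : P'.1 ≤ b) (b4 : b ≤ Q'.1)
    (ha : 0 < hdiff P Q P' Q' a) : 0 < hdiff P Q P' Q' b := by
  by_contra hb
  rw [not_lt] at hb
  set A := hdiff P Q P' Q' a with hA
  set B := hdiff P Q P' Q' b with hB
  have hAB : 0 < A - B := by linarith
  set x := (a * (-B) + b * A) / (A - B) with hx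
  have hx' : x * (A - B) = a * (-B) + b * A := div_mul_cancel₀ _ hAB.ne'
  have bd : ∀ c : ℝ, c ≤ a → c ≤ b → c ≤ x := by
    intro c h1 h2
    by_contra hc
    rw [not_le] at hc
    nlinarith [mul_nonneg (sub_nonneg.2 h1) (neg_nonneg.2 hb), mul_nonneg (sub_nonneg.2 h2) ha.le,
      mul_pos (sub_pos.2 hc) hAB]
  have bd' : ∀ c : ℝ, a ≤ c → b ≤ c → x ≤ c := by
    intro c h1 h2
    by_contra hc
    rw [not_le] at hc
    nlinarith [mul_nonneg (sub_nonneg.2 h1) (neg_nonneg.2 hb), mul_nonneg (sub_nonneg.2 h2) ha.le,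
      mul_pos (sub_pos.2 hc) hAB]
  have hne : Q.1 - P.1 ≠ 0 := by linarith
  have hne' : Q'.1 - P'.1 ≠ 0 := by linarith
  have h0 : hdiff P Q P' Q' x = 0 := by
    have aff : hdiff P Q P' Q' x * (b - a) = A * (b - x) + B * (x - a) := by
      rw [hA, hB]; unfold hdiff; ring
    by_cases hab : a = b
    · exfalso
      have : A = B := by rw [hA, hB, hab]
      linarith
    · have e : A * (b - x) + B * (x - a) = 0 := by linarith
      rw [e] at aff
      rcases mul_eq_zero.1 aff with h1 | h1
      · exact h1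
      · exact (hab (by linarith)).elim
  set y := P.2 + (Q.2 - P.2) * (x - P.1) / (Q.1 - P.1) with hy
  have hy1 : (y - P.2) * (Q.1 - P.1) = (Q.2 - P.2) * (x - P.1) := by
    rw [hy]; field_simp; ring
  have hy2 : (y - P'.2) * (Q'.1 - P'.1) = (Q'.2 - P'.2) * (x - P'.1) := by
    unfold hdiff at h0
    have e : ((y - P'.2) * (Q'.1 - P'.1) - (Q'.2 - P'.2) * (x - P'.1)) * (Q.1 - P.1) = 0 := by
      have : y * (Q.1 - P.1) = P.2 * (Q.1 - P.1) + (Q.2 - P.2) * (x - P.1) := by linarith
      calc ((y - P'.2) * (Q'.1 - P'.1) - (Q'.2 - P'.2) * (x - P'.1)) * (Q.1 - P.1)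
          = (y * (Q.1 - P.1)) * (Q'.1 - P'.1) -
            (P'.2 * (Q'.1 - P'.1) + (Q'.2 - P'.2) * (x - P'.1)) * (Q.1 - P.1) := by ring
        _ = 0 := by rw [this]; linarith
    rcases mul_eq_zero.1 e with h1 | h1
    · linarith
    · exact (hne h1).elim
  exact hd (x, y) (mem_of_line h (bd _ a1 b1) (bd' _ a2 b2) hy1)
    (mem_of_line h' (bd _ a3 b3) (bd' _ a4 b4) hy2)

end Pool.Agent.H38SD
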