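import Pool.Agent.H38SD.Loc

/-!
# The instances of the reduction
-/

namespace Pool.Agent.H38SD

open Pool.Agent.K4H90.SegDraw

/-- The segment with given data. -/
def segF (X Y kd : ℕ) : Seg :=
  if kd = 0 then ⟨((X : ℚ), (Y : ℚ)), ((X : ℚ), ((Y + 16 : ℕ) : ℚ)), true⟩ else
  if kd = 2 then ⟨((X : ℚ), (Y : ℚ)), (((X + 3 : ℕ) : ℚ), (Y : ℚ)), true⟩ else
  if kd = 3 then ⟨((X : ℚ), (Y : ℚ)), ((X : ℚ), ((Y + 8 : ℕ) : ℚ)), true⟩ else
  if kd = 4 then ⟨((X : ℚ), ((Y + 8 : ℕ) : ℚ)), ((X : ℚ), ((Y + 16 : ℕ) : ℚ)), true⟩ else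
  if kd = 5 then ⟨((X : ℚ), ((Y + 16 : ℕ) : ℚ)), ((X : ℚ), ((Y + 17 : ℕ) : ℚ)), true⟩ else
  ⟨((X : ℚ), (Y : ℚ)), ((X : ℚ), (-1 : ℚ)), true⟩

/-- The segment of a port. -/
def segP (X Y b : ℕ) : Seg :=
  ⟨((X : ℚ), ((Y + b : ℕ) : ℚ)), ((X : ℚ), ((Y + 16 : ℕ) : ℚ)), true⟩

/-- The table of the vertices of a cell. -/
def vtab (k : ℕ) : List (ℕ × ℕ × ℕ × ℕ) := mkT (gadOf k) (bars k)

/-- The edges of a gadget. -/
def eX (k : ℕ) : List (Ref × Ref) := edgesOf (gadOf k) ++ vT k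

variable (d : Dat) (lb : ℕ → ℕ)

/-- The names of the references. -/
def resX (l b : ℕ) (r : Ref) : ℕ := if r.1 = 3 then nm (102 + r.2) l b else d.dia.res l b r

/-- The vertices of a cell. -/
def cellV (l b : ℕ) : List (ℕ × Seg) :=
  (if l = 0 ∧ d.grp b ≠ b then [] else
    [(nm 1 l b, segP (12 * l) (192 * b) (if l = 0 then lb b else 0))]) ++
  (vtab (d.gk l b)).map fun r => (nm r.1 l b, segF (12 * l + r.2.1)
    (192 * d.dia.hb l b + r.2.2.1 + 16 * (b - d.dia.hb l b) * r.2.1) r.2.2.2)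

/-- The edges of a cell. -/
def cellE (l b : ℕ) : List (ℕ × ℕ) :=
  (eX (d.gk l b)).map fun e => (resX d l b e.1, resX d l b e.2)

/-- The instance. -/
def finst : FInst where
  verts := (root, ⟨(-2, 0), (-1, 0), true⟩) ::
    (List.range d.dia.C).flatMap fun l => (List.range d.dia.N).flatMap fun b => cellV d lb l b
  edges := (d.dia.rootR.map fun v => (root, v)) ++
    (List.range d.dia.C).flatMap fun l => (List.range d.dia.N).flatMap fun b => cellE d l b
  obstacles := []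

/-- The edges, from left to right, and the vertical edges. -/
def EX (u v : ℕ) : Prop := d.dia.E u v ∨
  ∃ l < d.dia.C, ∃ b < d.dia.N, ∃ a ∈ vT (d.gk l b), u = resX d l b a.1 ∧ v = resX d l b a.2

/-- The names of the new vertices. -/
def FN (n : ℕ) : Prop := ∃ l < d.dia.C, ∃ b < d.dia.N, ∃ m ∈ bars (d.gk l b), n = nm (102 + m.1) l b

theorem mem_vtab {k : ℕ} {r : ℕ × ℕ × ℕ × ℕ} : r ∈ vtab k ↔
    (∃ i w, (gadOf k).1[i]? = some w ∧ r = (2 + i, w.1, w.2.1, kd (bars k) w i)) ∨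
    (∃ m ∈ bars k, r = (102 + m.1, xlo (gadOf k) (2, m.1),
      (((gadOf k).1[m.1]?).map fun w => w.2.1).getD 0, if m.2 = true then 5 else 6)) := by
  unfold vtab mkT
  rw [List.mem_append, List.mem_map, List.mem_map]
  constructor
  · rintro (⟨⟨w, i⟩, h, rfl⟩ | ⟨m, hm, rfl⟩)
    · rw [List.mem_zipIdx_iff_getElem?] at h
      exact Or.inl ⟨i, w, h, rfl⟩
    · exact Or.inr ⟨m, hm, rfl⟩
  · rintro (⟨i, w, h, rfl⟩ | ⟨m, hm, rfl⟩)
    · exact Or.inl ⟨(w, i), by rw [List.mem_zipIdx_iff_getElem?]; exact h, rfl⟩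
    · exact Or.inr ⟨m, hm, rfl⟩

variable {d lb}

theorem mem_cellV {l b : ℕ} {e : ℕ × Seg} : e ∈ cellV d lb l b ↔
    ((l = 0 → d.grp b = b) ∧ e = (nm 1 l b, segP (12 * l) (192 * b) (if l = 0 then lb b else 0))) ∨
    (∃ i w, (gadOf (d.gk l b)).1[i]? = some w ∧ e = (nm (2 + i) l b, segF (12 * l + w.1)
      (192 * d.dia.hb l b + w.2.1 + 16 * (b - d.dia.hb l b) * w.1)
      (kd (bars (d.gk l b)) w i))) ∨
    (∃ m ∈ bars (d.gk l b), e = (nm (102 + m.1) l b,
      segF (12 * l + xlo (gadOf (d.gk l b)) (2, m.1))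
      (192 * d.dia.hb l b + (((gadOf (d.gk l b)).1[m.1]?).map fun w => w.2.1).getD 0 +
        16 * (b - d.dia.hb l b) * xlo (gadOf (d.gk l b)) (2, m.1))
      (if m.2 = true then 5 else 6))) := by
  unfold cellV
  rw [List.mem_append, List.mem_map]
  constructor
  · rintro (h | ⟨r, hr, rfl⟩)
    · by_cases h1 : l = 0 ∧ d.grp b ≠ b
      · rw [if_pos h1] at h
        simp at h
      · rw [if_neg h1, List.mem_singleton] at h
        left
        refine ⟨fun h0 => ?_, h⟩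
        by_contra hc
        exact h1 ⟨h0, hc⟩
    · rcases mem_vtab.1 hr with ⟨i, w, h, rfl⟩ | ⟨m, hm, rfl⟩
      · exact Or.inr (Or.inl ⟨i, w, h, rfl⟩)
      · exact Or.inr (Or.inr ⟨m, hm, rfl⟩)
  · rintro (⟨h0, rfl⟩ | ⟨i, w, h, rfl⟩ | ⟨m, hm, rfl⟩)
    · left
      rw [if_neg (fun hc => hc.2 (h0 hc.1))]
      simp
    · exact Or.inr ⟨_, mem_vtab.2 (Or.inl ⟨i, w, h, rfl⟩), rfl⟩
    · exact Or.inr ⟨_, mem_vtab.2 (Or.inr ⟨m, hm, rfl⟩), rfl⟩

theorem mem_finst {e : ℕ × Seg} : e ∈ (finst d lb).verts ↔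
    e = (root, ⟨(-2, 0), (-1, 0), true⟩) ∨
    ∃ l < d.dia.C, ∃ b < d.dia.N, e ∈ cellV d lb l b := by
  unfold finst
  simp only [List.mem_cons, List.mem_flatMap, List.mem_range]

theorem mem_namesX {n : ℕ} : n ∈ (finst d lb).names ↔
    n ∈ (d.dia.inst true).names ∨ FN d n := by
  unfold FInst.names
  rw [List.mem_map, Dia.mem_names]
  constructor
  · rintro ⟨e, he, rfl⟩
    rcases mem_finst.1 he with rfl | ⟨l, hl, b, hb, he⟩
    · exact Or.inl (Or.inl rfl)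
    · rcases mem_cellV.1 he with ⟨h0, rfl⟩ | ⟨i, w, h, rfl⟩ | ⟨m, hm, rfl⟩
      · exact Or.inl (Or.inr (Or.inl ⟨l, hl, b, hb, h0, rfl⟩))
      · exact Or.inl (Or.inr (Or.inr ⟨l, hl, b, hb, i, (List.getElem?_eq_some_iff.1 h).1, rfl⟩))
      · exact Or.inr ⟨l, hl, b, hb, m, hm, rfl⟩
  · rintro ((rfl | ⟨l, hl, k, hk, h0, rfl⟩ | ⟨l, hl, b, hb, i, hi, rfl⟩) | ⟨l, hl, b, hb, m, hm, rfl⟩)
    · exact ⟨_, mem_finst.2 (Or.inl rfl), rfl⟩
    · exact ⟨_, mem_finst.2 (Or.inr ⟨l, hl, k, hk, mem_cellV.2 (Or.inl ⟨h0, rfl⟩)⟩), rfl⟩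
    · exact ⟨_, mem_finst.2 (Or.inr ⟨l, hl, b, hb, mem_cellV.2 (Or.inr (Or.inl
        ⟨i, _, List.getElem?_eq_getElem hi, rfl⟩))⟩), rfl⟩
    · exact ⟨_, mem_finst.2 (Or.inr ⟨l, hl, b, hb, mem_cellV.2 (Or.inr (Or.inr
        ⟨m, hm, rfl⟩))⟩), rfl⟩

theorem resX_old {l b : ℕ} {r : Ref} (h : r.1 ≠ 3) : resX d l b r = d.dia.res l b r := if_neg h

theorem resX_new {l b i : ℕ} : resX d l b (3, i) = nm (102 + i) l b := if_pos rfl

theorem mem_edges (h : d.OK) {u v : ℕ} : (u, v) ∈ (finst d lb).edges ↔ EX d u v := by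
  have hok := Dat.dia_ok h
  unfold finst EX cellE eX
  simp only [List.mem_append, List.mem_flatMap, List.mem_range, List.mem_map, Prod.mk.injEq]
  constructor
  · rintro (⟨x, hx, rfl, rfl⟩ | ⟨l, hl, b, hb, a, ha | ha, rfl, rfl⟩)
    · exact Or.inl ((Dia.mem_rootR hok).1 hx)
    · left; right
      have m := mem_edgesOf.1 (show (a.1, a.2) ∈ edgesOf (gadOf (d.gk l b)) from ha)
      have m2 : a.2 ∈ refs (gadOf (d.gk l b)) := ((gadOf_ok _).1 _ m.1 _ m.2).1
      exact ⟨l, hl, b, hb, a.1, a.2, m.1, m.2, resX_old (ref_ne3 m.1), resX_old (ref_ne3 m2)⟩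
    · exact Or.inr ⟨l, hl, b, hb, a, ha, rfl, rfl⟩
  · rintro (hE | ⟨l, hl, b, hb, a, ha, rfl, rfl⟩)
    · rcases hE with ⟨rfl, k, hk, hg, rfl⟩ | ⟨l, hl, b, hb, s, r, hs, hr, rfl, rfl⟩
      · left
        exact ⟨_, (Dia.mem_rootR hok).2 (Or.inl ⟨rfl, k, hk, hg, rfl⟩), rfl, rfl⟩
      · right
        have m2 : r ∈ refs (gadOf (d.gk l b)) := ((gadOf_ok _).1 _ hs _ hr).1
        exact ⟨l, hl, b, hb, (s, r), Or.inl (mem_edgesOf.2 ⟨hs, hr⟩), resX_old (ref_ne3 hs),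
          resX_old (ref_ne3 m2)⟩
    · right
      exact ⟨l, hl, b, hb, a, Or.inr ha, rfl, rfl⟩

theorem adj_iff (h : d.OK) {u v : ℕ} : (finst d lb).Adj u v ↔ EX d u v ∨ EX d v u := by
  unfold FInst.Adj
  rw [mem_edges h, mem_edges h]

theorem resX_names (h : d.OK) {l b : ℕ} (hl : l < d.dia.C) (hb : b < d.dia.N) {r : Ref}
    (hr : XR (d.gk l b) r) : resX d l b r ∈ (finst d lb).names := by
  rw [mem_namesX]
  rcases hr with hr | ⟨h3, m, hm, hmr⟩
  · left
    rw [resX_old (ref_ne3 hr)]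
    exact Dia.res_mem_names (Dat.dia_ok h) hl hb hr
  · right
    obtain ⟨a, i⟩ := r
    simp only at h3 hmr
    subst h3 hmr
    exact ⟨l, hl, b, hb, m, hm, resX_new⟩

theorem EX_names (h : d.OK) {u v : ℕ} (he : EX d u v) :
    u ∈ (finst d lb).names ∧ v ∈ (finst d lb).names := by
  rcases he with he | ⟨l, hl, b, hb, a, ha, rfl, rfl⟩
  · have := Dia.E_mem_names (Dat.dia_ok h) (cl := true) he
    exact ⟨mem_namesX.2 (Or.inl this.1), mem_namesX.2 (Or.inl this.2)⟩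
  · exact ⟨resX_names h hl hb (vT_XR ha).1, resX_names h hl hb (vT_XR ha).2⟩

/-- Every vertex has an incident edge. -/
theorem exists_edge (h : d.OK) {u : ℕ} (hu : u ∈ (finst d lb).names) :
    ∃ v, EX d u v ∨ EX d v u := by
  have hok := Dat.dia_ok h
  rcases mem_namesX.1 hu with hu | ⟨l, hl, b, hb, m, hm, rfl⟩
  · have hr : root ∈ (d.dia.inst true).names := Dia.mem_names.2 (Or.inl rfl)
    have h1 : nm 1 0 0 ∈ (d.dia.inst true).names := Dia.mem_names.2 (Or.inr (Or.inl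
      ⟨0, hok.hC, 0, hok.hN, fun _ => Nat.le_zero.1 (h.g1 0), rfl⟩))
    have key : ∀ x ∈ (d.dia.inst true).names, x ≠ u → ∃ v, EX d u v ∨ EX d v u := by
      intro x hx hne
      rcases (Relation.ReflTransGen.cases_head (Dia.connected hok u hu x hx)) with he | ⟨c, hc, -⟩
      · exact (hne he.symm).elim
      · rw [Dia.nbr_iff hok] at hc
        rcases hc with hc | hc
        · exact ⟨c, Or.inl (Or.inl hc)⟩
        · exact ⟨c, Or.inr (Or.inl hc)⟩
    by_cases hne : root = u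
    · refine key _ h1 ?_
      rw [← hne]
      unfold root
      rw [Ne, nm_inj]
      omega
    · exact key _ hr hne
  · refine ⟨resX d l b (2, m.1), Or.inr (Or.inr ⟨l, hl, b, hb, ((2, m.1), (3, m.1)),
      mem_vT.2 (Or.inl ⟨m, hm, rfl⟩), rfl, resX_new.symm⟩)⟩

theorem codes_nodup (k : ℕ) : (1 :: (vtab k).map fun r : ℕ × ℕ × ℕ × ℕ => r.1).Nodup := by
  rcases Nat.lt_or_ge k 5 with hk | hk
  · interval_cases k <;> decide +kernel
  · have h1 : gadOf k = emptyG := by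
      unfold gadOf
      rw [if_neg (by omega), if_neg (by omega), if_neg (by omega), if_neg (by omega),
        if_neg (by omega)]
    unfold vtab
    rw [h1, big_bars hk]
    decide

theorem names_nodupX : (finst d lb).names.Nodup := by
  have hcell : ∀ l b, (cellV d lb l b).map (fun e => e.1) =
      ((if l = 0 ∧ d.grp b ≠ b then [] else [1]) ++ (vtab (d.gk l b)).map fun r : ℕ × ℕ × ℕ × ℕ => r.1).map
        fun c => nm c l b := by
    intro l b
    unfold cellV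
    rw [List.map_append, List.map_append, List.map_map, List.map_map]
    congr 1
    split_ifs <;> rfl
  have hcodes : ∀ l b, ∀ c ∈ ((if l = 0 ∧ d.grp b ≠ b then [] else [1]) ++
      (vtab (d.gk l b)).map fun r : ℕ × ℕ × ℕ × ℕ => r.1), c ≠ 0 := by
    intro l b c hc h0
    subst h0
    rw [List.mem_append] at hc
    rcases hc with hc | hc
    · split_ifs at hc <;> simp at hc
    · rw [List.mem_map] at hc
      obtain ⟨r, hr, hr0⟩ := hc
      rcases mem_vtab.1 hr with ⟨i, w, h, rfl⟩ | ⟨m, hm, rfl⟩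
      · simp at hr0
      · simp at hr0
  have hnd : ∀ l b, ((if l = 0 ∧ d.grp b ≠ b then [] else [1]) ++
      (vtab (d.gk l b)).map fun r : ℕ × ℕ × ℕ × ℕ => r.1).Nodup := by
    intro l b
    have := codes_nodup (d.gk l b)
    split_ifs
    · exact (List.nodup_cons.1 this).2
    · exact this
  have hmem : ∀ l b x, x ∈ (cellV d lb l b).map (fun e => e.1) → ∃ c, c ≠ 0 ∧ x = nm c l b := by
    intro l b x hx
    rw [hcell, List.mem_map] at hx
    obtain ⟨c, hc, rfl⟩ := hx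
    exact ⟨c, hcodes l b c hc, rfl⟩
  unfold FInst.names finst
  simp only [List.map_cons, List.map_flatMap]
  rw [List.nodup_cons]
  constructor
  · intro hx
    simp only [List.mem_flatMap, List.mem_range] at hx
    obtain ⟨l, -, b, -, hx⟩ := hx
    obtain ⟨c, hc0, hc⟩ := hmem l b _ hx
    unfold root at hc
    rw [nm_inj] at hc
    omega
  · rw [List.nodup_flatMap]
    constructor
    · intro l _
      rw [List.nodup_flatMap]
      constructor
      · intro b _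
        rw [hcell]
        refine (hnd l b).map ?_
        intro x y hxy
        simp only [nm_inj] at hxy
        exact hxy.1
      · refine List.Pairwise.imp ?_ List.pairwise_lt_range
        intro b b' hbb x hx hy
        obtain ⟨c, -, hc⟩ := hmem l b x hx
        obtain ⟨c', -, hc'⟩ := hmem l b' x hy
        rw [hc, nm_inj] at hc'
        omega
    · refine List.Pairwise.imp ?_ List.pairwise_lt_range
      intro l l' hll x hx hy
      rw [List.mem_flatMap] at hx hy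
      obtain ⟨b, -, hx⟩ := hx
      obtain ⟨b', -, hy⟩ := hy
      obtain ⟨c, -, hc⟩ := hmem l b x hx
      obtain ⟨c', -, hc'⟩ := hmem l' b' x hy
      rw [hc, nm_inj] at hc'
      omega

end Pool.Agent.H38SD
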