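import Pool.Agent.H38SD.Cmp

/-!
# The barriers of a gadget: local facts
-/

namespace Pool.Agent.H38SD

open Pool.Agent.K4H90.SegDraw

theorem tr_of_srtR {g : Gadget} {q : Ref → ℝ × ℝ}
    (h : ∀ s ∈ refs g, (rl g s).Pairwise fun a b => 0 < cr (q s) (q a) (q b)) :
    ∀ t ∈ trR g, 0 < cr (q t.1) (q t.2.1) (q t.2.2) := by
  intro t ht
  unfold trR at ht
  rw [List.mem_flatMap] at ht
  obtain ⟨s, hs, ht⟩ := ht
  rw [List.mem_map] at ht
  obtain ⟨p, hp, rfl⟩ := ht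
  exact prs_of_pairwise (h s hs) p hp

theorem big_bars {k : ℕ} (h : 5 ≤ k) : bars k = [] := by
  unfold bars
  rw [if_neg (by omega), if_neg (by omega), if_neg (by omega), if_neg (by omega),
    if_neg (by omega)]

theorem big_vT {k : ℕ} (h : 5 ≤ k) : vT k = [] := by
  unfold vT
  rw [big_bars h, if_neg (by omega)]
  rfl

/-- The numerical facts on the vertices with barriers. -/
theorem bars_ok (k : ℕ) : ∀ m ∈ bars k, m.1 < (gadOf k).1.length ∧
    ((gadOf k).1[m.1]?).map (fun w => w.2.2.1) = some 1 ∧ 0 < xlo (gadOf k) (2, m.1) ∧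
    xhi (gadOf k) (2, m.1) = xlo (gadOf k) (2, m.1) ∧ xlo (gadOf k) (2, m.1) < 12 ∧
    yF k m.1 + 176 ≤ 192 * ht (gadOf k) ∧ (k ≤ 1 → 3 ≤ xlo (gadOf k) (2, m.1)) := by
  rcases Nat.lt_or_ge k 5 with hk | hk
  · interval_cases k <;> decide +kernel
  · intro m hm
    rw [big_bars hk] at hm
    simp at hm

theorem len_lt (k : ℕ) : (gadOf k).1.length < 100 := by
  unfold gadOf
  split_ifs <;> decide

/-- The references of vertices: old ones and new ones. -/
def XR (k : ℕ) (r : Ref) : Prop := r ∈ refs (gadOf k) ∨ (r.1 = 3 ∧ ∃ m ∈ bars k, m.1 = r.2)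

theorem mem_vT {k : ℕ} {v : Ref × Ref} : v ∈ vT k ↔
    (∃ m ∈ bars k, v = ((2, m.1), (3, m.1))) ∨ (k = 4 ∧ v = ((2, 11), (2, 7))) := by
  unfold vT
  rw [List.mem_append, List.mem_map]
  constructor
  · rintro (⟨m, hm, rfl⟩ | h)
    · exact Or.inl ⟨m, hm, rfl⟩
    · split_ifs at h with h4
      · exact Or.inr ⟨h4, by simpa using h⟩
      · simp at h
  · rintro (⟨m, hm, rfl⟩ | ⟨rfl, rfl⟩)
    · exact Or.inl ⟨m, hm, rfl⟩
    · right
      rw [if_pos rfl]
      simp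

theorem ref2 {k i : ℕ} (h : i < (gadOf k).1.length) : ((2, i) : Ref) ∈ refs (gadOf k) :=
  mem_refs.2 (Or.inr (Or.inr ⟨rfl, h⟩))

theorem ref_ne3 {g : Gadget} {r : Ref} (h : r ∈ refs g) : r.1 ≠ 3 := by
  rcases mem_refs.1 h with ⟨h1, -⟩ | ⟨h1, -⟩ | ⟨h1, -⟩ <;> omega

theorem vT_XR {k : ℕ} {v : Ref × Ref} (h : v ∈ vT k) : XR k v.1 ∧ XR k v.2 := by
  rcases mem_vT.1 h with ⟨m, hm, rfl⟩ | ⟨rfl, rfl⟩
  · exact ⟨Or.inl (ref2 (bars_ok k m hm).1), Or.inr ⟨rfl, m, hm, rfl⟩⟩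
  · exact ⟨Or.inl (ref2 (by decide)), Or.inl (ref2 (by decide))⟩

theorem cfg_xr {g : Gadget} {lo ro o : ℕ → ℝ} (ho : OffOK g o) {r : Ref} (hr : r ∈ refs g) :
    (xlo g r : ℝ) ≤ (cfg g lo ro o r).1 ∧ (cfg g lo ro o r).1 ≤ (xhi g r : ℝ) := by
  rcases Dia.ref_cases hr with ⟨i, hi, rfl⟩ | ⟨i, hi, rfl⟩ | ⟨i, hi, rfl⟩
  · rw [cfg_lp]; simp [xlo, xhi]
  · rw [cfg_rp]; simp [xlo, xhi]
  · have hw : g.1[i]? = some g.1[i] := List.getElem?_eq_getElem hi
    obtain ⟨-, o2⟩ := ho i _ hw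
    rw [cfg_inn lo ro o hw]
    unfold xlo xhi
    simp only [show (2 : ℕ) ≠ 0 by norm_num, show (2 : ℕ) ≠ 1 by norm_num, if_false, hw,
      Option.map_some, Option.getD_some]
    split_ifs with hk
    · have := o2 hk
      push_cast
      constructor <;> linarith
    · simp

/-- The abscissa of the end vertices of a vertical edge. -/
theorem vT_x {k : ℕ} {lo ro o z : ℕ → ℝ} {v : Ref × Ref} (h : v ∈ vT k) :
    (cfgX (gadOf k) lo ro o z v.1).1 = xlo (gadOf k) v.1 ∧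
    (cfgX (gadOf k) lo ro o z v.2).1 = xlo (gadOf k) v.1 ∧ 0 < xlo (gadOf k) v.1 ∧
    xlo (gadOf k) v.1 < 12 ∧ (k ≤ 1 → 3 ≤ xlo (gadOf k) v.1) := by
  rcases mem_vT.1 h with ⟨m, hm, rfl⟩ | ⟨rfl, rfl⟩
  · obtain ⟨h1, h2, h3, h4, h5, h6, h7⟩ := bars_ok k m hm
    refine ⟨?_, ?_, h3, h5, h7⟩
    · rw [cfgX_old _ _ _ _ (show ((2, m.1) : Ref).1 ≠ 3 by simp)]
      have hw : (gadOf k).1[m.1]? = some (gadOf k).1[m.1] := List.getElem?_eq_getElem h1
      rw [hw] at h2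
      simp only [Option.map_some, Option.some.injEq] at h2
      rw [cfg_inn lo ro o hw, if_neg (by omega)]
      unfold xlo
      simp only [show (2 : ℕ) ≠ 0 by norm_num, show (2 : ℕ) ≠ 1 by norm_num, if_false, hw,
        Option.map_some, Option.getD_some]
    · unfold cfgX
      rw [if_pos rfl]
  · refine ⟨?_, ?_, by decide, by decide, by omega⟩
    · rw [show gadOf 4 = prodG from rfl, prod_x2_11]
      have : xlo prodG (2, 11) = 4 := by decide
      rw [this]; norm_num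
    · rw [show gadOf 4 = prodG from rfl, prod_x2_7]
      have : xlo prodG (2, 11) = 4 := by decide
      simp only [this]; norm_num

section

variable {k : ℕ} {lo ro o : ℕ → ℝ}

theorem vdisj (hg : GeoOK (gadOf k) (cfg (gadOf k) lo ro o))
    (ho : OffOK (gadOf k) o) (h11 : k = 4 → o 11 = 8) :
    (∀ p ∈ tabV k, Disj (cfgX (gadOf k) lo ro o (fun i => (yF k i : ℝ)) p.1.1)
      (cfgX (gadOf k) lo ro o (fun i => (yF k i : ℝ)) p.1.2)
      (cfgX (gadOf k) lo ro o (fun i => (yF k i : ℝ)) p.2.1)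
      (cfgX (gadOf k) lo ro o (fun i => (yF k i : ℝ)) p.2.2)) ∧
    (∀ p ∈ tabW k, Disj (cfgX (gadOf k) lo ro o (fun i => (yF k i : ℝ)) p.1.1)
      (cfgX (gadOf k) lo ro o (fun i => (yF k i : ℝ)) p.1.2)
      (cfgX (gadOf k) lo ro o (fun i => (yF k i : ℝ)) p.2.1)
      (cfgX (gadOf k) lo ro o (fun i => (yF k i : ℝ)) p.2.2)) := by
  have hl : ∀ i < (gadOf k).2.1.length, 0 < lo i ∧ lo i < 16 := by
    intro i hi
    have := hg.lp i hi
    rw [cfg_lp] at this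
    simp only at this
    constructor <;> linarith
  have hr : ∀ i < (gadOf k).2.2.length, 0 < ro i ∧ ro i < 16 := by
    intro i hi
    have := hg.rp i hi
    rw [cfg_rp] at this
    simp only at this
    constructor <;> linarith
  have hR := tr_of_srtR hg.srtR
  rcases Nat.lt_or_ge k 5 with h | h
  · interval_cases k
    · exact plain_v hl hr ho hR
    · exact neg_v hl hr ho hR
    · exact swap_v hl hr ho hR
    · exact lin_v hl hr ho hR
    · exact prod_v hl hr ho hR (h11 rfl)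
  · have e1 : tabV k = [] := by unfold tabV; rw [big_vT h]; rfl
    have e2 : tabW k = [] := by unfold tabW; rw [big_vT h]; rfl
    rw [e1, e2]
    simp

/-- A vertical edge and an edge of the same gadget. -/
theorem loc_nc (hg : GeoOK (gadOf k) (cfg (gadOf k) lo ro o))
    (ho : OffOK (gadOf k) o) (h11 : k = 4 → o 11 = 8) {v e : Ref × Ref} (hv : v ∈ vT k)
    (he : e ∈ edgesOf (gadOf k)) :
    NC (cfgX (gadOf k) lo ro o (fun i => (yF k i : ℝ)) v.1)
      (cfgX (gadOf k) lo ro o (fun i => (yF k i : ℝ)) v.2)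
      (cfgX (gadOf k) lo ro o (fun i => (yF k i : ℝ)) e.1)
      (cfgX (gadOf k) lo ro o (fun i => (yF k i : ℝ)) e.2) := by
  obtain ⟨x1, x2, -, -, -⟩ := vT_x (lo := lo) (ro := ro) (o := o)
    (z := fun i => (yF k i : ℝ)) hv
  have m := mem_edgesOf.1 (show (e.1, e.2) ∈ edgesOf (gadOf k) from he)
  have re := m.1
  have re2 := ((gadOf_ok k).1 _ m.1 _ m.2).1
  have q1 := cfgX_old lo ro o (fun i => (yF k i : ℝ)) (g := gadOf k) (ref_ne3 re)
  have q2 := cfgX_old lo ro o (fun i => (yF k i : ℝ)) (g := gadOf k) (ref_ne3 re2)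
  have dir := hg.dir e he
  rw [← q1, ← q2] at dir
  have r1 := (cfg_xr (lo := lo) (ro := ro) ho re).1
  have r2 := (cfg_xr (lo := lo) (ro := ro) ho re2).2
  rw [← q1] at r1
  rw [← q2] at r2
  by_cases c1 : xhi (gadOf k) e.2 < xlo (gadOf k) v.1
  · have c1' : (xhi (gadOf k) e.2 : ℝ) < xlo (gadOf k) v.1 := by exact_mod_cast c1
    exact (disj_x (x := (xhi (gadOf k) e.2 : ℝ)) (by linarith) r2 (by linarith)
      (by linarith)).nc.symm
  by_cases c2 : xlo (gadOf k) v.1 < xlo (gadOf k) e.1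
  · have c2' : (xlo (gadOf k) v.1 : ℝ) < xlo (gadOf k) e.1 := by exact_mod_cast c2
    exact (disj_x (x := (xlo (gadOf k) v.1 : ℝ)) (by linarith) (by linarith) (by linarith)
      (by linarith)).nc
  by_cases c3 : e.1 = v.1 ∨ e.1 = v.2 ∨ e.2 = v.1 ∨ e.2 = v.2
  · refine nc_vert dir (by rw [x1, x2]) ?_
    rcases c3 with c | c | c | c <;> rw [c] <;> simp
  · refine ((vdisj hg ho h11).1 (e, v) ?_).symm.nc
    unfold tabV
    rw [List.mem_flatMap]
    refine ⟨v, hv, List.mem_map.2 ⟨e, List.mem_filter.2 ⟨he, ?_⟩, rfl⟩⟩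
    simp only [not_or] at c3
    simp [c1, c2, c3.1, c3.2.1, c3.2.2.1, c3.2.2.2]

/-- Two vertical edges of the same gadget. -/
theorem loc_nc2 (hg : GeoOK (gadOf k) (cfg (gadOf k) lo ro o))
    (ho : OffOK (gadOf k) o) (h11 : k = 4 → o 11 = 8) {v e : Ref × Ref} (hv : v ∈ vT k)
    (he : e ∈ vT k) : v = e ∨
    NC (cfgX (gadOf k) lo ro o (fun i => (yF k i : ℝ)) v.1)
      (cfgX (gadOf k) lo ro o (fun i => (yF k i : ℝ)) v.2)
      (cfgX (gadOf k) lo ro o (fun i => (yF k i : ℝ)) e.1)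
      (cfgX (gadOf k) lo ro o (fun i => (yF k i : ℝ)) e.2) := by
  obtain ⟨x1, x2, -, -, -⟩ := vT_x (lo := lo) (ro := ro) (o := o)
    (z := fun i => (yF k i : ℝ)) hv
  obtain ⟨y1, y2, -, -, -⟩ := vT_x (lo := lo) (ro := ro) (o := o)
    (z := fun i => (yF k i : ℝ)) he
  by_cases c0 : v = e
  · exact Or.inl c0
  right
  by_cases c : xlo (gadOf k) v.1 = xlo (gadOf k) e.1
  · refine ((vdisj hg ho h11).2 (e, v) ?_).symm.nc
    unfold tabW
    rw [List.mem_flatMap]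
    refine ⟨v, hv, List.mem_map.2 ⟨e, List.mem_filter.2 ⟨he, ?_⟩, rfl⟩⟩
    have c0' : ¬ e = v := fun h => c0 h.symm
    simp [c, c0']
  · rcases lt_or_gt_of_ne c with c | c
    · have c' : (xlo (gadOf k) v.1 : ℝ) < xlo (gadOf k) e.1 := by exact_mod_cast c
      exact (disj_x (x := (xlo (gadOf k) v.1 : ℝ)) (by linarith) (by linarith) (by linarith)
        (by linarith)).nc
    · have c' : (xlo (gadOf k) e.1 : ℝ) < xlo (gadOf k) v.1 := by exact_mod_cast c
      exact (disj_x (x := (xlo (gadOf k) e.1 : ℝ)) (by linarith) (by linarith) (by linarith)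
        (by linarith)).nc.symm

end

theorem inj_tab (k : ℕ) : ∀ m ∈ bars k, ∀ j < (gadOf k).1.length,
    xhi (gadOf k) (2, j) < xlo (gadOf k) (2, m.1) ∨ xlo (gadOf k) (2, m.1) < xlo (gadOf k) (2, j) ∨
    (((gadOf k).1[j]?).map (fun w => w.2.2.1) ≠ some 2 ∧
      ((((gadOf k).1[j]?).map fun w => w.2.1).getD 0 + 16 ≤ yF k m.1 ∨
        yF k m.1 ≤ (((gadOf k).1[j]?).map fun w => w.2.1).getD 0)) := by
  rcases Nat.lt_or_ge k 5 with hk | hk
  · interval_cases k <;> decide +kernel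
  · intro m hm
    rw [big_bars hk] at hm
    simp at hm

theorem inj_tab2 (k : ℕ) : ∀ m ∈ bars k, ∀ m' ∈ bars k,
    xlo (gadOf k) (2, m.1) = xlo (gadOf k) (2, m'.1) → yF k m.1 = yF k m'.1 → m.1 = m'.1 := by
  rcases Nat.lt_or_ge k 5 with hk | hk
  · interval_cases k <;> decide +kernel
  · intro m hm
    rw [big_bars hk] at hm
    simp at hm

theorem loc_inj {k : ℕ} {lo ro o : ℕ → ℝ} (ho : OffOK (gadOf k) o) {m : ℕ × Bool}
    (hm : m ∈ bars k) {j : ℕ} (hj : j < (gadOf k).1.length) :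
    cfgX (gadOf k) lo ro o (fun i => (yF k i : ℝ)) (3, m.1) ≠
      cfgX (gadOf k) lo ro o (fun i => (yF k i : ℝ)) (2, j) := by
  intro he
  have hxr := cfg_xr (lo := lo) (ro := ro) ho (ref2 hj)
  rw [cfgX_old _ _ _ _ (show ((2, j) : Ref).1 ≠ 3 by simp)] at he
  unfold cfgX at he
  rw [if_pos rfl] at he
  rw [← he] at hxr
  simp only at hxr
  rcases inj_tab k m hm j hj with h | h | ⟨h, h'⟩
  · have : (xhi (gadOf k) (2, j) : ℝ) < xlo (gadOf k) (2, m.1) := by exact_mod_cast h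
    linarith [hxr.2]
  · have : (xlo (gadOf k) (2, m.1) : ℝ) < xlo (gadOf k) (2, j) := by exact_mod_cast h
    linarith [hxr.1]
  · have hw : (gadOf k).1[j]? = some (gadOf k).1[j] := List.getElem?_eq_getElem hj
    rw [hw] at h h'
    simp only [Option.map_some, ne_eq, Option.some.injEq, Option.getD_some] at h h'
    have o1 := (ho j _ hw).1 h
    rw [cfg_inn lo ro o hw, if_neg h, Prod.mk.injEq] at he
    rcases h' with h' | h'
    · have : ((gadOf k).1[j].2.1 : ℝ) + 16 ≤ yF k m.1 := by exact_mod_cast h'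
      linarith [he.2]
    · have : (yF k m.1 : ℝ) ≤ ((gadOf k).1[j].2.1 : ℝ) := by exact_mod_cast h'
      linarith [he.2]

theorem loc_inj2 {k : ℕ} {lo ro o : ℕ → ℝ} {m m' : ℕ × Bool}
    (hm : m ∈ bars k) (hm' : m' ∈ bars k)
    (he : cfgX (gadOf k) lo ro o (fun i => (yF k i : ℝ)) (3, m.1) =
      cfgX (gadOf k) lo ro o (fun i => (yF k i : ℝ)) (3, m'.1)) : m.1 = m'.1 := by
  unfold cfgX at he
  rw [if_pos rfl, if_pos rfl, Prod.mk.injEq] at he
  obtain ⟨h1, h2⟩ := he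
  refine inj_tab2 k m hm m' hm' ?_ ?_
  · exact_mod_cast h1
  · simp only at h2
    exact_mod_cast h2

end Pool.Agent.H38SD
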