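import Pool.Agent.H38SD.Cpl

/-!
# Membership in the segments
-/

namespace Pool.Agent.H38SD

open Pool.Agent.K4H90.SegDraw

theorem vpts {X a b : ℚ} (hab : a ≤ b) {p : ℝ × ℝ} :
    p ∈ (⟨(X, a), (X, b), true⟩ : Seg).pts ↔ p.1 = X ∧ (a : ℝ) ≤ p.2 ∧ p.2 ≤ b := by
  have hab' : (a : ℝ) ≤ b := by exact_mod_cast hab
  unfold Seg.pts toR
  simp only [if_true]
  constructor
  · intro h
    have e1 := seg_lin (α := 1) (β := 0) (γ := (X : ℝ)) h (by simp) (by simp)
    have e2 := seg_lin (α := -1) (β := 0) (γ := - (X : ℝ)) h (by simp) (by simp)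
    have e3 := seg_lin (α := 0) (β := 1) (γ := (b : ℝ)) h (by simpa using hab') (by simp)
    have e4 := seg_lin (α := 0) (β := -1) (γ := - (a : ℝ)) h (by simp) (by simpa using hab')
    refine ⟨by linarith, by linarith, by linarith⟩
  · rintro ⟨h1, h2, h3⟩
    obtain ⟨x, y⟩ := p
    simp only at h1 h2 h3
    subst h1
    rcases hab'.eq_or_lt with hab | hab
    · have : y = (a : ℝ) := by linarith
      subst this
      exact left_mem_segment ℝ _ _
    · refine ⟨(b - y) / (b - a), (y - a) / (b - a), div_nonneg (by linarith) (by linarith),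
        div_nonneg (by linarith) (by linarith), ?_, ?_⟩
      · rw [← add_div, div_eq_one_iff_eq (by linarith)]
        ring
      · have hne : (b : ℝ) - a ≠ 0 := by linarith
        ext
        · simp only [Prod.fst_add, Prod.smul_fst, smul_eq_mul]
          field_simp
          ring
        · simp only [Prod.snd_add, Prod.smul_snd, smul_eq_mul]
          field_simp
          ring

theorem vpts' {X a b : ℚ} (hab : b ≤ a) {p : ℝ × ℝ} :
    p ∈ (⟨(X, a), (X, b), true⟩ : Seg).pts ↔ p.1 = X ∧ (b : ℝ) ≤ p.2 ∧ p.2 ≤ a := by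
  rw [← vpts hab]
  unfold Seg.pts
  simp only [if_true]
  rw [segment_symm]

theorem hpts {X Y c : ℚ} (hab : X < c) {p : ℝ × ℝ} :
    p ∈ (⟨(X, Y), (c, Y), true⟩ : Seg).pts ↔ p.2 = Y ∧ (X : ℝ) ≤ p.1 ∧ p.1 ≤ c := by
  have hab' : (X : ℝ) < c := by exact_mod_cast hab
  unfold Seg.pts toR
  simp only [if_true]
  constructor
  · intro h
    have e1 := seg_lin (α := 0) (β := 1) (γ := (Y : ℝ)) h (by simp) (by simp)
    have e2 := seg_lin (α := 0) (β := -1) (γ := - (Y : ℝ)) h (by simp) (by simp)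
    have e3 := seg_lin (α := 1) (β := 0) (γ := (c : ℝ)) h (by simpa using hab'.le) (by simp)
    have e4 := seg_lin (α := -1) (β := 0) (γ := - (X : ℝ)) h (by simp) (by simpa using hab'.le)
    refine ⟨by linarith, by linarith, by linarith⟩
  · rintro ⟨h1, h2, h3⟩
    refine mem_of_line hab' h2 h3 ?_
    simp only [h1, sub_self, zero_mul]

theorem segF0 {X Y : ℕ} {p : ℝ × ℝ} : p ∈ (segF X Y 0).pts ↔
    p.1 = X ∧ (Y : ℝ) ≤ p.2 ∧ p.2 ≤ (Y : ℝ) + 16 := by
  unfold segF
  rw [if_pos rfl, vpts (by push_cast; linarith)]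
  push_cast
  rfl

theorem segF2 {X Y : ℕ} {p : ℝ × ℝ} : p ∈ (segF X Y 2).pts ↔
    p.2 = Y ∧ (X : ℝ) ≤ p.1 ∧ p.1 ≤ (X : ℝ) + 3 := by
  unfold segF
  rw [if_neg (by norm_num), if_pos rfl, hpts (by push_cast; linarith)]
  push_cast
  rfl

theorem segF3 {X Y : ℕ} {p : ℝ × ℝ} : p ∈ (segF X Y 3).pts ↔
    p.1 = X ∧ (Y : ℝ) ≤ p.2 ∧ p.2 ≤ (Y : ℝ) + 8 := by
  unfold segF
  rw [if_neg (by norm_num), if_neg (by norm_num), if_pos rfl, vpts (by push_cast; linarith)]
  push_cast
  rfl

theorem segF4 {X Y : ℕ} {p : ℝ × ℝ} : p ∈ (segF X Y 4).pts ↔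
    p.1 = X ∧ (Y : ℝ) + 8 ≤ p.2 ∧ p.2 ≤ (Y : ℝ) + 16 := by
  unfold segF
  rw [if_neg (by norm_num), if_neg (by norm_num), if_neg (by norm_num), if_pos rfl,
    vpts (by push_cast; linarith)]
  push_cast
  rfl

theorem segF5 {X Y : ℕ} {p : ℝ × ℝ} : p ∈ (segF X Y 5).pts ↔
    p.1 = X ∧ (Y : ℝ) + 16 ≤ p.2 ∧ p.2 ≤ (Y : ℝ) + 17 := by
  unfold segF
  rw [if_neg (by norm_num), if_neg (by norm_num), if_neg (by norm_num), if_neg (by norm_num),
    if_pos rfl, vpts (by push_cast; linarith)]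
  push_cast
  rfl

theorem segF6 {X Y : ℕ} {p : ℝ × ℝ} : p ∈ (segF X Y 6).pts ↔
    p.1 = X ∧ (-1 : ℝ) ≤ p.2 ∧ p.2 ≤ (Y : ℝ) := by
  unfold segF
  have : (0 : ℚ) ≤ (Y : ℚ) := Nat.cast_nonneg _
  rw [if_neg (by norm_num), if_neg (by norm_num), if_neg (by norm_num), if_neg (by norm_num),
    if_neg (by norm_num), vpts' (by linarith)]
  push_cast
  rfl

theorem segPi {X Y b : ℕ} (hb : b ≤ 16) {p : ℝ × ℝ} : p ∈ (segP X Y b).pts ↔
    p.1 = X ∧ (Y : ℝ) + b ≤ p.2 ∧ p.2 ≤ (Y : ℝ) + 16 := by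
  unfold segP
  have : (b : ℚ) ≤ 16 := by exact_mod_cast hb
  rw [vpts (by push_cast; linarith)]
  push_cast
  rfl

theorem segF_closed (X Y kd : ℕ) : (segF X Y kd).closed = true ∧
    (segF X Y kd).p ≠ (segF X Y kd).q := by
  unfold segF
  have hY : (0 : ℚ) ≤ (Y : ℚ) := Nat.cast_nonneg _
  split_ifs
  · refine ⟨rfl, fun h => ?_⟩
    simp only [Prod.mk.injEq] at h
    have := h.2
    push_cast at this
    linarith
  · refine ⟨rfl, fun h => ?_⟩
    simp only [Prod.mk.injEq] at h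
    have := h.1
    push_cast at this
    linarith
  · refine ⟨rfl, fun h => ?_⟩
    simp only [Prod.mk.injEq] at h
    have := h.2
    push_cast at this
    linarith
  · refine ⟨rfl, fun h => ?_⟩
    simp only [Prod.mk.injEq] at h
    have := h.2
    push_cast at this
    linarith
  · refine ⟨rfl, fun h => ?_⟩
    simp only [Prod.mk.injEq] at h
    have := h.2
    push_cast at this
    linarith
  · refine ⟨rfl, fun h => ?_⟩
    simp only [Prod.mk.injEq] at h
    linarith [h.2]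

variable {d : Dat} {lb : ℕ → ℕ}

theorem all_closed (hlb : ∀ k, lb k < 16) : ∀ e ∈ (finst d lb).verts,
    e.2.closed = true ∧ e.2.p ≠ e.2.q := by
  intro e he
  rcases mem_finst.1 he with rfl | ⟨l, hl, b, hb, he⟩
  · refine ⟨rfl, fun h => ?_⟩
    norm_num at h
  · rcases mem_cellV.1 he with ⟨h0, rfl⟩ | ⟨i, w, h, rfl⟩ | ⟨m, hm, rfl⟩
    · refine ⟨rfl, fun h => ?_⟩
      unfold segP at h
      simp only [Prod.mk.injEq] at h
      have h2 := h.2
      have h3 : (if l = 0 then lb b else 0) < 16 := by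
        split_ifs
        · exact hlb b
        · norm_num
      have h4 : (((if l = 0 then lb b else 0 : ℕ)) : ℚ) < 16 := by exact_mod_cast h3
      push_cast at h2 h4
      linarith
    · exact segF_closed _ _ _
    · exact segF_closed _ _ _

/-- The positions of a configuration are on the segments. -/
theorem mem_allX (h : d.OK) {t : ℕ → ℕ → ℝ} {o : ℕ → ℕ → ℕ → ℝ} (hG : GoodX d t o)
    (ht0 : ∀ k < d.dia.N, d.grp k = k → (lb k : ℝ) ≤ t 0 k) (hlb : ∀ k, lb k ≤ 16)
    (hM : ∀ l < d.dia.C, ∀ b < d.dia.N, ∀ i w, (gadOf (d.gk l b)).1[i]? = some w →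
      (w.2.2.1 = 0 ∧ 0 < o l b i ∧ o l b i < 16) ∨
      (w.2.2.1 = 1 ∧ o l b i = 8) ∨
      (w.2.2.1 = 2 ∧ l ≠ 0 ∧ (w.1 : ℝ) < o l b i ∧ o l b i < (w.1 : ℝ) + 3)) :
    ∀ e ∈ (finst d lb).verts, posX d t o e.1 ∈ e.2.pts := by
  have hok := Dat.dia_ok h
  intro e he
  rcases mem_finst.1 he with rfl | ⟨l, hl, b, hb, he⟩
  · simp only
    rw [show root = nm 0 0 0 from rfl, posX_lt (by norm_num), show nm 0 0 0 = root from rfl,
      Dia.pos_root, show (⟨(-2, 0), (-1, 0), true⟩ : Seg) = ⟨((-2 : ℚ), (0 : ℚ)), ((-1 : ℚ),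
        (0 : ℚ)), true⟩ from rfl, hpts (by norm_num)]
    norm_num
  · rcases mem_cellV.1 he with ⟨h0, rfl⟩ | ⟨i, w, hw, rfl⟩ | ⟨m, hm, rfl⟩
    · simp only
      rw [posX_lt (by norm_num), Dia.pos_T, segPi (by split_ifs; exacts [hlb b, by norm_num])]
      have t1 := hG.good.ht l b
      refine ⟨by push_cast; ring, ?_, ?_⟩
      · by_cases hl0 : l = 0
        · subst hl0
          rw [if_pos rfl]
          have := ht0 b hb (h0 rfl)
          push_cast
          linarith
        · rw [if_neg hl0]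
          push_cast
          linarith
      · push_cast
        linarith
    · simp only
      have hi := (List.getElem?_eq_some_iff.1 hw).1
      have hlen := len_lt (d.gk l b)
      rw [posX_lt (by omega), Dia.pos_in]
      have hhb := Dia.hb_le hok l b
      have hq : d.dia.q t o l b (2, i) = if w.2.2.1 = 2 then (o l b i, (w.2.1 : ℝ)) else
        ((w.1 : ℝ), (w.2.1 : ℝ) + o l b i) := by
        unfold Dia.q
        exact cfg_inn _ _ _ hw
      rw [hq]
      unfold Dia.plc pl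
      have hbar : ∀ u : Bool, (i, u) ∈ bars (d.gk l b) → w.2.2.1 = 1 := by
        intro u hu
        have := (bars_ok _ _ hu).2.1
        simp only at this
        rw [hw] at this
        simpa using this
      rcases hM l hl b hb i w hw with ⟨h1, h2, h3⟩ | ⟨h1, h2⟩ | ⟨h1, h2, h3, h4⟩
      · rw [if_neg (by omega)]
        have hkd : kd (bars (d.gk l b)) w i = 0 := by
          unfold kd
          rw [if_neg (by omega), if_neg (fun hu => by have := hbar _ hu; omega),
            if_neg (fun hu => by have := hbar _ hu; omega), if_neg (by omega)]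
        rw [hkd, segF0]
        refine ⟨by push_cast; ring, ?_, ?_⟩ <;> push_cast [Nat.cast_sub hhb] <;> linarith
      · rw [if_neg (by omega), h2]
        unfold kd
        rw [if_neg (by omega)]
        split_ifs
        · rw [segF3]
          refine ⟨by push_cast; ring, ?_, ?_⟩ <;> push_cast [Nat.cast_sub hhb] <;> linarith
        · rw [segF4]
          refine ⟨by push_cast; ring, ?_, ?_⟩ <;> push_cast [Nat.cast_sub hhb] <;> linarith
        · rw [segF3]
          refine ⟨by push_cast; ring, ?_, ?_⟩ <;> push_cast [Nat.cast_sub hhb] <;> linarith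
      · rw [if_pos h1]
        have e0 : d.dia.hb l b = b := Dia.hb_pos h2 b
        unfold kd
        rw [if_pos h1, segF2, e0, Nat.sub_self, sub_self]
        refine ⟨?_, ?_, ?_⟩ <;> push_cast <;> linarith
    · simp only
      rw [posX_far]
      have hhb := Dia.hb_le hok l b
      have hu : m.2 = true → (m.1, true) ∈ bars (d.gk l b) := by
        intro h1
        rw [← h1]
        exact hm
      have hnu : m.2 ≠ true → (m.1, true) ∉ bars (d.gk l b) := by
        intro h1 h2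
        have key : ∀ k, ∀ m ∈ bars k, m.2 ≠ true → (m.1, true) ∉ bars k := by
          intro k
          rcases Nat.lt_or_ge k 5 with hk | hk
          · interval_cases k <;> decide
          · intro m hm
            rw [big_bars hk] at hm
            simp at hm
        exact key _ m hm h1 h2
      unfold Dia.plc pl yF
      by_cases hm2 : m.2 = true
      · rw [if_pos hm2, segF5, if_pos (hu hm2)]
        refine ⟨by push_cast; ring, ?_, ?_⟩ <;> push_cast [Nat.cast_sub hhb] <;> linarith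
      · rw [if_neg hm2, segF6, if_neg (hnu hm2)]
        have hp : (0 : ℝ) ≤ 192 * (d.dia.hb l b : ℝ) + ((((gadOf (d.gk l b)).1[m.1]?).map
          fun w => w.2.1).getD 0 : ℕ) + 16 * ((b : ℝ) - (d.dia.hb l b : ℝ)) *
            (xlo (gadOf (d.gk l b)) (2, m.1) : ℝ) := by
          have h1 : (0 : ℝ) ≤ (b : ℝ) - (d.dia.hb l b : ℝ) := by
            have : (d.dia.hb l b : ℝ) ≤ (b : ℝ) := by exact_mod_cast hhb
            linarith
          positivity
        refine ⟨by push_cast; ring, ?_, ?_⟩ <;> push_cast [Nat.cast_sub hhb] <;> linarith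

/-- Completeness. -/
theorem completeX (h : d.OK) {s : ℕ → ℝ} (hs : ∀ k, 0 < s k ∧ s k < 1)
    (hlb : ∀ k, lb k ≤ 16) (hsl : ∀ k < 3 * d.T, d.grp k = k → (lb k : ℝ) ≤ 16 * s k)
    (hT : d.Tests s)
    (hmid : ∀ τ < d.T, d.ks τ = true → 2 / 5 < d.lit s (d.tr d.L (3 * τ)) ∧
      d.lit s (d.tr d.L (3 * τ)) < 3 / 5) : (finst d lb).Solvable := by
  obtain ⟨t, o, hG, ht, hM⟩ := complete_cfg h hs hT hmid
  have hGX : GoodX d t o := by
    refine ⟨hG, ?_, ?_⟩
    · intro l hl b hb i w hw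
      rcases hM l hl b hb i w hw with ⟨h1, h2⟩ | ⟨h1, h2⟩ | ⟨h1, -, h2⟩
      · exact ⟨fun _ => h2, fun h3 => by omega⟩
      · refine ⟨fun _ => ?_, fun h3 => by omega⟩
        rw [h2]; norm_num
      · exact ⟨fun h3 => (h3 h1).elim, fun _ => h2⟩
    · intro l hl b hb h4
      have hw : (gadOf (d.gk l b)).1[11]? = some (4, 8, 1, [], [(2, 10)]) := by
        rw [h4]
        rfl
      rcases hM l hl b hb 11 _ hw with ⟨h1, h2⟩ | ⟨h1, h2⟩ | ⟨h1, -, h2⟩
      · simp at h1
      · exact h2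
      · simp at h1
  refine ⟨posX d t o, isDrawingX h hGX lb, mem_allX h hGX ?_ hlb hM, ?_⟩
  · intro k hk hg
    rw [ht]
    exact hsl k hk hg
  · intro u v _ s hs
    simp [finst] at hs

end Pool.Agent.H38SD
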