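import Pool.Agent.H38SD.SndD

/-!
# From a strict system to an instance
-/

namespace Pool.Agent.H38SD

open Pool.Agent.K4H90.SegDraw Pool.Agent.NPC Pool.Agent.NPC.ER

/-- Renaming of variables: `(0, 2)` becomes the new constant `7/16`. -/
def psi (x : ℕ × ℕ) : ℕ × ℕ := if x.1 = 0 ∧ 2 ≤ x.2 then (0, x.2 + 1) else x

/-- The constants are used only positively. -/
def phi (l : Lit) : Lit :=
  if l.1 = (0, 0) then ((0, 0), true) else
  if l.1 = (0, 1) then (if l.2 = true then ((0, 1), true) else ((0, 2), true)) else (psi l.1, l.2)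

/-- The translation of a constraint. -/
def fixC (c : SCon) : SCon := (c.1, phi c.2.1, phi c.2.2.1, phi c.2.2.2)

/-- The lower bound of the source of a variable. -/
def lbV (x : ℕ × ℕ) : ℕ :=
  if x = (0, 0) then 8 else if x = (0, 1) then 9 else if x = (0, 2) then 7 else 0

/-- The lower bound of the source of a track. -/
def lbOf (cs : List SCon) (k : ℕ) : ℕ := lbV (tvar cs k)

/-- The strict system. -/
def strictX (S : List ER.Con) : List SCon := (strict S).map fixC

theorem lbV_lt (x : ℕ × ℕ) : lbV x < 16 := by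
  unfold lbV
  split_ifs <;> norm_num

theorem lval_phi {v : ℕ × ℕ → ℝ} (h0 : v (0, 0) = 1 / 2) (h1 : v (0, 1) = 9 / 16)
    (h2 : v (0, 2) = 7 / 16) (l : Lit) : lval v (phi l) = lval (fun x => v (psi x)) l := by
  unfold phi lval
  by_cases c0 : l.1 = (0, 0)
  · rw [if_pos c0]
    simp only [c0, psi]
    norm_num
    rw [h0]
    norm_num
  · rw [if_neg c0]
    by_cases c1 : l.1 = (0, 1)
    · rw [if_pos c1]
      simp only [c1, psi]
      by_cases c2 : l.2 = true
      · simp [c2]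
      · simp [c2, h1, h2]
        norm_num
    · rw [if_neg c1]

theorem SHolds_fixC {v : ℕ × ℕ → ℝ} (h0 : v (0, 0) = 1 / 2) (h1 : v (0, 1) = 9 / 16)
    (h2 : v (0, 2) = 7 / 16) (c : SCon) : SHolds v (fixC c) ↔ SHolds (fun x => v (psi x)) c := by
  unfold SHolds fixC
  simp only
  rw [lval_phi h0 h1 h2, lval_phi h0 h1 h2, lval_phi h0 h1 h2]

theorem mid_fixC {v : ℕ × ℕ → ℝ} (h0 : v (0, 0) = 1 / 2) (h1 : v (0, 1) = 9 / 16)
    (h2 : v (0, 2) = 7 / 16) (c : SCon) : mid v (fixC c) ↔ mid (fun x => v (psi x)) c := by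
  unfold mid fixC
  simp only
  rw [lval_phi h0 h1 h2]

theorem phi_pos (l : Lit) (h : lbV (phi l).1 ≠ 0) : (phi l).2 = true := by
  unfold phi at h ⊢
  by_cases c0 : l.1 = (0, 0)
  · rw [if_pos c0]
  · rw [if_neg c0] at h ⊢
    by_cases c1 : l.1 = (0, 1)
    · rw [if_pos c1]
      split_ifs <;> rfl
    · exfalso
      rw [if_neg c1] at h
      apply h
      obtain ⟨⟨a, b⟩, s⟩ := l
      simp only [Prod.mk.injEq, not_and] at c0 c1
      unfold lbV psi
      simp only
      by_cases c : a = 0 ∧ 2 ≤ b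
      · rw [if_pos c]
        rw [if_neg (by simp), if_neg (by simp; omega), if_neg (by simp; omega)]
      · rw [if_neg c]
        rw [if_neg (by simp only [Prod.mk.injEq]; omega), if_neg (by simp only [Prod.mk.injEq]; omega),
          if_neg (by simp only [Prod.mk.injEq]; omega)]

/-- The values with exact constants. -/
noncomputable def exactV (v : ℕ × ℕ → ℝ) (x : ℕ × ℕ) : ℝ :=
  if lbV x = 0 then v x else (lbV x : ℝ) / 16

theorem shold_mono {k : Bool} {x y z x' y' z' : ℝ} (h : shold k x y z) (hx : x' ≤ x) (hy : y' ≤ y)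
    (hz : z' ≤ z) (hx0 : 0 ≤ x') (hy0 : 0 ≤ y') : shold k x' y' z' := by
  unfold shold at h ⊢
  split_ifs at h ⊢
  · have : (1 + y') * x' ≤ (1 + y) * x := mul_le_mul (by linarith) hx hx0 (by linarith)
    linarith
  · linarith

theorem exact_holds {v : ℕ × ℕ → ℝ} (h01 : ∀ x, 0 ≤ v x ∧ v x ≤ 1)
    (hlb : ∀ x, (lbV x : ℝ) ≤ 16 * v x) {c : SCon} (h : SHolds v (fixC c)) :
    SHolds (exactV v) (fixC c) := by
  have key : ∀ l : Lit, lval (exactV v) (phi l) ≤ lval v (phi l) ∧
      0 ≤ lval (exactV v) (phi l) := by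
    intro l
    have h1 := h01 (phi l).1
    have h2 := hlb (phi l).1
    have hp := phi_pos l
    unfold lval exactV
    by_cases c0 : lbV (phi l).1 = 0
    · rw [if_pos c0]
      split_ifs <;> constructor <;> linarith
    · rw [if_neg c0, if_pos (hp c0), if_pos (hp c0)]
      constructor
      · linarith
      · positivity
  unfold SHolds fixC at h ⊢
  simp only at h ⊢
  exact shold_mono h (key _).1 (key _).1 (key _).1 (key _).2 (key _).2

theorem strictX_ne_nil (S : List ER.Con) : strictX S ≠ [] := by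
  unfold strictX
  simp [strict_ne_nil]

theorem strictX_complete {S : List ER.Con} (h : Sat S) :
    ∃ v : ℕ × ℕ → ℝ, (∀ x, 0 < v x ∧ v x < 1) ∧ (∀ x, (lbV x : ℝ) ≤ 16 * v x) ∧
      ∀ c ∈ strictX S, SHolds v c ∧ mid v c := by
  obtain ⟨v, hv, h0, h1, hc⟩ := strict_complete h
  set v' : ℕ × ℕ → ℝ := fun x => if x = (0, 2) then 7 / 16 else
    v (if x.1 = 0 ∧ 3 ≤ x.2 then (0, x.2 - 1) else x) with hv'
  have e0 : v' (0, 0) = 1 / 2 := by rw [hv']; simp [h0]
  have e1 : v' (0, 1) = 9 / 16 := by rw [hv']; simp [h1]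
  have e2 : v' (0, 2) = 7 / 16 := by rw [hv']; simp
  have e3 : (fun x => v' (psi x)) = v := by
    funext x
    obtain ⟨a, b⟩ := x
    rw [hv']
    unfold psi
    simp only
    by_cases c : a = 0 ∧ 2 ≤ b
    · rw [if_pos c, if_neg (by simp only [Prod.mk.injEq]; omega), if_pos ⟨rfl, by simp only; omega⟩]
      simp only [Nat.add_sub_cancel]
      rw [c.1]
    · rw [if_neg c, if_neg (by simp only [Prod.mk.injEq]; omega), if_neg (by simp only; omega)]
  have hv01 : ∀ x, 0 < v' x ∧ v' x < 1 := by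
    intro x
    rw [hv']
    simp only
    split_ifs
    · norm_num
    · exact hv _
    · exact hv _
  refine ⟨v', hv01, ?_, ?_⟩
  · intro x
    unfold lbV
    by_cases c0 : x = (0, 0)
    · rw [if_pos c0, c0, e0]; norm_num
    rw [if_neg c0]
    by_cases c1 : x = (0, 1)
    · rw [if_pos c1, c1, e1]; norm_num
    rw [if_neg c1]
    by_cases c2 : x = (0, 2)
    · rw [if_pos c2, c2, e2]; norm_num
    rw [if_neg c2]
    have := hv01 x
    push_cast
    linarith
  · intro c hcm
    unfold strictX at hcm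
    rw [List.mem_map] at hcm
    obtain ⟨c, hcm, rfl⟩ := hcm
    rw [SHolds_fixC e0 e1 e2, mid_fixC e0 e1 e2, e3]
    exact hc c hcm

theorem strictX_sound {S : List ER.Con} {v : ℕ × ℕ → ℝ} (h01 : ∀ x, 0 ≤ v x ∧ v x ≤ 1)
    (hlb : ∀ x, (lbV x : ℝ) ≤ 16 * v x) (h : ∀ c ∈ strictX S, SHolds v c) : Sat S := by
  have e0 : exactV v (0, 0) = 1 / 2 := by
    have : lbV (0, 0) = 8 := rfl
    unfold exactV
    rw [this]; norm_num
  have e1 : exactV v (0, 1) = 9 / 16 := by
    have : lbV (0, 1) = 9 := rfl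
    unfold exactV
    rw [this]; norm_num
  have e2 : exactV v (0, 2) = 7 / 16 := by
    have : lbV (0, 2) = 7 := rfl
    unfold exactV
    rw [this]; norm_num
  have h01' : ∀ x, 0 ≤ exactV v x ∧ exactV v x ≤ 1 := by
    intro x
    have h1 := h01 x
    have h2 : ((lbV x : ℕ) : ℝ) < 16 := by exact_mod_cast lbV_lt x
    have h3 : (0 : ℝ) ≤ (lbV x : ℝ) := Nat.cast_nonneg _
    unfold exactV
    split_ifs
    · exact h1
    · constructor <;> linarith
  refine strict_sound (v := fun x => exactV v (psi x)) (fun x => h01' _) ?_ ?_ ?_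
  · exact e0
  · exact e1
  · intro c hc
    rw [← SHolds_fixC e0 e1 e2]
    exact exact_holds h01 hlb (h _ (List.mem_map.2 ⟨c, hc, rfl⟩))

theorem solvable_ofX (cs : List SCon) (h0 : cs ≠ []) {v : ℕ × ℕ → ℝ}
    (hv : ∀ x, 0 < v x ∧ v x < 1) (hlb : ∀ x, (lbV x : ℝ) ≤ 16 * v x)
    (hc : ∀ c ∈ cs, SHolds v c ∧ mid v c) :
    (finst (datOf cs) (lbOf cs)).Solvable := by
  set s : ℕ → ℝ := fun k => v (tvar cs k) with hs
  have hs' : ∀ k < 3 * cs.length, s ((datOf cs).grp k) = v (tvar cs k) := fun k hk => by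
    rw [hs]
    simp only
    rw [(tvar_grp cs hk).2]
  refine completeX (datOf_ok h0) (s := s) (fun k => hv _) (fun k => (lbV_lt _).le) ?_
    ((tests_iff cs h0 hs').2 fun c h => (hc c h).1) ?_
  · intro k _ _
    exact hlb _
  · intro τ hτ hkτ
    have hτ' : τ < cs.length := hτ
    obtain ⟨l0, l1, l2⟩ := litsOf_get cs τ _ (List.getElem?_eq_getElem hτ')
    rw [lit_final cs hs' (by omega) l0 h0]
    refine (hc _ (List.getElem_mem hτ')).2 ?_
    have e : (datOf cs).ks τ = (cs[τ]).1 := by simp [datOf, hτ']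
    rw [← e]
    exact hkτ

theorem of_solvableX (cs : List SCon) (h0 : cs ≠ [])
    (h : (finst (datOf cs) (lbOf cs)).Solvable) :
    ∃ v : ℕ × ℕ → ℝ, (∀ x, 0 ≤ v x ∧ v x ≤ 1) ∧ (∀ x, (lbV x : ℝ) ≤ 16 * v x) ∧
      ∀ c ∈ cs, SHolds v c := by
  classical
  obtain ⟨s, hs, hl, hT⟩ := soundX (datOf_ok h0) (fun k => (lbV_lt _).le) h
  set v : ℕ × ℕ → ℝ := fun x => if hx : ∃ k, k < 3 * cs.length ∧ tvar cs k = x then
    s ((datOf cs).grp hx.choose) else 9 / 16 with hv
  have hvk : ∀ k < 3 * cs.length, v (tvar cs k) = s ((datOf cs).grp k) := by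
    intro k hk
    have hx : ∃ k', k' < 3 * cs.length ∧ tvar cs k' = tvar cs k := ⟨k, hk, rfl⟩
    rw [hv]
    simp only
    rw [dif_pos hx]
    rw [grp_of_tvar cs hx.choose_spec.1 hk hx.choose_spec.2]
  refine ⟨v, ?_, ?_, (tests_iff cs h0 fun k hk => (hvk k hk).symm).1 hT⟩
  · intro x
    rw [hv]
    simp only
    split_ifs
    · exact hs _
    · norm_num
  · intro x
    by_cases hx : ∃ k, k < 3 * cs.length ∧ tvar cs k = x
    · obtain ⟨k, hk, rfl⟩ := hx
      obtain ⟨g1, g2⟩ := tvar_grp cs hk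
      rw [hvk k hk]
      have := hl _ g1 (grpL_idem _ _)
      rw [g2] at this
      exact this
    · rw [hv]
      simp only
      rw [dif_neg hx]
      have h1 : lbV x ≤ 9 := by
        unfold lbV
        split_ifs <;> norm_num
      have h2 : ((lbV x : ℕ) : ℝ) ≤ 9 := by exact_mod_cast h1
      linarith

/-- The reduction. -/
def redX (S : List ER.Con) : FInst := finst (datOf (strictX S)) (lbOf (strictX S))

theorem redX_correct (S : List ER.Con) : Sat S ↔ (redX S).Solvable := by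
  constructor
  · intro h
    obtain ⟨v, hv, hlb, hc⟩ := strictX_complete h
    exact solvable_ofX _ (strictX_ne_nil S) hv hlb hc
  · intro h
    obtain ⟨v, hv, hlb, hc⟩ := of_solvableX _ (strictX_ne_nil S) h
    exact strictX_sound hv hlb hc

theorem redX_planar (S : List ER.Con) : (redX S).Planar :=
  planarX (datOf_ok (strictX_ne_nil S)) _

theorem redX_closed (S : List ER.Con) : ∀ e ∈ (redX S).verts,
    e.2.closed = true ∧ e.2.p ≠ e.2.q := all_closed (fun _ => lbV_lt _)

end Pool.Agent.H38SD
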