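import Pool.Agent.K4H90.Seg.PolyB
import Pool.Agent.H38SD.NetX

/-!
# The reduction is computable in polynomial time
-/

namespace Pool.Agent.NPC.H38SDP

open Pool.Agent.H38SD Pool.Agent.K4H90.SegDraw Pool.Agent.NPC.K4H90Seg Pool.Agent.NPC.ER

section

variable {α : Type} [TEnc α]

theorem poly_psi {x : α → ℕ × ℕ} (hx : Poly x) : Poly (fun a => psi (x a)) := by
  unfold psi
  exact Poly.ite (Poly.decide_and (Poly.decide_eq (Poly.fst hx) (Poly.const 0))
    (Poly.decide_le (Poly.const 2) (Poly.snd hx)))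
    (Poly.pair (Poly.const 0) (Poly.succ (Poly.snd hx))) hx

theorem poly_phi {l : α → Lit} (hl : Poly l) : Poly (fun a => phi (l a)) := by
  unfold phi
  exact Poly.ite (Poly.decide_eq (Poly.fst hl) (Poly.const (0, 0))) (Poly.const ((0, 0), true))
    (Poly.ite (Poly.decide_eq (Poly.fst hl) (Poly.const (0, 1)))
      (Poly.ite (Poly.decide_bool (Poly.snd hl)) (Poly.const ((0, 1), true))
        (Poly.const ((0, 2), true)))
      (Poly.pair (poly_psi (Poly.fst hl)) (Poly.snd hl)))

theorem poly_fixC {c : α → SCon} (hc : Poly c) : Poly (fun a => fixC (c a)) :=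
  Poly.pair (Poly.fst hc) (Poly.pair (poly_phi (Poly.fst (Poly.snd hc)))
    (Poly.pair (poly_phi (Poly.fst (Poly.snd (Poly.snd hc))))
      (poly_phi (Poly.snd (Poly.snd (Poly.snd hc))))))

theorem poly_strictX {S : α → List ER.Con} (hS : Poly S) : Poly (fun a => strictX (S a)) :=
  Poly.map (F := fun (_ : α) c => fixC c) (poly_strict hS) (poly_fixC (Poly.snd Poly.id))

theorem poly_lbV {x : α → ℕ × ℕ} (hx : Poly x) : Poly (fun a => lbV (x a)) := by
  unfold lbV
  exact Poly.ite (Poly.decide_eq hx (Poly.const (0, 0))) (Poly.const 8)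
    (Poly.ite (Poly.decide_eq hx (Poly.const (0, 1))) (Poly.const 9)
      (Poly.ite (Poly.decide_eq hx (Poly.const (0, 2))) (Poly.const 7) (Poly.const 0)))

theorem poly_segF {X Y k : α → ℕ} (hX : Poly X) (hY : Poly Y) (hk : Poly k) :
    Poly (fun a => segF (X a) (Y a) (k a)) := by
  unfold segF
  have hcl : Poly (fun _ : α => true) := Poly.const true
  have x := poly_natRat hX
  have y := poly_natRat hY
  have y16 := poly_natRat (Poly.add hY (Poly.const 16))
  have y17 := poly_natRat (Poly.add hY (Poly.const 17))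
  have y8 := poly_natRat (Poly.add hY (Poly.const 8))
  have x3 := poly_natRat (Poly.add hX (Poly.const 3))
  have ym : Poly (fun _ : α => (-1 : ℚ)) := Poly.const _
  refine Poly.ite (Poly.decide_eq hk (Poly.const 0))
    (poly_seg (Poly.pair x y) (Poly.pair x y16) hcl) ?_
  refine Poly.ite (Poly.decide_eq hk (Poly.const 2))
    (poly_seg (Poly.pair x y) (Poly.pair x3 y) hcl) ?_
  refine Poly.ite (Poly.decide_eq hk (Poly.const 3))
    (poly_seg (Poly.pair x y) (Poly.pair x y8) hcl) ?_
  refine Poly.ite (Poly.decide_eq hk (Poly.const 4))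
    (poly_seg (Poly.pair x y8) (Poly.pair x y16) hcl) ?_
  refine Poly.ite (Poly.decide_eq hk (Poly.const 5))
    (poly_seg (Poly.pair x y16) (Poly.pair x y17) hcl) ?_
  exact poly_seg (Poly.pair x y) (Poly.pair x ym) hcl

theorem poly_segP {X Y b : α → ℕ} (hX : Poly X) (hY : Poly Y) (hb : Poly b) :
    Poly (fun a => segP (X a) (Y a) (b a)) := by
  unfold segP
  have x := poly_natRat hX
  have y := poly_natRat (Poly.add hY hb)
  have y16 := poly_natRat (Poly.add hY (Poly.const 16))
  exact poly_seg (Poly.pair x y) (Poly.pair x y16) (Poly.const true)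

theorem vtab_eq (k : ℕ) : vtab k = if k = 0 then vtab 0 else if k = 1 then vtab 1 else
    if k = 2 then vtab 2 else if k = 3 then vtab 3 else if k = 4 then vtab 4 else vtab 5 := by
  split_ifs with h0 h1 h2 h3 h4
  · rw [h0]
  · rw [h1]
  · rw [h2]
  · rw [h3]
  · rw [h4]
  · unfold vtab
    rw [big_bars (by omega : 5 ≤ k), big_bars (le_refl 5)]
    unfold gadOf
    rw [if_neg h0, if_neg h1, if_neg h2, if_neg h3, if_neg h4]
    rfl

theorem eX_eq (k : ℕ) : eX k = if k = 0 then eX 0 else if k = 1 then eX 1 else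
    if k = 2 then eX 2 else if k = 3 then eX 3 else if k = 4 then eX 4 else eX 5 := by
  split_ifs with h0 h1 h2 h3 h4
  · rw [h0]
  · rw [h1]
  · rw [h2]
  · rw [h3]
  · rw [h4]
  · unfold eX
    rw [big_vT (by omega : 5 ≤ k), big_vT (le_refl 5)]
    unfold gadOf
    rw [if_neg h0, if_neg h1, if_neg h2, if_neg h3, if_neg h4]
    rfl

theorem poly_code {β : Type} [TEnc β] {k : α → ℕ} (hk : Poly k) (b0 b1 b2 b3 b4 b5 : β) :
    Poly (fun a => if k a = 0 then b0 else if k a = 1 then b1 else if k a = 2 then b2 else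
      if k a = 3 then b3 else if k a = 4 then b4 else b5) :=
  Poly.ite (Poly.decide_eq hk (Poly.const 0)) (Poly.const _)
    (Poly.ite (Poly.decide_eq hk (Poly.const 1)) (Poly.const _)
    (Poly.ite (Poly.decide_eq hk (Poly.const 2)) (Poly.const _)
    (Poly.ite (Poly.decide_eq hk (Poly.const 3)) (Poly.const _)
    (Poly.ite (Poly.decide_eq hk (Poly.const 4)) (Poly.const _) (Poly.const _)))))

theorem poly_vtab {k : α → ℕ} (hk : Poly k) : Poly (fun a => vtab (k a)) :=
  (poly_code hk (vtab 0) (vtab 1) (vtab 2) (vtab 3) (vtab 4) (vtab 5)).congr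
    fun a => (vtab_eq (k a)).symm

theorem poly_eX {k : α → ℕ} (hk : Poly k) : Poly (fun a => eX (k a)) :=
  (poly_code hk (eX 0) (eX 1) (eX 2) (eX 3) (eX 4) (eX 5)).congr
    fun a => (eX_eq (k a)).symm

variable {cs : α → List SCon}

theorem poly_lbOf (hc : Poly cs) {k : α → ℕ} (hk : Poly k) :
    Poly (fun a => lbOf (cs a) (k a)) :=
  poly_lbV (Poly.getD (poly_varsOf hc) (Poly.getD (poly_st0 (poly_varsOf hc)) hk (Poly.const 0))
      (Poly.const (0, 0)))

theorem poly_resX (hc : Poly cs) {l b : α → ℕ} {r : α → Ref} (hl : Poly l) (hb : Poly b)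
    (hr : Poly r) : Poly (fun a => resX (datOf (cs a)) (l a) (b a) (r a)) := by
  unfold resX
  exact Poly.ite (Poly.decide_eq (Poly.fst hr) (Poly.const 3))
    (poly_nm (Poly.add (Poly.const 102) (Poly.snd hr)) hl hb) (poly_res hc hl hb hr)

theorem poly_cellV (hc : Poly cs) {l b : α → ℕ} (hl : Poly l) (hb : Poly b) :
    Poly (fun a => cellV (datOf (cs a)) (lbOf (cs a)) (l a) (b a)) := by
  unfold cellV
  have hh := poly_hb hc hl hb
  refine Poly.append ?_ ?_
  · refine Poly.ite (Poly.decide_and (Poly.decide_eq hl (Poly.const 0))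
      (Poly.decide_not (Poly.decide_eq (poly_grp hc hb) hb))) (Poly.const [])
      (Poly.cons (Poly.pair (poly_nm (Poly.const 1) hl hb) ?_) (Poly.const []))
    exact poly_segP (Poly.mul (Poly.const 12) hl) (Poly.mul (Poly.const 192) hb)
      (Poly.ite (Poly.decide_eq hl (Poly.const 0)) (poly_lbOf hc hb) (Poly.const 0))
  · refine Poly.map (F := fun a (r : ℕ × ℕ × ℕ × ℕ) => (nm r.1 (l a) (b a),
      segF (12 * l a + r.2.1) (192 * (datOf (cs a)).dia.hb (l a) (b a) + r.2.2.1 +
        16 * (b a - (datOf (cs a)).dia.hb (l a) (b a)) * r.2.1) r.2.2.2))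
      (poly_vtab (poly_gk hc hl hb)) ?_
    have hl' : Poly (fun p : α × (ℕ × ℕ × ℕ × ℕ) => l p.1) := hl.comp (Poly.fst Poly.id)
    have hb' : Poly (fun p : α × (ℕ × ℕ × ℕ × ℕ) => b p.1) := hb.comp (Poly.fst Poly.id)
    have hh' : Poly (fun p : α × (ℕ × ℕ × ℕ × ℕ) =>
      (datOf (cs p.1)).dia.hb (l p.1) (b p.1)) := hh.comp (Poly.fst Poly.id)
    have r0 : Poly (fun p : α × (ℕ × ℕ × ℕ × ℕ) => p.2) := Poly.snd Poly.id
    have r1 := Poly.fst r0
    have r2 := Poly.fst (Poly.snd r0)
    have r3 := Poly.fst (Poly.snd (Poly.snd r0))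
    have r4 := Poly.snd (Poly.snd (Poly.snd r0))
    refine Poly.pair (poly_nm r1 hl' hb') (poly_segF (Poly.add (Poly.mul (Poly.const 12) hl') r2)
      ?_ r4)
    exact Poly.add (Poly.add (Poly.mul (Poly.const 192) hh') r3)
      (Poly.mul (Poly.mul (Poly.const 16) (Poly.sub hb' hh')) r2)

theorem poly_cellE (hc : Poly cs) {l b : α → ℕ} (hl : Poly l) (hb : Poly b) :
    Poly (fun a => cellE (datOf (cs a)) (l a) (b a)) := by
  unfold cellE
  refine Poly.map (F := fun a (e : Ref × Ref) => (resX (datOf (cs a)) (l a) (b a) e.1,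
    resX (datOf (cs a)) (l a) (b a) e.2)) (poly_eX (poly_gk hc hl hb)) ?_
  have hc' : Poly (fun p : α × (Ref × Ref) => cs p.1) := hc.comp (Poly.fst Poly.id)
  have hl' : Poly (fun p : α × (Ref × Ref) => l p.1) := hl.comp (Poly.fst Poly.id)
  have hb' : Poly (fun p : α × (Ref × Ref) => b p.1) := hb.comp (Poly.fst Poly.id)
  exact Poly.pair (poly_resX hc' hl' hb' (Poly.fst (Poly.snd Poly.id)))
    (poly_resX hc' hl' hb' (Poly.snd (Poly.snd Poly.id)))

theorem poly_finst (hc : Poly cs) : Poly (fun a => finst (datOf (cs a)) (lbOf (cs a))) := by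
  have hc' : Poly (fun p : α × ℕ => cs p.1) := hc.comp (Poly.fst Poly.id)
  have h1 : Poly (fun a => (((root, (⟨(-2, 0), (-1, 0), true⟩ : Seg)) ::
      (List.range (datOf (cs a)).dia.C).flatMap fun l =>
        (List.range (datOf (cs a)).dia.N).flatMap fun b =>
          cellV (datOf (cs a)) (lbOf (cs a)) l b))) := by
    refine Poly.cons (Poly.const _) ?_
    refine Poly.flatMap (F := fun a l =>
      (List.range (datOf (cs a)).dia.N).flatMap fun b => cellV (datOf (cs a)) (lbOf (cs a)) l b)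
      (upoly_C hc).range ?_
    refine Poly.flatMap (F := fun (p : α × ℕ) b => cellV (datOf (cs p.1)) (lbOf (cs p.1)) p.2 b)
      (upoly_N hc').range ?_
    exact poly_cellV (hc'.comp (Poly.fst Poly.id)) (Poly.snd (Poly.fst Poly.id))
      (Poly.snd Poly.id)
  have h2 : Poly (fun a => ((datOf (cs a)).dia.rootR.map fun v => (root, v)) ++
      (List.range (datOf (cs a)).dia.C).flatMap fun l =>
        (List.range (datOf (cs a)).dia.N).flatMap fun b => cellE (datOf (cs a)) l b) := by
    refine Poly.append ?_ ?_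
    · exact Poly.map (F := fun (_ : α) (v : ℕ) => (root, v)) (poly_rootR hc)
        (Poly.pair (Poly.const root) (Poly.snd Poly.id))
    · refine Poly.flatMap (F := fun a l =>
        (List.range (datOf (cs a)).dia.N).flatMap fun b => cellE (datOf (cs a)) l b)
        (upoly_C hc).range ?_
      refine Poly.flatMap (F := fun (p : α × ℕ) b => cellE (datOf (cs p.1)) p.2 b)
        (upoly_N hc').range ?_
      exact poly_cellE (hc'.comp (Poly.fst Poly.id)) (Poly.snd (Poly.fst Poly.id))
        (Poly.snd Poly.id)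
  exact Poly.of_toT ((Poly.pair h1 (Poly.pair h2 (Poly.const ([] : List Seg)))).toT')

end

theorem poly_redX : Poly redX := poly_finst (poly_strictX Poly.id)

end Pool.Agent.NPC.H38SDP
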