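import Pool.Agent.H38SD.SndG

/-!
# Soundness
-/

namespace Pool.Agent.H38SD

open Pool.Agent.K4H90.SegDraw

theorem disj_of_pl {X Y s : ℝ} {P Q P' Q' : ℝ × ℝ}
    (h : Disj (pl X Y s P) (pl X Y s Q) (pl X Y s P') (pl X Y s Q')) : Disj P Q P' Q' :=
  fun p hp hp' => h (pl X Y s p) (mem_segment_pl.2 hp) (mem_segment_pl.2 hp')

variable {d : Dat} {lb : ℕ → ℕ}

theorem resX_inj {l b : ℕ} {r r' : Ref} (h1 : XR (d.gk l b) r) (h2 : XR (d.gk l b) r')
    (he : resX d l b r = resX d l b r') : r = r' := by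
  have hlen := len_lt (d.gk l b)
  rcases h1 with h1 | ⟨h3, m, hm, hmr⟩
  · rcases h2 with h2 | ⟨h3', m', hm', hmr'⟩
    · rw [resX_old (ref_ne3 h1), resX_old (ref_ne3 h2)] at he
      exact Dia.res_inj h1 h2 he
    · obtain ⟨a', i'⟩ := r'
      simp only at h3' hmr'
      subst h3' hmr'
      exfalso
      rw [resX_old (ref_ne3 h1), resX_new] at he
      rcases Dia.ref_cases h1 with ⟨i, hi, rfl⟩ | ⟨i, hi, rfl⟩ | ⟨i, hi, rfl⟩
      · rw [Dia.res_lp, nm_inj] at he
        omega
      · rw [Dia.res_rp, nm_inj] at he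
        omega
      · rw [Dia.res_in, nm_inj] at he
        omega
  · obtain ⟨a, i⟩ := r
    simp only at h3 hmr
    subst h3 hmr
    rcases h2 with h2 | ⟨h3', m', hm', hmr'⟩
    · exfalso
      rw [resX_old (ref_ne3 h2), resX_new] at he
      rcases Dia.ref_cases h2 with ⟨i, hi, rfl⟩ | ⟨i, hi, rfl⟩ | ⟨i, hi, rfl⟩
      · rw [Dia.res_lp, nm_inj] at he
        omega
      · rw [Dia.res_rp, nm_inj] at he
        omega
      · rw [Dia.res_in, nm_inj] at he
        omega
    · obtain ⟨a', i'⟩ := r'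
      simp only at h3' hmr'
      subst h3' hmr'
      rw [resX_new, resX_new, nm_inj] at he
      have : m.1 = m'.1 := by omega
      rw [this]

theorem eX_XR {k : ℕ} {e : Ref × Ref} (he : e ∈ eX k) : XR k e.1 ∧ XR k e.2 := by
  unfold eX at he
  rw [List.mem_append] at he
  rcases he with he | he
  · have m := mem_edgesOf.1 (show (e.1, e.2) ∈ edgesOf (gadOf k) from he)
    exact ⟨Or.inl m.1, Or.inl ((gadOf_ok k).1 _ m.1 _ m.2).1⟩
  · exact vT_XR he

theorem kd2 {bs : List (ℕ × Bool)} {w : Row} {i : ℕ} : kd bs w i = 2 ↔ w.2.2.1 = 2 := by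
  unfold kd
  by_cases h : w.2.2.1 = 2
  · simp [h]
  · rw [if_neg h]
    constructor
    · intro h'
      split_ifs at h'
      all_goals simp at h'
    · intro h'
      exact (h h').elim

/-- What a drawing of an instance gives. -/
theorem forcedX (h : d.OK) (hlb : ∀ k, lb k ≤ 16) {D : ℕ → ℝ × ℝ}
    (hD : (finst d lb).IsDrawing D) (hm : ∀ e ∈ (finst d lb).verts, D e.1 ∈ e.2.pts) :
    ∃ t : ℕ → ℕ → ℝ, (∀ k < 3 * d.T, d.grp k = k → (lb k : ℝ) ≤ t 0 k ∧ t 0 k ≤ 16) ∧
      ∀ l < d.L + 2, ∀ b < 3 * d.T, ∃ o z : ℕ → ℝ, SndX (d.gk l b)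
        (fun i => t l (d.dia.hb l b + i)) (fun i => t (l + 1) (b + i)) o z := by
  have hok := Dat.dia_ok h
  have hN : d.dia.N = 3 * d.T := rfl
  have hC : d.dia.C = d.L + 2 := rfl
  set t : ℕ → ℕ → ℝ := fun l k => (D (nm 1 l k)).2 - 192 * (k : ℝ) with ht
  set o : ℕ → ℕ → ℕ → ℝ := fun l b i => match (gadOf (d.gk l b)).1[i]? with
    | some w => if w.2.2.1 = 2 then (D (nm (2 + i) l b)).1 - 12 * (l : ℝ) else
      (D (nm (2 + i) l b)).2 - (192 * (d.dia.hb l b : ℝ) + (w.2.1 : ℝ) +
        16 * ((b : ℝ) - (d.dia.hb l b : ℝ)) * (w.1 : ℝ))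
    | none => 0 with ho
  set z : ℕ → ℕ → ℕ → ℝ := fun l b i => (D (nm (102 + i) l b)).2 -
      (192 * (d.dia.hb l b : ℝ) + 16 * ((b : ℝ) - (d.dia.hb l b : ℝ)) *
        (xlo (gadOf (d.gk l b)) (2, i) : ℝ)) with hz
  have hk2 : ∀ (b i : ℕ) (w : Row), (gadOf (d.gk 0 b)).1[i]? = some w → w.2.2.1 ≠ 2 := by
    intro b i w hw h2
    rw [Dat.gk_zero] at hw
    split_ifs at hw
    · have hw' : plainG.1[i]? = some w := hw
      have hi : i < 3 := (List.getElem?_eq_some_iff.1 hw').1
      interval_cases i <;> (simp [plainG] at hw'; subst hw'; simp at h2)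
    · have hw' : negG.1[i]? = some w := hw
      have hi : i < 1 := (List.getElem?_eq_some_iff.1 hw').1
      interval_cases i <;> (simp [negG] at hw'; subst hw'; simp at h2)
  have hport : ∀ l < d.dia.C, ∀ k < d.dia.N, (l = 0 → d.grp k = k) →
      (D (nm 1 l k)).1 = 12 * (l : ℝ) ∧ ((if l = 0 then lb k else 0 : ℕ) : ℝ) ≤ t l k ∧
        t l k ≤ 16 := by
    intro l hl k hk h0
    have e1 := hm _ (mem_finst.2 (Or.inr ⟨l, hl, k, hk, mem_cellV.2 (Or.inl ⟨h0, rfl⟩)⟩))
    simp only at e1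
    rw [segPi (by split_ifs; exacts [hlb k, by norm_num])] at e1
    obtain ⟨e1, e2, e3⟩ := e1
    push_cast at e1 e2 e3
    rw [ht]
    simp only
    push_cast
    refine ⟨e1, by linarith, by linarith⟩
  have hport' : ∀ l k, nm 1 l k ∈ (d.dia.inst true).names →
      (D (nm 1 l k)).1 = 12 * (l : ℝ) ∧ 0 ≤ t l k ∧ t l k ≤ 16 := by
    intro l k hn
    rcases Dia.mem_names.1 hn with h1 | ⟨l', hl', k', hk', h0, h1⟩ |
      ⟨l', hl', b', hb', i', hi', h1⟩
    · unfold root at h1; rw [nm_inj] at h1; omega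
    · rw [nm_inj] at h1
      obtain ⟨-, rfl, rfl⟩ := h1
      obtain ⟨m1, m2, m3⟩ := hport l hl' k hk' h0
      exact ⟨m1, le_trans (Nat.cast_nonneg _) m2, m3⟩
    · rw [nm_inj] at h1; omega
  have hinn : ∀ l < d.dia.C, ∀ b < d.dia.N, ∀ (i : ℕ) (w : Row), (gadOf (d.gk l b)).1[i]? = some w →
      D (nm (2 + i) l b) ∈ (segF (12 * l + w.1)
        (192 * d.dia.hb l b + w.2.1 + 16 * (b - d.dia.hb l b) * w.1)
        (kd (bars (d.gk l b)) w i)).pts := by
    intro l hl b hb i w hw
    exact hm _ (mem_finst.2 (Or.inr ⟨l, hl, b, hb, mem_cellV.2 (Or.inr (Or.inl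
      ⟨i, w, hw, rfl⟩))⟩))
  have hinn' : ∀ l < d.dia.C, ∀ b < d.dia.N, ∀ (i : ℕ) (w : Row), (gadOf (d.gk l b)).1[i]? = some w →
      D (nm (2 + i) l b) = d.dia.pos t o (nm (2 + i) l b) ∧
      ((kd (bars (d.gk l b)) w i = 0 → 0 ≤ o l b i ∧ o l b i ≤ 16) ∧
      (kd (bars (d.gk l b)) w i = 3 → 0 ≤ o l b i ∧ o l b i ≤ 8) ∧
      (kd (bars (d.gk l b)) w i = 4 → 8 ≤ o l b i ∧ o l b i ≤ 16) ∧
      (kd (bars (d.gk l b)) w i = 2 → (w.1 : ℝ) ≤ o l b i ∧ o l b i ≤ (w.1 : ℝ) + 3)) := by
    intro l hl b hb i w hw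
    have e1 := hinn l hl b hb i w hw
    have hhb := Dia.hb_le hok l b
    have hq : d.dia.q t o l b (2, i) = if w.2.2.1 = 2 then (o l b i, (w.2.1 : ℝ)) else
      ((w.1 : ℝ), (w.2.1 : ℝ) + o l b i) := by
      unfold Dia.q
      exact cfg_inn _ _ _ hw
    have eo : o l b i = if w.2.2.1 = 2 then (D (nm (2 + i) l b)).1 - 12 * (l : ℝ) else
      (D (nm (2 + i) l b)).2 - (192 * (d.dia.hb l b : ℝ) + (w.2.1 : ℝ) +
        16 * ((b : ℝ) - (d.dia.hb l b : ℝ)) * (w.1 : ℝ)) := by
      rw [ho]; simp only [hw]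
    rw [Dia.pos_in, hq]
    unfold Dia.plc pl
    by_cases hk : w.2.2.1 = 2
    · have hl0 : l ≠ 0 := by
        rintro rfl
        exact hk2 b i w hw hk
      have e0 : d.dia.hb l b = b := Dia.hb_pos hl0 b
      have hkd : kd (bars (d.gk l b)) w i = 2 := kd2.2 hk
      rw [hkd, segF2, e0] at e1
      rw [if_pos hk] at eo
      push_cast [Nat.sub_self] at e1
      obtain ⟨m1, m2, m3⟩ := e1
      rw [hkd, if_pos hk, e0, eo]
      refine ⟨?_, by omega, by omega, by omega, fun _ => ⟨by linarith, by linarith⟩⟩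
      ext
      · simp only; ring
      · simp only [m1]; ring
    · rw [if_neg hk] at eo
      rw [if_neg hk]
      have hkd2 : kd (bars (d.gk l b)) w i ≠ 2 := fun hc => hk (kd2.1 hc)
      have hx : (D (nm (2 + i) l b)).1 = 12 * (l : ℝ) + w.1 ∧
          ((kd (bars (d.gk l b)) w i = 0 → 0 ≤ o l b i ∧ o l b i ≤ 16) ∧
          (kd (bars (d.gk l b)) w i = 3 → 0 ≤ o l b i ∧ o l b i ≤ 8) ∧
          (kd (bars (d.gk l b)) w i = 4 → 8 ≤ o l b i ∧ o l b i ≤ 16) ∧
          (kd (bars (d.gk l b)) w i = 2 → (w.1 : ℝ) ≤ o l b i ∧ o l b i ≤ (w.1 : ℝ) + 3)) := by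
        rw [eo]
        have hcases : kd (bars (d.gk l b)) w i = 0 ∨ kd (bars (d.gk l b)) w i = 3 ∨
            kd (bars (d.gk l b)) w i = 4 := by
          unfold kd
          rw [if_neg hk]
          split_ifs <;> simp
        rcases hcases with hc | hc | hc
        · rw [hc, segF0] at e1
          push_cast [Nat.cast_sub hhb] at e1
          obtain ⟨m1, m2, m3⟩ := e1
          rw [hc]
          exact ⟨m1, fun _ => ⟨by linarith, by linarith⟩, by omega, by omega, by omega⟩
        · rw [hc, segF3] at e1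
          push_cast [Nat.cast_sub hhb] at e1
          obtain ⟨m1, m2, m3⟩ := e1
          rw [hc]
          exact ⟨m1, by omega, fun _ => ⟨by linarith, by linarith⟩, by omega, by omega⟩
        · rw [hc, segF4] at e1
          push_cast [Nat.cast_sub hhb] at e1
          obtain ⟨m1, m2, m3⟩ := e1
          rw [hc]
          exact ⟨m1, by omega, by omega, fun _ => ⟨by linarith, by linarith⟩, by omega⟩
      refine ⟨?_, hx.2⟩
      ext
      · simp only [hx.1]
      · simp only [eo]; ring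
  have hfar : ∀ l < d.dia.C, ∀ b < d.dia.N, ∀ m ∈ bars (d.gk l b),
      (D (nm (102 + m.1) l b)).1 = 12 * (l : ℝ) + (xlo (gadOf (d.gk l b)) (2, m.1) : ℝ) ∧
      (m.2 = true → (((((gadOf (d.gk l b)).1[m.1]?).map fun w => w.2.1).getD 0 : ℕ) : ℝ) + 16 ≤
        z l b m.1) ∧
      (m.2 = false → z l b m.1 ≤
        (((((gadOf (d.gk l b)).1[m.1]?).map fun w => w.2.1).getD 0 : ℕ) : ℝ)) := by
    intro l hl b hb m hmb
    have e1 := hm _ (mem_finst.2 (Or.inr ⟨l, hl, b, hb, mem_cellV.2 (Or.inr (Or.inr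
      ⟨m, hmb, rfl⟩))⟩))
    simp only at e1
    have hhb := Dia.hb_le hok l b
    rw [hz]
    simp only
    by_cases hm2 : m.2 = true
    · rw [if_pos hm2, segF5] at e1
      push_cast [Nat.cast_sub hhb] at e1
      obtain ⟨m1, m2, m3⟩ := e1
      refine ⟨m1, fun _ => by linarith, fun hc => ?_⟩
      rw [hm2] at hc
      simp at hc
    · rw [if_neg hm2, segF6] at e1
      push_cast [Nat.cast_sub hhb] at e1
      obtain ⟨m1, m2, m3⟩ := e1
      exact ⟨m1, fun hc => (hm2 hc).elim, fun _ => by linarith⟩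
  -- all positions
  have hpos : ∀ l < d.dia.C, ∀ b < d.dia.N, ∀ r, XR (d.gk l b) r →
      D (resX d l b r) = d.dia.plc l b (cfgX (gadOf (d.gk l b))
        (fun i => t l (d.dia.hb l b + i)) (fun i => t (l + 1) (b + i)) (o l b) (z l b) r) := by
    intro l hl b hb r hr
    rcases hr with hr | ⟨h3, m, hmb, hmr⟩
    · rw [resX_old (ref_ne3 hr), cfgX_old _ _ _ _ (ref_ne3 hr)]
      have e : D (d.dia.res l b r) = d.dia.pos t o (d.dia.res l b r) := by
        have hn := Dia.res_mem_names hok (cl := true) hl hb hr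
        rcases Dia.ref_cases hr with ⟨i, hi, rfl⟩ | ⟨i, hi, rfl⟩ | ⟨i, hi, rfl⟩
        · rw [Dia.res_lp] at hn ⊢
          rw [Dia.pos_T]
          ext
          · exact (hport' _ _ hn).1
          · simp only [ht]; ring
        · rw [Dia.res_rp] at hn ⊢
          rw [Dia.pos_T]
          ext
          · exact (hport' _ _ hn).1
          · simp only [ht]; ring
        · rw [Dia.res_in]
          exact (hinn' l hl b hb i _ (List.getElem?_eq_getElem hi)).1
      rw [e, Dia.pos_res t o hr]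
      rfl
    · obtain ⟨a, i⟩ := r
      simp only at h3 hmr
      subst h3 hmr
      rw [resX_new]
      unfold cfgX Dia.plc pl
      rw [if_pos rfl]
      ext
      · exact (hfar l hl b hb m hmb).1
      · simp only [hz]; ring
  refine ⟨t, ?_, ?_⟩
  · intro k hk hg
    have := hport 0 hok.hC k hk (fun _ => hg)
    rw [if_pos rfl] at this
    exact this.2
  · intro l hl b hb
    refine ⟨o l b, z l b, ?_, ?_, ?_, ?_, ?_⟩
    · intro i w hw
      exact (hinn' l hl b hb i w hw).2
    · intro m hmb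
      exact (hfar l hl b hb m hmb).2
    · intro e he f hf h1 h2 h3 h4
      have xe := eX_XR he
      have xf := eX_XR hf
      have ae : (finst d lb).Adj (resX d l b e.1) (resX d l b e.2) := by
        left
        unfold finst
        rw [List.mem_append]
        right
        exact List.mem_flatMap.2 ⟨l, List.mem_range.2 hl, List.mem_flatMap.2
          ⟨b, List.mem_range.2 hb, List.mem_map.2 ⟨e, he, rfl⟩⟩⟩
      have af : (finst d lb).Adj (resX d l b f.1) (resX d l b f.2) := by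
        left
        unfold finst
        rw [List.mem_append]
        right
        exact List.mem_flatMap.2 ⟨l, List.mem_range.2 hl, List.mem_flatMap.2
          ⟨b, List.mem_range.2 hb, List.mem_map.2 ⟨f, hf, rfl⟩⟩⟩
      have n1 : resX d l b e.1 ≠ resX d l b f.1 := fun hc => h1 (resX_inj xe.1 xf.1 hc)
      have n2 : resX d l b e.1 ≠ resX d l b f.2 := fun hc => h2 (resX_inj xe.1 xf.2 hc)
      have n3 : resX d l b e.2 ≠ resX d l b f.1 := fun hc => h3 (resX_inj xe.2 xf.1 hc)
      have n4 : resX d l b e.2 ≠ resX d l b f.2 := fun hc => h4 (resX_inj xe.2 xf.2 hc)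
      have hdj : Disj (D (resX d l b e.1)) (D (resX d l b e.2)) (D (resX d l b f.1))
          (D (resX d l b f.2)) := by
        intro p hp hp'
        have hne : s(resX d l b e.1, resX d l b e.2) ≠ s(resX d l b f.1, resX d l b f.2) := by
          intro hc
          have : resX d l b e.1 ∈ s(resX d l b f.1, resX d l b f.2) := by rw [← hc]; simp
          rw [Sym2.mem_iff] at this
          exact this.elim n1 n2
        obtain ⟨w, hw1, hw2, -⟩ := hD.plane _ _ _ _ ae af hne p hp hp'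
        rw [Sym2.mem_iff] at hw1 hw2
        rcases hw1 with rfl | rfl
        · exact hw2.elim n1 n2
        · exact hw2.elim n3 n4
      rw [hpos l hl b hb _ xe.1, hpos l hl b hb _ xe.2, hpos l hl b hb _ xf.1,
        hpos l hl b hb _ xf.2] at hdj
      exact disj_of_pl hdj
    · intro i hi
      have hn := Dia.res_mem_names hok (cl := true) hl hb
        (mem_refs.2 (Or.inl ⟨rfl, hi⟩) : ((0, i) : Ref) ∈ refs (d.dia.gad l b))
      rw [Dia.res_lp] at hn
      exact (hport' _ _ hn).2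
    · intro i hi
      have hn := Dia.res_mem_names hok (cl := true) hl hb
        (mem_refs.2 (Or.inr (Or.inl ⟨rfl, hi⟩)) : ((1, i) : Ref) ∈ refs (d.dia.gad l b))
      rw [Dia.res_rp] at hn
      exact (hport' _ _ hn).2

theorem soundX (h : d.OK) (hlb : ∀ k, lb k ≤ 16) (hs : (finst d lb).Solvable) :
    ∃ s : ℕ → ℝ, (∀ k, 0 ≤ s k ∧ s k ≤ 1) ∧
      (∀ k < 3 * d.T, d.grp k = k → (lb k : ℝ) ≤ 16 * s k) ∧ d.Tests s := by
  obtain ⟨D, hD, hm, -⟩ := hs
  obtain ⟨t, ht, hF⟩ := forcedX h hlb hD hm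
  set s : ℕ → ℝ := fun k => if k < 3 * d.T ∧ d.grp k = k then t 0 k / 16 else 1 / 2 with hsd
  have hs0 : ∀ k < 3 * d.T, d.grp k = k → s k = t 0 k / 16 := by
    intro k hk hg
    rw [hsd]
    simp only
    rw [if_pos ⟨hk, hg⟩]
  have hsr : ∀ k, 0 ≤ s k ∧ s k ≤ 1 := by
    intro k
    rw [hsd]
    simp only
    split_ifs with h1
    · have := ht k h1.1 h1.2
      have h0 : (0 : ℝ) ≤ (lb k : ℝ) := Nat.cast_nonneg _
      constructor <;> linarith
    · norm_num
  refine ⟨s, hsr, ?_, ?_⟩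
  · intro k hk hg
    rw [hs0 k hk hg]
    linarith [(ht k hk hg).1]
  -- the signals
  have hlit : ∀ k, 0 ≤ d.lit s k := by
    intro k
    unfold Dat.lit
    have := hsr (d.grp k)
    split_ifs <;> linarith
  have sig : ∀ i ≤ d.L, ∀ k < 3 * d.T, 16 * d.lit s (d.tr i k) < t (i + 1) k := by
    intro i
    induction i with
    | zero =>
      intro _ k hk
      obtain ⟨o, z, hsnd⟩ := hF 0 (by omega) k hk
      have e2 : d.dia.hb 0 k = d.grp k := rfl
      have hgk : d.grp k < 3 * d.T := lt_of_le_of_lt (h.g1 k) hk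
      rw [Dat.gk_zero, e2] at hsnd
      simp only [Dat.tr]
      unfold Dat.lit
      rw [hs0 _ hgk (h.g2 k)]
      split_ifs with h1
      · rw [if_pos h1] at hsnd
        have := plain_s hsnd
        simp only [add_zero, zero_add] at this
        linarith
      · rw [if_neg h1] at hsnd
        have := neg_s hsnd
        simp only [add_zero, zero_add] at this
        linarith
    | succ i ih =>
      intro hi k hk
      have ih' := ih (by omega)
      have hJ := h.hJ i (by omega)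
      simp only [Dat.tr]
      have hb1 : ∀ b, d.dia.hb (i + 1) b = b := fun b => Dia.hb_pos (by omega) b
      have h1 := ih' (Dat.sw (d.J i) k) (Dat.sw_lt hJ hk)
      refine lt_trans h1 ?_
      by_cases hk1 : k = d.J i
      · obtain ⟨o, z, hsnd⟩ := hF (i + 1) (by omega) (d.J i) (by omega)
        rw [Dat.gk_layer (by omega), if_pos rfl, hb1] at hsnd
        have := (swap_s hsnd).2
        simp only [add_zero] at this
        unfold Dat.sw
        rw [if_pos hk1, hk1]
        exact this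
      · by_cases hk2 : k = d.J i + 1
        · obtain ⟨o, z, hsnd⟩ := hF (i + 1) (by omega) (d.J i) (by omega)
          rw [Dat.gk_layer (by omega), if_pos rfl, hb1] at hsnd
          have := (swap_s hsnd).1
          simp only [add_zero] at this
          unfold Dat.sw
          rw [if_neg hk1, if_pos hk2, hk2]
          exact this
        · obtain ⟨o, z, hsnd⟩ := hF (i + 1) (by omega) k hk
          rw [Dat.gk_layer (by omega), if_neg hk1, if_neg hk2, hb1] at hsnd
          have := plain_s hsnd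
          simp only [add_zero] at this
          unfold Dat.sw
          rw [if_neg hk1, if_neg hk2]
          exact this
  intro τ hτ
  have s0 := sig d.L le_rfl (3 * τ) (by omega)
  have s1 := sig d.L le_rfl (3 * τ + 1) (by omega)
  have s2 := sig d.L le_rfl (3 * τ + 2) (by omega)
  have p0 := hlit (d.tr d.L (3 * τ))
  have p1 := hlit (d.tr d.L (3 * τ + 1))
  obtain ⟨o, z, hsnd⟩ := hF (d.L + 1) (by omega) (3 * τ) (by omega)
  have hb1 : d.dia.hb (d.L + 1) (3 * τ) = 3 * τ := Dia.hb_pos (by omega) _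
  have e3 : 3 * τ / 3 = τ := by omega
  rw [Dat.gk_last, if_pos (by omega), hb1, e3] at hsnd
  unfold shold
  split_ifs with hk
  · rw [if_pos hk] at hsnd
    have := prod_s hsnd
    simp only [add_zero] at this
    have k1 : (1 + d.lit s (d.tr d.L (3 * τ + 1))) * d.lit s (d.tr d.L (3 * τ)) * 256 ≤
        (16 + t (d.L + 1) (3 * τ + 1)) * t (d.L + 1) (3 * τ) := by
      calc (1 + d.lit s (d.tr d.L (3 * τ + 1))) * d.lit s (d.tr d.L (3 * τ)) * 256
          = (16 + 16 * d.lit s (d.tr d.L (3 * τ + 1))) * (16 * d.lit s (d.tr d.L (3 * τ))) := by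
            ring
        _ ≤ _ := mul_le_mul (by linarith) s0.le (by linarith) (by linarith)
    linarith
  · rw [if_neg hk] at hsnd
    have := lin_s hsnd
    simp only [add_zero] at this
    linarith

end Pool.Agent.H38SD
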