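import Pool.Agent.H38SD.Mem

/-!
# What a drawing of a gadget forces
-/

set_option linter.unusedSimpArgs false

namespace Pool.Agent.H38SD

open Pool.Agent.K4H90.SegDraw

/-- The facts about the positions in a gadget given by a drawing. -/
structure SndX (k : ℕ) (lo ro o z : ℕ → ℝ) : Prop where
  off : ∀ i w, (gadOf k).1[i]? = some w → (kd (bars k) w i = 0 → 0 ≤ o i ∧ o i ≤ 16) ∧
    (kd (bars k) w i = 3 → 0 ≤ o i ∧ o i ≤ 8) ∧ (kd (bars k) w i = 4 → 8 ≤ o i ∧ o i ≤ 16) ∧
    (kd (bars k) w i = 2 → (w.1 : ℝ) ≤ o i ∧ o i ≤ (w.1 : ℝ) + 3)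
  far : ∀ m ∈ bars k,
    (m.2 = true → (((((gadOf k).1[m.1]?).map fun w => w.2.1).getD 0 : ℕ) : ℝ) + 16 ≤ z m.1) ∧
    (m.2 = false → z m.1 ≤ (((((gadOf k).1[m.1]?).map fun w => w.2.1).getD 0 : ℕ) : ℝ))
  dj : ∀ e ∈ eX k, ∀ f ∈ eX k, e.1 ≠ f.1 → e.1 ≠ f.2 → e.2 ≠ f.1 → e.2 ≠ f.2 →
    Disj (cfgX (gadOf k) lo ro o z e.1) (cfgX (gadOf k) lo ro o z e.2)
      (cfgX (gadOf k) lo ro o z f.1) (cfgX (gadOf k) lo ro o z f.2)
  lp : ∀ i < (gadOf k).2.1.length, 0 ≤ lo i ∧ lo i ≤ 16
  rp : ∀ i < (gadOf k).2.2.length, 0 ≤ ro i ∧ ro i ≤ 16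

theorem plain_s {lo ro o z : ℕ → ℝ} (h : SndX 0 lo ro o z) :
    lo 0 < ro 0 := by
  obtain ⟨off, far, dj, hlp, hrp⟩ := h
  obtain ⟨l0a, l0b⟩ := hlp 0 (by decide)
  obtain ⟨r0a, r0b⟩ := hrp 0 (by decide)
  obtain ⟨o0a, o0b⟩ := (off 0 _ rfl).2.1 (by decide)
  obtain ⟨o1a, o1b⟩ := (off 1 _ rfl).1 (by decide)
  obtain ⟨o2a, o2b⟩ := (off 2 _ rfl).2.2.1 (by decide)
  have f0 : (16 : ℝ) ≤ z 0 := by
    have := (far (0, true) (by decide)).1 rfl
    norm_num [gadOf, plainG] at this
    linarith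
  have f2 : z 2 ≤ (0 : ℝ) := by
    have := (far (2, false) (by decide)).2 rfl
    norm_num [gadOf, plainG] at this
    linarith
  have dg0 : Disj (cfgX plainG lo ro o z (0, 0)) (cfgX plainG lo ro o z (2, 1)) (cfgX plainG lo ro o z (2, 0)) (cfgX plainG lo ro o z (3, 0)) :=
    dj ((0, 0), (2, 1)) (by decide +kernel) ((2, 0), (3, 0)) (by decide +kernel) (by decide) (by decide)
      (by decide) (by decide)
  simp only [plain_x0_0, plain_x2_1, plain_x2_0, plain_x3_0] at dg0
  have g0 : lo 0 + o 1 < 16 := by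
    by_contra hc
    rw [not_lt] at hc
    exact guard dg0 (by norm_num) (Or.inl (by simp only; linarith)) (Or.inr (by simp only; linarith))
  have dg1 : Disj (cfgX plainG lo ro o z (2, 1)) (cfgX plainG lo ro o z (1, 0)) (cfgX plainG lo ro o z (2, 2)) (cfgX plainG lo ro o z (3, 2)) :=
    dj ((2, 1), (1, 0)) (by decide +kernel) ((2, 2), (3, 2)) (by decide +kernel) (by decide) (by decide)
      (by decide) (by decide)
  simp only [plain_x2_1, plain_x1_0, plain_x2_2, plain_x3_2] at dg1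
  have g1 : 16 < o 1 + ro 0 := by
    by_contra hc
    rw [not_lt] at hc
    exact guard dg1 (by norm_num) (Or.inr (by simp only; linarith)) (Or.inl (by simp only; linarith))
  linarith

theorem neg_s {lo ro o z : ℕ → ℝ} (h : SndX 1 lo ro o z) :
    16 < lo 0 + ro 0 := by
  obtain ⟨off, far, dj, hlp, hrp⟩ := h
  obtain ⟨l0a, l0b⟩ := hlp 0 (by decide)
  obtain ⟨r0a, r0b⟩ := hrp 0 (by decide)
  obtain ⟨o0a, o0b⟩ := (off 0 _ rfl).2.2.1 (by decide)
  have f0 : z 0 ≤ (0 : ℝ) := by
    have := (far (0, false) (by decide)).2 rfl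
    norm_num [gadOf, negG] at this
    linarith
  have dg0 : Disj (cfgX negG lo ro o z (0, 0)) (cfgX negG lo ro o z (1, 0)) (cfgX negG lo ro o z (2, 0)) (cfgX negG lo ro o z (3, 0)) :=
    dj ((0, 0), (1, 0)) (by decide +kernel) ((2, 0), (3, 0)) (by decide +kernel) (by decide) (by decide)
      (by decide) (by decide)
  simp only [neg_x0_0, neg_x1_0, neg_x2_0, neg_x3_0] at dg0
  have g0 : 16 < lo 0 + ro 0 := by
    by_contra hc
    rw [not_lt] at hc
    exact guard dg0 (by norm_num) (Or.inr (by simp only; linarith)) (Or.inl (by simp only; linarith))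
  linarith

theorem swap_s {lo ro o z : ℕ → ℝ} (h : SndX 2 lo ro o z) :
    lo 0 < ro 1 ∧ lo 1 < ro 0 := by
  obtain ⟨off, far, dj, hlp, hrp⟩ := h
  obtain ⟨l0a, l0b⟩ := hlp 0 (by decide)
  obtain ⟨l1a, l1b⟩ := hlp 1 (by decide)
  obtain ⟨r0a, r0b⟩ := hrp 0 (by decide)
  obtain ⟨r1a, r1b⟩ := hrp 1 (by decide)
  obtain ⟨o0a, o0b⟩ := (off 0 _ rfl).2.1 (by decide)
  obtain ⟨o1a, o1b⟩ := (off 1 _ rfl).1 (by decide)
  obtain ⟨o2a, o2b⟩ := (off 2 _ rfl).2.2.1 (by decide)
  obtain ⟨o3a, o3b⟩ := (off 3 _ rfl).1 (by decide)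
  obtain ⟨o4a, o4b⟩ := (off 4 _ rfl).2.2.1 (by decide)
  obtain ⟨o5a, o5b⟩ := (off 5 _ rfl).1 (by decide)
  obtain ⟨o6a, o6b⟩ := (off 6 _ rfl).1 (by decide)
  obtain ⟨o7a, o7b⟩ := (off 7 _ rfl).2.1 (by decide)
  obtain ⟨o8a, o8b⟩ := (off 8 _ rfl).1 (by decide)
  obtain ⟨o9a, o9b⟩ := (off 9 _ rfl).2.2.1 (by decide)
  obtain ⟨o10a, o10b⟩ := (off 10 _ rfl).1 (by decide)
  obtain ⟨o11a, o11b⟩ := (off 11 _ rfl).2.1 (by decide)
  obtain ⟨o12a, o12b⟩ := (off 12 _ rfl).1 (by decide)
  obtain ⟨o13a, o13b⟩ := (off 13 _ rfl).1 (by decide)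
  obtain ⟨o14a, o14b⟩ := (off 14 _ rfl).2.2.1 (by decide)
  have f0 : (16 : ℝ) ≤ z 0 := by
    have := (far (0, true) (by decide)).1 rfl
    norm_num [gadOf, swapG] at this
    linarith
  have f2 : z 2 ≤ (0 : ℝ) := by
    have := (far (2, false) (by decide)).2 rfl
    norm_num [gadOf, swapG] at this
    linarith
  have f4 : z 4 ≤ (0 : ℝ) := by
    have := (far (4, false) (by decide)).2 rfl
    norm_num [gadOf, swapG] at this
    linarith
  have f7 : (136 : ℝ) ≤ z 7 := by
    have := (far (7, true) (by decide)).1 rfl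
    norm_num [gadOf, swapG] at this
    linarith
  have f9 : z 9 ≤ (168 : ℝ) := by
    have := (far (9, false) (by decide)).2 rfl
    norm_num [gadOf, swapG] at this
    linarith
  have f11 : (64 : ℝ) ≤ z 11 := by
    have := (far (11, true) (by decide)).1 rfl
    norm_num [gadOf, swapG] at this
    linarith
  have f14 : z 14 ≤ (0 : ℝ) := by
    have := (far (14, false) (by decide)).2 rfl
    norm_num [gadOf, swapG] at this
    linarith
  have dg0 : Disj (cfgX swapG lo ro o z (0, 0)) (cfgX swapG lo ro o z (2, 1)) (cfgX swapG lo ro o z (2, 0)) (cfgX swapG lo ro o z (3, 0)) :=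
    dj ((0, 0), (2, 1)) (by decide +kernel) ((2, 0), (3, 0)) (by decide +kernel) (by decide) (by decide)
      (by decide) (by decide)
  simp only [swap_x0_0, swap_x2_1, swap_x2_0, swap_x3_0] at dg0
  have g0 : lo 0 + o 1 < 16 := by
    by_contra hc
    rw [not_lt] at hc
    exact guard dg0 (by norm_num) (Or.inl (by simp only; linarith)) (Or.inr (by simp only; linarith))
  have dg1 : Disj (cfgX swapG lo ro o z (2, 1)) (cfgX swapG lo ro o z (2, 3)) (cfgX swapG lo ro o z (2, 2)) (cfgX swapG lo ro o z (3, 2)) :=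
    dj ((2, 1), (2, 3)) (by decide +kernel) ((2, 2), (3, 2)) (by decide +kernel) (by decide) (by decide)
      (by decide) (by decide)
  simp only [swap_x2_1, swap_x2_3, swap_x2_2, swap_x3_2] at dg1
  have g1 : 16 < o 1 + o 3 := by
    by_contra hc
    rw [not_lt] at hc
    exact guard dg1 (by norm_num) (Or.inr (by simp only; linarith)) (Or.inl (by simp only; linarith))
  have dg2 : Disj (cfgX swapG lo ro o z (2, 3)) (cfgX swapG lo ro o z (2, 5)) (cfgX swapG lo ro o z (2, 4)) (cfgX swapG lo ro o z (3, 4)) :=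
    dj ((2, 3), (2, 5)) (by decide +kernel) ((2, 4), (3, 4)) (by decide +kernel) (by decide) (by decide)
      (by decide) (by decide)
  simp only [swap_x2_3, swap_x2_5, swap_x2_4, swap_x3_4] at dg2
  have g2 : 16 < o 3 + o 5 := by
    by_contra hc
    rw [not_lt] at hc
    exact guard dg2 (by norm_num) (Or.inr (by simp only; linarith)) (Or.inl (by simp only; linarith))
  have dg3 : Disj (cfgX swapG lo ro o z (2, 6)) (cfgX swapG lo ro o z (2, 12)) (cfgX swapG lo ro o z (2, 11)) (cfgX swapG lo ro o z (3, 11)) :=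
    dj ((2, 6), (2, 12)) (by decide +kernel) ((2, 11), (3, 11)) (by decide +kernel) (by decide) (by decide)
      (by decide) (by decide)
  simp only [swap_x2_6, swap_x2_12, swap_x2_11, swap_x3_11] at dg3
  have g3 : o 6 + o 12 < 16 := by
    by_contra hc
    rw [not_lt] at hc
    exact guard dg3 (by norm_num) (Or.inl (by simp only; linarith)) (Or.inr (by simp only; linarith))
  have dg4 : Disj (cfgX swapG lo ro o z (2, 6)) (cfgX swapG lo ro o z (2, 8)) (cfgX swapG lo ro o z (2, 7)) (cfgX swapG lo ro o z (3, 7)) :=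
    dj ((2, 6), (2, 8)) (by decide +kernel) ((2, 7), (3, 7)) (by decide +kernel) (by decide) (by decide)
      (by decide) (by decide)
  simp only [swap_x2_6, swap_x2_8, swap_x2_7, swap_x3_7] at dg4
  have g4 : o 6 + o 8 < 16 := by
    by_contra hc
    rw [not_lt] at hc
    exact guard dg4 (by norm_num) (Or.inl (by simp only; linarith)) (Or.inr (by simp only; linarith))
  have dg5 : Disj (cfgX swapG lo ro o z (2, 8)) (cfgX swapG lo ro o z (2, 10)) (cfgX swapG lo ro o z (2, 9)) (cfgX swapG lo ro o z (3, 9)) :=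
    dj ((2, 8), (2, 10)) (by decide +kernel) ((2, 9), (3, 9)) (by decide +kernel) (by decide) (by decide)
      (by decide) (by decide)
  simp only [swap_x2_8, swap_x2_10, swap_x2_9, swap_x3_9] at dg5
  have g5 : 16 < o 8 + o 10 := by
    by_contra hc
    rw [not_lt] at hc
    exact guard dg5 (by norm_num) (Or.inr (by simp only; linarith)) (Or.inl (by simp only; linarith))
  have dg6 : Disj (cfgX swapG lo ro o z (2, 13)) (cfgX swapG lo ro o z (1, 0)) (cfgX swapG lo ro o z (2, 14)) (cfgX swapG lo ro o z (3, 14)) :=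
    dj ((2, 13), (1, 0)) (by decide +kernel) ((2, 14), (3, 14)) (by decide +kernel) (by decide) (by decide)
      (by decide) (by decide)
  simp only [swap_x2_13, swap_x1_0, swap_x2_14, swap_x3_14] at dg6
  have g6 : 16 < o 13 + ro 0 := by
    by_contra hc
    rw [not_lt] at hc
    exact guard dg6 (by norm_num) (Or.inr (by simp only; linarith)) (Or.inl (by simp only; linarith))
  have dt1 : Disj (cfgX swapG lo ro o z (0, 1)) (cfgX swapG lo ro o z (2, 3)) (cfgX swapG lo ro o z (2, 6)) (cfgX swapG lo ro o z (2, 8)) :=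
    dj ((0, 1), (2, 3)) (by decide +kernel) ((2, 6), (2, 8)) (by decide +kernel) (by decide) (by decide)
      (by decide) (by decide)
  simp only [swap_x0_1, swap_x2_3, swap_x2_6, swap_x2_8] at dt1
  have t1 := cross dt1 (by norm_num) (by norm_num) (a := 4) (b := 2) (by norm_num) (by norm_num)
    (by norm_num) (by norm_num) (by norm_num) (by norm_num) (by norm_num) (by norm_num)
    (by simp only [hdiff]; linarith)
  simp only [hdiff] at t1
  have dt2 : Disj (cfgX swapG lo ro o z (2, 8)) (cfgX swapG lo ro o z (2, 10)) (cfgX swapG lo ro o z (0, 1)) (cfgX swapG lo ro o z (1, 1)) :=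
    dj ((2, 8), (2, 10)) (by decide +kernel) ((0, 1), (1, 1)) (by decide +kernel) (by decide) (by decide)
      (by decide) (by decide)
  simp only [swap_x2_8, swap_x2_10, swap_x0_1, swap_x1_1] at dt2
  have t2 := cross dt2 (by norm_num) (by norm_num) (a := 4) (b := 6) (by norm_num) (by norm_num)
    (by norm_num) (by norm_num) (by norm_num) (by norm_num) (by norm_num) (by norm_num)
    (by simp only [hdiff]; linarith)
  simp only [hdiff] at t2
  have dt3 : Disj (cfgX swapG lo ro o z (2, 5)) (cfgX swapG lo ro o z (2, 13)) (cfgX swapG lo ro o z (2, 6)) (cfgX swapG lo ro o z (2, 12)) :=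
    dj ((2, 5), (2, 13)) (by decide +kernel) ((2, 6), (2, 12)) (by decide +kernel) (by decide) (by decide)
      (by decide) (by decide)
  simp only [swap_x2_5, swap_x2_13, swap_x2_6, swap_x2_12] at dt3
  have t3 := cross dt3 (by norm_num) (by norm_num) (a := 6) (b := 8) (by norm_num) (by norm_num)
    (by norm_num) (by norm_num) (by norm_num) (by norm_num) (by norm_num) (by norm_num)
    (by simp only [hdiff]; linarith)
  simp only [hdiff] at t3
  constructor <;> linarith

theorem lin_s {lo ro o z : ℕ → ℝ} (h : SndX 3 lo ro o z) :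
    lo 0 + lo 2 + 2 * lo 1 < 32 := by
  obtain ⟨off, far, dj, hlp, hrp⟩ := h
  obtain ⟨l0a, l0b⟩ := hlp 0 (by decide)
  obtain ⟨l1a, l1b⟩ := hlp 1 (by decide)
  obtain ⟨l2a, l2b⟩ := hlp 2 (by decide)
  obtain ⟨o0a, o0b⟩ := (off 0 _ rfl).2.1 (by decide)
  obtain ⟨o1a, o1b⟩ := (off 1 _ rfl).1 (by decide)
  obtain ⟨o2a, o2b⟩ := (off 2 _ rfl).2.2.1 (by decide)
  obtain ⟨o3a, o3b⟩ := (off 3 _ rfl).1 (by decide)
  obtain ⟨o4a, o4b⟩ := (off 4 _ rfl).2.1 (by decide)
  obtain ⟨o5a, o5b⟩ := (off 5 _ rfl).1 (by decide)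
  have f0 : (400 : ℝ) ≤ z 0 := by
    have := (far (0, true) (by decide)).1 rfl
    norm_num [gadOf, linG] at this
    linarith
  have f2 : z 2 ≤ (384 : ℝ) := by
    have := (far (2, false) (by decide)).2 rfl
    norm_num [gadOf, linG] at this
    linarith
  have f4 : (208 : ℝ) ≤ z 4 := by
    have := (far (4, true) (by decide)).1 rfl
    norm_num [gadOf, linG] at this
    linarith
  have dg0 : Disj (cfgX linG lo ro o z (0, 2)) (cfgX linG lo ro o z (2, 1)) (cfgX linG lo ro o z (2, 0)) (cfgX linG lo ro o z (3, 0)) :=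
    dj ((0, 2), (2, 1)) (by decide +kernel) ((2, 0), (3, 0)) (by decide +kernel) (by decide) (by decide)
      (by decide) (by decide)
  simp only [lin_x0_2, lin_x2_1, lin_x2_0, lin_x3_0] at dg0
  have g0 : lo 2 + o 1 < 16 := by
    by_contra hc
    rw [not_lt] at hc
    exact guard dg0 (by norm_num) (Or.inl (by simp only; linarith)) (Or.inr (by simp only; linarith))
  have dg1 : Disj (cfgX linG lo ro o z (2, 1)) (cfgX linG lo ro o z (2, 3)) (cfgX linG lo ro o z (2, 2)) (cfgX linG lo ro o z (3, 2)) :=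
    dj ((2, 1), (2, 3)) (by decide +kernel) ((2, 2), (3, 2)) (by decide +kernel) (by decide) (by decide)
      (by decide) (by decide)
  simp only [lin_x2_1, lin_x2_3, lin_x2_2, lin_x3_2] at dg1
  have g1 : 16 < o 1 + o 3 := by
    by_contra hc
    rw [not_lt] at hc
    exact guard dg1 (by norm_num) (Or.inr (by simp only; linarith)) (Or.inl (by simp only; linarith))
  have dg2 : Disj (cfgX linG lo ro o z (0, 1)) (cfgX linG lo ro o z (2, 5)) (cfgX linG lo ro o z (2, 4)) (cfgX linG lo ro o z (3, 4)) :=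
    dj ((0, 1), (2, 5)) (by decide +kernel) ((2, 4), (3, 4)) (by decide +kernel) (by decide) (by decide)
      (by decide) (by decide)
  simp only [lin_x0_1, lin_x2_5, lin_x2_4, lin_x3_4] at dg2
  have g2 : lo 1 + o 5 < 16 := by
    by_contra hc
    rw [not_lt] at hc
    exact guard dg2 (by norm_num) (Or.inl (by simp only; linarith)) (Or.inr (by simp only; linarith))
  have dt1 : Disj (cfgX linG lo ro o z (0, 0)) (cfgX linG lo ro o z (2, 3)) (cfgX linG lo ro o z (0, 1)) (cfgX linG lo ro o z (2, 5)) :=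
    dj ((0, 0), (2, 3)) (by decide +kernel) ((0, 1), (2, 5)) (by decide +kernel) (by decide) (by decide)
      (by decide) (by decide)
  simp only [lin_x0_0, lin_x2_3, lin_x0_1, lin_x2_5] at dt1
  have t1 := cross dt1 (by norm_num) (by norm_num) (a := 0) (b := 2) (by norm_num) (by norm_num)
    (by norm_num) (by norm_num) (by norm_num) (by norm_num) (by norm_num) (by norm_num)
    (by simp only [hdiff]; linarith)
  simp only [hdiff] at t1
  linarith

theorem prod_s {lo ro o z : ℕ → ℝ} (h : SndX 4 lo ro o z) :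
    (16 + lo 1) * lo 0 + 16 * lo 2 < 320 := by
  obtain ⟨off, far, dj, hlp, hrp⟩ := h
  obtain ⟨l0a, l0b⟩ := hlp 0 (by decide)
  obtain ⟨l1a, l1b⟩ := hlp 1 (by decide)
  obtain ⟨l2a, l2b⟩ := hlp 2 (by decide)
  obtain ⟨o0a, o0b⟩ := (off 0 _ rfl).2.1 (by decide)
  obtain ⟨o1a, o1b⟩ := (off 1 _ rfl).1 (by decide)
  obtain ⟨o2a, o2b⟩ := (off 2 _ rfl).2.2.1 (by decide)
  obtain ⟨o3a, o3b⟩ := (off 3 _ rfl).1 (by decide)
  obtain ⟨o4a, o4b⟩ := (off 4 _ rfl).2.1 (by decide)
  obtain ⟨o5a, o5b⟩ := (off 5 _ rfl).1 (by decide)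
  obtain ⟨o6a, o6b⟩ := (off 6 _ rfl).2.2.1 (by decide)
  obtain ⟨o7a, o7b⟩ := (off 7 _ rfl).1 (by decide)
  obtain ⟨o8a, o8b⟩ := (off 8 _ rfl).2.1 (by decide)
  obtain ⟨o9a, o9b⟩ := (off 9 _ rfl).1 (by decide)
  obtain ⟨o10a, o10b⟩ := (off 10 _ rfl).2.2.2 (by decide)
  norm_num at o10a o10b
  obtain ⟨o11a, o11b⟩ := (off 11 _ rfl).2.1 (by decide)
  obtain ⟨o12a, o12b⟩ := (off 12 _ rfl).2.1 (by decide)
  have f0 : (16 : ℝ) ≤ z 0 := by
    have := (far (0, true) (by decide)).1 rfl
    norm_num [gadOf, prodG] at this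
    linarith
  have f2 : z 2 ≤ (0 : ℝ) := by
    have := (far (2, false) (by decide)).2 rfl
    norm_num [gadOf, prodG] at this
    linarith
  have f4 : (164 : ℝ) ≤ z 4 := by
    have := (far (4, true) (by decide)).1 rfl
    norm_num [gadOf, prodG] at this
    linarith
  have f6 : z 6 ≤ (60 : ℝ) := by
    have := (far (6, false) (by decide)).2 rfl
    norm_num [gadOf, prodG] at this
    linarith
  have f8 : (210 : ℝ) ≤ z 8 := by
    have := (far (8, true) (by decide)).1 rfl
    norm_num [gadOf, prodG] at this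
    linarith
  have dg0 : Disj (cfgX prodG lo ro o z (0, 0)) (cfgX prodG lo ro o z (2, 1)) (cfgX prodG lo ro o z (2, 0)) (cfgX prodG lo ro o z (3, 0)) :=
    dj ((0, 0), (2, 1)) (by decide +kernel) ((2, 0), (3, 0)) (by decide +kernel) (by decide) (by decide)
      (by decide) (by decide)
  simp only [prod_x0_0, prod_x2_1, prod_x2_0, prod_x3_0] at dg0
  have g0 : lo 0 + o 1 < 16 := by
    by_contra hc
    rw [not_lt] at hc
    exact guard dg0 (by norm_num) (Or.inl (by simp only; linarith)) (Or.inr (by simp only; linarith))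
  have dg1 : Disj (cfgX prodG lo ro o z (2, 1)) (cfgX prodG lo ro o z (2, 3)) (cfgX prodG lo ro o z (2, 2)) (cfgX prodG lo ro o z (3, 2)) :=
    dj ((2, 1), (2, 3)) (by decide +kernel) ((2, 2), (3, 2)) (by decide +kernel) (by decide) (by decide)
      (by decide) (by decide)
  simp only [prod_x2_1, prod_x2_3, prod_x2_2, prod_x3_2] at dg1
  have g1 : 16 < o 1 + o 3 := by
    by_contra hc
    rw [not_lt] at hc
    exact guard dg1 (by norm_num) (Or.inr (by simp only; linarith)) (Or.inl (by simp only; linarith))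
  have dg2 : Disj (cfgX prodG lo ro o z (0, 1)) (cfgX prodG lo ro o z (2, 5)) (cfgX prodG lo ro o z (2, 4)) (cfgX prodG lo ro o z (3, 4)) :=
    dj ((0, 1), (2, 5)) (by decide +kernel) ((2, 4), (3, 4)) (by decide +kernel) (by decide) (by decide)
      (by decide) (by decide)
  simp only [prod_x0_1, prod_x2_5, prod_x2_4, prod_x3_4] at dg2
  have g2 : lo 1 + o 5 < 16 := by
    by_contra hc
    rw [not_lt] at hc
    exact guard dg2 (by norm_num) (Or.inl (by simp only; linarith)) (Or.inr (by simp only; linarith))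
  have dg3 : Disj (cfgX prodG lo ro o z (2, 5)) (cfgX prodG lo ro o z (2, 7)) (cfgX prodG lo ro o z (2, 6)) (cfgX prodG lo ro o z (3, 6)) :=
    dj ((2, 5), (2, 7)) (by decide +kernel) ((2, 6), (3, 6)) (by decide +kernel) (by decide) (by decide)
      (by decide) (by decide)
  simp only [prod_x2_5, prod_x2_7, prod_x2_6, prod_x3_6] at dg3
  have g3 : 16 < o 5 + o 7 := by
    by_contra hc
    rw [not_lt] at hc
    exact guard dg3 (by norm_num) (Or.inr (by simp only; linarith)) (Or.inl (by simp only; linarith))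
  have dg4 : Disj (cfgX prodG lo ro o z (0, 2)) (cfgX prodG lo ro o z (2, 9)) (cfgX prodG lo ro o z (2, 8)) (cfgX prodG lo ro o z (3, 8)) :=
    dj ((0, 2), (2, 9)) (by decide +kernel) ((2, 8), (3, 8)) (by decide +kernel) (by decide) (by decide)
      (by decide) (by decide)
  simp only [prod_x0_2, prod_x2_9, prod_x2_8, prod_x3_8] at dg4
  have g4 : lo 2 + o 9 < 16 := by
    by_contra hc
    rw [not_lt] at hc
    exact guard dg4 (by norm_num) (Or.inl (by simp only; linarith)) (Or.inr (by simp only; linarith))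
  have v6 : 0 < o 10 - 6 := by linarith
  have v4 : 0 < o 10 - 4 := by linarith
  have dgx : Disj (cfgX prodG lo ro o z (2, 1)) (cfgX prodG lo ro o z (2, 3)) (cfgX prodG lo ro o z (2, 11)) (cfgX prodG lo ro o z (2, 7)) :=
    dj ((2, 1), (2, 3)) (by decide +kernel) ((2, 11), (2, 7)) (by decide +kernel) (by decide) (by decide)
      (by decide) (by decide)
  simp only [prod_x2_1, prod_x2_3, prod_x2_11, prod_x2_7] at dgx
  have gx : o 1 + o 3 < 2 * (8 + o 11) := by
    by_contra hc
    rw [not_lt] at hc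
    exact guard dgx (by norm_num) (Or.inl (by simp only; linarith)) (Or.inr (by simp only; linarith))
  have dt1 : Disj (cfgX prodG lo ro o z (2, 7)) (cfgX prodG lo ro o z (2, 10)) (cfgX prodG lo ro o z (0, 2)) (cfgX prodG lo ro o z (2, 9)) :=
    dj ((2, 7), (2, 10)) (by decide +kernel) ((0, 2), (2, 9)) (by decide +kernel) (by decide) (by decide)
      (by decide) (by decide)
  simp only [prod_x2_7, prod_x2_10, prod_x0_2, prod_x2_9] at dt1
  have w1 : 0 < (2 * (384 + lo 2) + 4 * (4 + o 9) - 6 * (16 + o 7)) * (o 10 - 4) :=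
    mul_pos (by linarith) v4
  have t1 := cross dt1 (by simp only; linarith) (by norm_num) (a := 4) (b := 6) (by norm_num)
    (by simp only; linarith) (by norm_num) (by norm_num) (by norm_num) (by simp only; linarith) (by norm_num)
    (by norm_num) (by simp only [hdiff]; linarith)
  simp only [hdiff] at t1
  have dt2 : Disj (cfgX prodG lo ro o z (2, 1)) (cfgX prodG lo ro o z (2, 3)) (cfgX prodG lo ro o z (2, 11)) (cfgX prodG lo ro o z (2, 10)) :=
    dj ((2, 1), (2, 3)) (by decide +kernel) ((2, 11), (2, 10)) (by decide +kernel) (by decide) (by decide)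
      (by decide) (by decide)
  simp only [prod_x2_1, prod_x2_3, prod_x2_11, prod_x2_10] at dt2
  have w2 : 0 < (2 * (8 + o 11) - (o 1 + o 3)) * (o 10 - 4) := mul_pos (by linarith) v4
  have t2 := cross dt2 (by norm_num) (by simp only; linarith) (a := 4) (b := 6) (by norm_num)
    (by norm_num) (by norm_num) (by simp only; linarith) (by norm_num) (by norm_num) (by norm_num)
    (by simp only; linarith) (by simp only [hdiff]; linarith)
  simp only [hdiff] at t2
  have w3 : 0 ≤ (8 - o 11) * (o 10 - 6) := mul_nonneg (by linarith) v6.le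
  have b1 : lo 0 < o 3 := by linarith
  have b2 : lo 1 < o 7 := by linarith
  have b3 : lo 2 + o 9 < 16 := by linarith
  have b4 : o 3 * (o 10 - 4) < 16 * (o 10 - 6) := by linarith
  have b5 : (16 + o 7) * (o 10 - 6) < (4 + o 9) * (o 10 - 4) := by linarith
  have b6 : (16 + lo 1) * lo 0 ≤ (16 + o 7) * o 3 :=
    mul_le_mul (by linarith) b1.le l0a (by linarith)
  have b7 : (16 + o 7) * (o 3 * (o 10 - 4)) < (16 + o 7) * (16 * (o 10 - 6)) :=
    mul_lt_mul_of_pos_left b4 (by linarith)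
  have b8 : (16 + o 7) * o 3 < 16 * (4 + o 9) := by
    by_contra hc
    rw [not_lt] at hc
    have := mul_le_mul_of_nonneg_right hc v4.le
    linarith
  linarith

end Pool.Agent.H38SD
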