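import Pool.Agent.K4H90.Seg.Net
import Pool.Agent.H38SD.Geo
import Pool.Agent.H38SD.Defs

/-!
# The barriers of the gadgets: tables
-/

namespace Pool.Agent.H38SD

open Pool.Agent.K4H90.SegDraw

/-- The vertices of a gadget with a barrier (an edge to a new vertex with the same abscissa); the
flag tells whether the barrier goes up. -/
def bars (k : ℕ) : List (ℕ × Bool) :=
  if k = 0 then [(0, true), (2, false)] else
  if k = 1 then [(0, false)] else
  if k = 2 then [(0, true), (2, false), (4, false), (7, true), (9, false), (11, true),
    (14, false)] else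
  if k = 3 then [(0, true), (2, false), (4, true)] else
  if k = 4 then [(0, true), (2, false), (4, true), (6, false), (8, true)] else []

/-- The vertical edges of a gadget; `(3, i)` is the new vertex of the inner vertex `i`. -/
def vT (k : ℕ) : List (Ref × Ref) :=
  (bars k).map (fun m => ((2, m.1), (3, m.1))) ++ if k = 4 then [((2, 11), (2, 7))] else []

/-- The kind of the new segment of an inner vertex. -/
def kd (bs : List (ℕ × Bool)) (w : Row) (i : ℕ) : ℕ :=
  if w.2.2.1 = 2 then 2 else if (i, true) ∈ bs then 3 else if (i, false) ∈ bs then 4 else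
  if w.2.2.1 = 1 then 3 else 0

/-- The table of the vertices of a cell: first component of the name, abscissa, ordinate, kind. -/
def mkT (g : Gadget) (bs : List (ℕ × Bool)) : List (ℕ × ℕ × ℕ × ℕ) :=
  (g.1.zipIdx.map fun p => (2 + p.2, p.1.1, p.1.2.1, kd bs p.1 p.2)) ++
  bs.map fun m => (102 + m.1, xlo g (2, m.1), ((g.1[m.1]?).map fun w => w.2.1).getD 0,
    if m.2 = true then 5 else 6)

/-- The positions of the vertices of a gadget, for given offsets of the ports and the inner vertices
and given ordinates of the new vertices. -/
noncomputable def cfgX (g : Gadget) (lo ro o z : ℕ → ℝ) (r : Ref) : ℝ × ℝ :=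
  if r.1 = 3 then ((xlo g (2, r.2) : ℝ), z r.2) else cfg g lo ro o r

/-- The ordinates of the new vertices in the drawings that we construct. -/
def yF (k i : ℕ) : ℕ :=
  (((gadOf k).1[i]?).map fun w => w.2.1).getD 0 + if (i, true) ∈ bars k then 16 else 0

/-- Which pairs of an edge and a vertical edge have to be compared. -/
def tabV (k : ℕ) : List ((Ref × Ref) × (Ref × Ref)) :=
  (vT k).flatMap fun v => ((edgesOf (gadOf k)).filter fun e =>
    !(decide (xhi (gadOf k) e.2 < xlo (gadOf k) v.1) || decide (xlo (gadOf k) v.1 <
      xlo (gadOf k) e.1) || decide (e.1 = v.1) || decide (e.1 = v.2) || decide (e.2 = v.1) ||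
      decide (e.2 = v.2))).map fun e => (e, v)

/-- Which pairs of vertical edges have to be compared. -/
def tabW (k : ℕ) : List ((Ref × Ref) × (Ref × Ref)) :=
  (vT k).flatMap fun v => ((vT k).filter fun e =>
    !(decide (e = v) || decide (xlo (gadOf k) v.1 ≠ xlo (gadOf k) e.1))).map fun e => (e, v)

end Pool.Agent.H38SD
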